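import Mathlib
import Pool.Agent.MP_025f5d_nt.Defs

-- part MP_025f5d_nt.Lam
section

namespace Pool.Agent.MP_025f5d_nt

open Finset Polynomial

variable {R : Type*} [CommRing R]

/-- Homogeneous Legendre form. -/
def Lam (n : ℕ) (a b : R) : R :=
  ∑ k ∈ range (n + 1), ((n.choose k : ℕ) : R) ^ 2 * a ^ k * b ^ (n - k)

theorem Lam_symm (n : ℕ) (a b : R) : Lam n a b = Lam n b a := by
  unfold Lam
  rw [← Finset.sum_range_reflect]
  refine Finset.sum_congr rfl fun k hk => ?_
  have hk' : k ≤ n := by simpa [Nat.lt_succ_iff] using hk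
  have h1 : n + 1 - 1 - k = n - k := by omega
  have h2 : n - (n - k) = k := by omega
  rw [h1, h2, Nat.choose_symm hk']
  ring

theorem Lam_smul (n : ℕ) (t a b : R) : Lam n (t * a) (t * b) = t ^ n * Lam n a b := by
  unfold Lam
  rw [Finset.mul_sum]
  refine Finset.sum_congr rfl fun k hk => ?_
  have hk' : k ≤ n := by simpa [Nat.lt_succ_iff] using hk
  have : t ^ n = t ^ k * t ^ (n - k) := by rw [← pow_add]; congr 1; omega
  rw [this, mul_pow, mul_pow]; ring

theorem map_Lam {S : Type*} [CommRing S] (f : R →+* S) (n : ℕ) (a b : R) :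
    f (Lam n a b) = Lam n (f a) (f b) := by
  simp [Lam, map_sum]

theorem Lam_eq_coeff (n : ℕ) (a b : R) :
    Lam n a b = ((X + C a) ^ n * (X + C b) ^ n).coeff n := by
  rw [coeff_mul, Finset.Nat.sum_antidiagonal_eq_sum_range_succ_mk, Lam_symm]
  unfold Lam
  refine Finset.sum_congr rfl fun k hk => ?_
  have hk' : k ≤ n := by simpa [Nat.lt_succ_iff] using hk
  have h2 : n - (n - k) = k := by omega
  simp only [coeff_X_add_C_pow, h2, Nat.choose_symm hk']
  ring

theorem Lam_eq_K (n : ℕ) (a z : R) :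
    Lam n a (a + z) = ∑ k ∈ range (n + 1),
      ((n.choose k : ℕ) : R) * (((n + k).choose k : ℕ) : R) * a ^ k * z ^ (n - k) := by
  rw [Lam_eq_coeff]
  have h : (X + C (a + z) : R[X]) = (X + C a) + C z := by rw [C_add]; ring
  rw [h, add_pow (X + C a) (C z), Finset.mul_sum, finsetSum_coeff]
  refine Finset.sum_congr rfl fun k hk => ?_
  have h3 : (X + C a) ^ n * ((X + C a) ^ k * C z ^ (n - k) * ((n.choose k : ℕ) : R[X]))
      = C (z ^ (n - k) * ((n.choose k : ℕ) : R)) * (X + C a) ^ (n + k) := by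
    rw [pow_add, C_mul, C_pow, map_natCast]; ring
  rw [h3, coeff_C_mul, coeff_X_add_C_pow]
  have h4 : n + k - n = k := by omega
  rw [h4, Nat.choose_symm_add]
  ring

theorem coeff_sq_pow (i : ℕ) (c : R) (l : ℕ) :
    ((X ^ 2 + C c : R[X]) ^ i).coeff l =
      if 2 ∣ l then c ^ (i - l / 2) * ((i.choose (l / 2) : ℕ) : R) else 0 := by
  have h : ((X ^ 2 + C c : R[X]) ^ i) = expand R 2 ((X + C c) ^ i) := by
    simp [map_pow]
  rw [h, coeff_expand (by norm_num), coeff_X_add_C_pow]

theorem Lam_odd (m : ℕ) (a b : R) :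
    Lam (2 * m + 1) a b = ∑ j ∈ range (m + 1),
      (((2 * m + 1).choose (2 * j) : ℕ) : R) * (((2 * j).choose j : ℕ) : R) *
        (a + b) ^ (2 * m + 1 - 2 * j) * (a * b) ^ j := by
  rw [Lam_eq_coeff, ← mul_pow]
  have h : ((X + C a) * (X + C b) : R[X]) = (X ^ 2 + C (a * b)) + C (a + b) * X := by
    rw [C_add, C_mul]; ring
  rw [h, add_pow, finsetSum_coeff]
  have key : ∀ i ∈ range (2 * m + 1 + 1),
      ((X ^ 2 + C (a * b)) ^ i * (C (a + b) * X) ^ (2 * m + 1 - i) *
        (((2 * m + 1).choose i : ℕ) : R[X])).coeff (2 * m + 1) =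
      if 2 ∣ i then (((2 * m + 1).choose i : ℕ) : R) * ((i.choose (i / 2) : ℕ) : R) *
        (a + b) ^ (2 * m + 1 - i) * (a * b) ^ (i - i / 2) else 0 := by
    intro i hi
    have hi' : i ≤ 2 * m + 1 := by simpa [Nat.lt_succ_iff] using hi
    have h3 : ((X ^ 2 + C (a * b)) ^ i * (C (a + b) * X) ^ (2 * m + 1 - i) *
        (((2 * m + 1).choose i : ℕ) : R[X])) =
        C ((a + b) ^ (2 * m + 1 - i) * (((2 * m + 1).choose i : ℕ) : R)) *
          ((X ^ 2 + C (a * b)) ^ i * X ^ (2 * m + 1 - i)) := by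
      rw [C_mul (a := (a + b) ^ (2 * m + 1 - i)), C_pow, map_natCast, mul_pow]; ring
    rw [h3, coeff_C_mul, coeff_mul_X_pow', if_pos (by omega), coeff_sq_pow]
    have h4 : 2 * m + 1 - (2 * m + 1 - i) = i := by omega
    rw [h4]
    split_ifs
    · ring
    · simp
  rw [Finset.sum_congr rfl key]
  have h5 : 2 * m + 1 + 1 = (m + 1) * 2 := by ring
  have h6 : ∀ (f : ℕ → R) (N : ℕ), ∑ i ∈ range (N * 2), f i =
      ∑ j ∈ range N, (f (2 * j) + f (2 * j + 1)) := by
    intro f N
    induction N with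
    | zero => simp
    | succ N ih =>
      rw [show (N + 1) * 2 = N * 2 + 1 + 1 by ring, sum_range_succ, sum_range_succ, ih,
        sum_range_succ, mul_comm N 2]
      ring
  rw [h5, h6]
  refine Finset.sum_congr rfl fun j _ => ?_
  rw [if_pos (by omega), if_neg (by omega), add_zero]
  have h7 : 2 * j / 2 = j := by omega
  have h8 : 2 * j - j = j := by omega
  rw [h7, h8]

theorem Lam_neg_odd (m : ℕ) (hm : Odd m) (a : R) : 2 * Lam m (-a) a = 0 := by
  have h1 : Lam m (-a) a = (-1) ^ m * Lam m a (-a) := by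
    rw [← Lam_smul]; congr 1 <;> ring
  rw [hm.neg_one_pow, Lam_symm m a] at h1
  linear_combination h1

theorem choose_succ_cast (n k : ℕ) :
    ((n.choose (k + 1) : ℕ) : R) * ((k : R) + 1) = ((n.choose k : ℕ) : R) * ((n : R) - k) := by
  rcases le_or_gt k n with h | h
  · have := congrArg (Nat.cast : ℕ → R) (Nat.choose_succ_right_eq n k)
    push_cast [Nat.cast_sub h] at this
    exact this
  · rw [Nat.choose_eq_zero_of_lt h, Nat.choose_eq_zero_of_lt (by omega)]; simp

theorem choose_add_succ_cast (n k : ℕ) :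
    (((n + (k + 1)).choose (k + 1) : ℕ) : R) * ((k : R) + 1) =
      (((n + k).choose k : ℕ) : R) * ((n : R) + k + 1) := by
  have := congrArg (Nat.cast : ℕ → R) (Nat.add_one_mul_choose_eq (n + k) k)
  push_cast at this
  rw [← add_assoc]
  linear_combination -this

theorem central_succ_cast (k : ℕ) :
    (((2 * (k + 1)).choose (k + 1) : ℕ) : R) * ((k : R) + 1) =
      (((2 * k).choose k : ℕ) : R) * (2 * (2 * k + 1)) := by
  have := congrArg (Nat.cast : ℕ → R) (Nat.succ_mul_centralBinom_succ k)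
  simp only [Nat.centralBinom] at this
  push_cast at this
  linear_combination this

end Pool.Agent.MP_025f5d_nt

end

-- part MP_025f5d_nt.Coef
section

set_option linter.unusedSectionVars false

namespace Pool.Agent.MP_025f5d_nt

open Finset

/-- Coefficients of the shifted Legendre polynomial. -/
def Lc (R : Type*) [CommRing R] (n k : ℕ) : R :=
  (-1) ^ k * ((n.choose k : ℕ) : R) * (((n + k).choose k : ℕ) : R)

theorem map_Lc {R S : Type*} [CommRing R] [CommRing S] (f : R →+* S) (n k : ℕ) :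
    f (Lc R n k) = Lc S n k := by
  simp [Lc]

theorem Lc_succ {R : Type*} [CommRing R] (n k : ℕ) :
    Lc R n (k + 1) * ((k : R) + 1) ^ 2 = Lc R n k * (-(((n : R) - k) * (n + k + 1))) := by
  unfold Lc
  have h1 := choose_succ_cast (R := R) n k
  have h2 := choose_add_succ_cast (R := R) n k
  calc _ = -(-1) ^ k * (((n.choose (k + 1) : ℕ) : R) * ((k : R) + 1)) *
        ((((n + (k + 1)).choose (k + 1) : ℕ) : R) * ((k : R) + 1)) := by ring
    _ = _ := by rw [h1, h2]; ring

theorem sum_Lc {R : Type*} [CommRing R] (n : ℕ) (x : R) :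
    ∑ k ∈ range (n + 1), Lc R n k * x ^ k = Lam n (-x) (1 - x) := by
  rw [show (1 - x) = -x + 1 by ring, Lam_eq_K]
  refine Finset.sum_congr rfl fun k _ => ?_
  rw [Lc, neg_pow x]; ring

theorem sum_Lc_rev {R : Type*} [CommRing R] (n : ℕ) (x : R) :
    ∑ k ∈ range (n + 1), Lc R n (n - k) * x ^ k = Lam n (-1) (x - 1) := by
  rw [show (x - 1) = -1 + x by ring, Lam_eq_K, ← Finset.sum_range_reflect]
  refine Finset.sum_congr rfl fun k hk => ?_
  have hk' : k ≤ n := by simpa [Nat.lt_succ_iff] using hk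
  have h1 : n + 1 - 1 - k = n - k := by omega
  have h2 : n - (n - k) = k := by omega
  rw [h1, h2, Lc]; ring

theorem sum_sq {R : Type*} [CommRing R] (n : ℕ) (x : R) :
    ∑ k ∈ range (n + 1), ((n.choose k : ℕ) : R) ^ 2 * x ^ k = Lam n x 1 := by
  simp [Lam]

section field
variable {F : Type*} [Field F] {p : ℕ} [Fact p.Prime] [CharP F p]

theorem cast_ne_zero_of_lt {k : ℕ} (h0 : k ≠ 0) (hk : k < p) : (k : F) ≠ 0 := by
  rw [Ne, CharP.cast_eq_zero_iff F p]
  exact Nat.not_dvd_of_pos_of_lt (Nat.pos_of_ne_zero h0) hk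

theorem succ_ne_zero_of_lt {k : ℕ} (hk : k + 1 < p) : (k : F) + 1 ≠ 0 := by
  have := cast_ne_zero_of_lt (F := F) (p := p) (k := k + 1) (by omega) hk
  simpa using this

theorem tk_mod {N : ℕ} (hp : p = N + 1) {k : ℕ} (hk : k < p) :
    (-1 : F) ^ k * ((N.choose k : ℕ) : F) = 1 := by
  have hN : (N : F) + 1 = 0 := by
    have := CharP.cast_eq_zero F p
    rw [hp] at this; simpa using this
  induction k with
  | zero => simp
  | succ k ih =>
    have h1 := choose_succ_cast (R := F) N k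
    have h2 := succ_ne_zero_of_lt (F := F) hk
    have h3 := ih (by omega)
    apply mul_right_cancel₀ h2
    linear_combination (-(-1 : F) ^ k) * h1 - ((N : F) - k) * h3 - hN

theorem choose_half_mod {n : ℕ} (hp : p = 2 * n + 1) {k : ℕ} (hk : k < p) :
    (-1 : F) ^ k * (((n + k).choose k : ℕ) : F) = ((n.choose k : ℕ) : F) := by
  have hN : 2 * (n : F) + 1 = 0 := by
    have := CharP.cast_eq_zero F p
    rw [hp] at this; simpa using this
  induction k with
  | zero => simp
  | succ k ih =>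
    have h1 := choose_succ_cast (R := F) n k
    have h1' := choose_add_succ_cast (R := F) n k
    have h2 := succ_ne_zero_of_lt (F := F) hk
    have h3 := ih (by omega)
    apply mul_right_cancel₀ h2
    linear_combination (-(-1 : F) ^ k) * h1' - h1 - ((n : F) + k + 1) * h3
      - ((n.choose k : ℕ) : F) * hN

theorem Lc_mod {n : ℕ} (hp : p = 2 * n + 1) {k : ℕ} (hk : k < p) :
    Lc F n k = ((n.choose k : ℕ) : F) ^ 2 := by
  have := choose_half_mod (F := F) hp hk
  unfold Lc
  linear_combination ((n.choose k : ℕ) : F) * this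

theorem quarter_mod {m : ℕ} (hp : p = 4 * m + 3) {j : ℕ} (hj : j ≤ m) :
    (((2 * m + 1).choose (2 * j) : ℕ) : F) * (((2 * j).choose j : ℕ) : F) =
      4 ^ j * Lc F m j := by
  have hN : 4 * (m : F) + 3 = 0 := by
    have := CharP.cast_eq_zero F p
    rw [hp] at this; simpa using this
  induction j with
  | zero => simp [Lc]
  | succ j ih =>
    have h0 := ih (by omega)
    have h1 := choose_succ_cast (R := F) (2 * m + 1) (2 * j)
    have h2 := choose_succ_cast (R := F) (2 * m + 1) (2 * j + 1)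
    have h3 := central_succ_cast (R := F) j
    have h4 := Lc_succ (R := F) m j
    have n1 : (j : F) + 1 ≠ 0 := succ_ne_zero_of_lt (p := p) (by omega)
    have n2 : 2 * (j : F) + 1 ≠ 0 := by
      have := succ_ne_zero_of_lt (F := F) (p := p) (k := 2 * j) (by omega)
      simpa using this
    push_cast at h1 h2
    rw [show 2 * (j + 1) = 2 * j + 1 + 1 by ring] at h3 ⊢
    apply mul_right_cancel₀ (pow_ne_zero 2 n1)
    set a0 : F := (((2 * m + 1).choose (2 * j) : ℕ) : F)
    set a1 : F := (((2 * m + 1).choose (2 * j + 1) : ℕ) : F)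
    set a2 : F := (((2 * m + 1).choose (2 * j + 1 + 1) : ℕ) : F)
    set c0 : F := (((2 * j).choose j : ℕ) : F)
    set c1 : F := (((2 * j + 1 + 1).choose (j + 1) : ℕ) : F)
    have e1 : a2 * c1 * ((j : F) + 1) ^ 2 =
        a0 * c0 * ((2 * (m : F) + 1 - 2 * j) * (2 * m - 2 * j)) := by
      linear_combination a2 * ((j : F) + 1) * h3 + c0 * (2 * (j : F) + 1) * h2
        + c0 * (2 * (m : F) - 2 * j) * h1
    rw [e1, h0, pow_succ, mul_assoc (4 ^ j * 4), h4]
    linear_combination 4 ^ j * Lc F m j * (2 * ((m : F) - j)) * hN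

/-- Supersingularity for the curve with complex multiplication by the square root of -2. -/
theorem Lam_supersing {m : ℕ} (hp : p = 4 * m + 3) (hm : Odd m) (a b : F)
    (hab : a * b = 1) (hs : (a + b) ^ 2 = 8) : Lam (2 * m + 1) a b = 0 := by
  have h2 : (2 : F) ≠ 0 := by
    have := cast_ne_zero_of_lt (F := F) (p := p) (k := 2) (by omega) (by omega)
    simpa using this
  rw [Lam_odd, hab]
  have key : ∀ j ∈ range (m + 1),
      (((2 * m + 1).choose (2 * j) : ℕ) : F) * (((2 * j).choose j : ℕ) : F) *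
        (a + b) ^ (2 * m + 1 - 2 * j) * 1 ^ j =
      (a + b) * 8 ^ m * (Lc F m j * (2⁻¹) ^ j) := by
    intro j hj
    have hj' : j ≤ m := by simpa [Nat.lt_succ_iff] using hj
    obtain ⟨d, rfl⟩ := Nat.exists_eq_add_of_le hj'
    rw [quarter_mod hp hj', show 2 * (j + d) + 1 - 2 * j = 2 * d + 1 by omega, pow_succ, pow_mul,
      hs, pow_add]
    have : (8 : F) ^ j * 2⁻¹ ^ j = 4 ^ j := by
      rw [← mul_pow]; congr 1; field_simp; norm_num
    linear_combination (-(Lc F (j + d) j * 8 ^ d * (a + b))) * this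
  rw [Finset.sum_congr rfl key, ← Finset.mul_sum, sum_Lc]
  have h3 : (1 - 2⁻¹ : F) = 2⁻¹ := by field_simp; norm_num
  have h4 := Lam_neg_odd m hm (2⁻¹ : F)
  rw [h3, (mul_eq_zero.mp h4).resolve_left h2, mul_zero]

end field

section lift
variable {R F : Type*} [CommRing R] [Field F] {p : ℕ} [Fact p.Prime] [CharP F p]
  (φ : R →+* F) (hker : ∀ a b : R, φ a = 0 → φ b = 0 → a * b = 0)
  (hunit : ∀ a : R, φ a ≠ 0 → IsUnit a)

include hker hunit in
theorem central_sq {n : ℕ} (hp : p = 2 * n + 1) {k : ℕ} (hk : k < p) :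
    (((2 * k).choose k : ℕ) : R) ^ 2 = 16 ^ k * Lc R n k := by
  have hN : (2 * (n : R) + 1) * (2 * (n : R) + 1) = 0 := by
    have := CharP.cast_eq_zero F p
    rw [hp] at this
    apply hker <;> simpa [map_ofNat] using this
  induction k with
  | zero => simp [Lc]
  | succ k ih =>
    have h0 := ih (by omega)
    have h3 := central_succ_cast (R := R) k
    have h4 := Lc_succ (R := R) n k
    have u : IsUnit ((k : R) + 1) := hunit _ (by simpa using succ_ne_zero_of_lt (F := F) hk)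
    apply (u.pow 2).mul_right_cancel
    rw [← mul_pow, h3, mul_pow, h0, mul_assoc (16 ^ (k + 1)), h4]
    linear_combination 4 * 16 ^ k * Lc R n k * hN

include hker in
theorem tk_Lc {n : ℕ} (hp : p = 2 * n + 1) {k : ℕ} (hk : k ≤ n) :
    (-1) ^ k * (((2 * n).choose k : ℕ) : R) * Lc R n k =
      (-1) ^ n * (((2 * n).choose n : ℕ) : R) * Lc R n k + ((n.choose k : ℕ) : R) ^ 2
        - Lc R n (n - k) := by
  have exact1 : (-1) ^ k * (((2 * n).choose k : ℕ) : R) * Lc R n (n - k) =
      (-1) ^ n * (((2 * n).choose n : ℕ) : R) * ((n.choose k : ℕ) : R) ^ 2 := by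
    have h := Nat.choose_mul (n := 2 * n) (k := n) (s := k) hk
    have h' := congrArg (Nat.cast : ℕ → R) h
    push_cast at h'
    unfold Lc
    rw [Nat.choose_symm hk, show n + (n - k) = 2 * n - k by omega]
    have hs : (-1 : R) ^ n = (-1) ^ k * (-1) ^ (n - k) := by rw [← pow_add]; congr 1; omega
    rw [hs]
    linear_combination (-((-1 : R) ^ k * (-1) ^ (n - k) * ((n.choose k : ℕ) : R))) * h'
  have t1 := tk_mod (F := F) (N := 2 * n) hp (k := k) (by omega)
  have t2 := tk_mod (F := F) (N := 2 * n) hp (k := n) (by omega)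
  have l1 := Lc_mod (F := F) hp (k := k) (by omega)
  have l2 := Lc_mod (F := F) hp (k := n - k) (by omega)
  rw [Nat.choose_symm hk] at l2
  have z1 := hker ((-1) ^ k * (((2 * n).choose k : ℕ) : R) - 1) (Lc R n (n - k) - Lc R n k)
    (by simp [t1]) (by simp [map_Lc, l1, l2])
  have z2 := hker ((-1) ^ n * (((2 * n).choose n : ℕ) : R) - 1)
    (((n.choose k : ℕ) : R) ^ 2 - Lc R n k) (by simp [t2]) (by simp [map_Lc, l1])
  linear_combination exact1 - z1 + z2

end lift

end Pool.Agent.MP_025f5d_nt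

end

-- part MP_025f5d_nt.Q2Proof
section

set_option linter.unusedSectionVars false

namespace Pool.Agent.MP_025f5d_nt

open Finset

theorem pell_binet {R : Type*} [CommRing R] (s : R) (hs : s ^ 2 = 2) (k : ℕ) :
    2 * s * (pell k : R) = (1 + s) ^ k - (1 - s) ^ k := by
  induction k using Nat.twoStepInduction with
  | zero => simp [pell]
  | one => simp [pell]; ring
  | more k h0 h1 =>
    rw [pell]
    push_cast
    linear_combination 2 * h1 + h0 - ((1 + s) ^ k - (1 - s) ^ k) * hs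

section lift
variable {R F : Type*} [CommRing R] [Field F] {p : ℕ} [Fact p.Prime] [CharP F p]
  (φ : R →+* F) (hker : ∀ a b : R, φ a = 0 → φ b = 0 → a * b = 0)
  (hunit : ∀ a : R, φ a ≠ 0 → IsUnit a)

/-- The twisted sum. -/
def Tw (R : Type*) [CommRing R] (n : ℕ) (x : R) : R :=
  ∑ k ∈ range (n + 1), (-1) ^ k * (((2 * n).choose k : ℕ) : R) * Lc R n k * x ^ k

include hker in
theorem Tw_eq {n : ℕ} (hp : p = 2 * n + 1) (x : R) :
    Tw R n x = (-1) ^ n * (((2 * n).choose n : ℕ) : R) * Lam n (-x) (1 - x) + Lam n x 1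
      - Lam n (-1) (x - 1) := by
  rw [← sum_Lc, ← sum_Lc_rev, ← sum_sq, Finset.mul_sum, ← Finset.sum_add_distrib,
    ← Finset.sum_sub_distrib]
  refine Finset.sum_congr rfl fun k hk => ?_
  have hk' : k ≤ n := by simpa [Nat.lt_succ_iff] using hk
  rw [tk_Lc φ hker hp hk']; ring

theorem Lam_mod_one {n : ℕ} (hp : p = 2 * n + 1) (x : F) :
    Lam n (-x) (1 - x) = Lam n x 1 := by
  rw [← sum_Lc, ← sum_sq]
  refine Finset.sum_congr rfl fun k hk => ?_
  have hk' : k ≤ n := by simpa [Nat.lt_succ_iff] using hk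
  rw [Lc_mod hp (by omega)]

theorem Lam_mod_two {n : ℕ} (hp : p = 2 * n + 1) (x : F) :
    Lam n (-1) (x - 1) = Lam n x 1 := by
  rw [← sum_Lc_rev, ← sum_sq]
  refine Finset.sum_congr rfl fun k hk => ?_
  have hk' : k ≤ n := by simpa [Nat.lt_succ_iff] using hk
  rw [Lc_mod hp (by omega), Nat.choose_symm hk']

include hker in
theorem Tw_pfaff {n : ℕ} (hp : p = 2 * n + 1) (s : R) (hs : s ^ 2 = 2) :
    ((1 - s) ^ 2) ^ n * Tw R n (-2 * (1 + s)) = Tw R n (-2 * (1 - s)) := by
  rw [Tw_eq φ hker hp, Tw_eq φ hker hp]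
  set x : R := -2 * (1 - s) with hx
  have e1 : ((1 - s) ^ 2) ^ n * Lam n (-(-2 * (1 + s))) (1 - (-2 * (1 + s))) = Lam n x 1 := by
    rw [← Lam_smul]; congr 1
    · rw [hx]; linear_combination (2 * s - 2) * hs
    · linear_combination (2 * s - 1) * hs
  have e2 : ((1 - s) ^ 2) ^ n * Lam n (-2 * (1 + s)) 1 = Lam n (-x) (1 - x) := by
    rw [← Lam_smul]; congr 1
    · rw [hx]; linear_combination (-2 * s + 2) * hs
    · rw [hx]; linear_combination hs
  have e3 : ((1 - s) ^ 2) ^ n * Lam n (-1) (-2 * (1 + s) - 1) = Lam n (-1) (x - 1) := by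
    rw [← Lam_smul, Lam_symm]; congr 1
    · linear_combination (-2 * s + 1) * hs
    · rw [hx]; linear_combination -hs
  have t2 := tk_mod (F := F) (N := 2 * n) hp (k := n) (by omega)
  have z := hker ((-1) ^ n * (((2 * n).choose n : ℕ) : R) - 1) (Lam n x 1 - Lam n (-x) (1 - x))
    (by simp [t2]) (by simp [map_Lam, Lam_mod_one hp])
  linear_combination ((-1) ^ n * (((2 * n).choose n : ℕ) : R)) * e1 + e2 - e3 + z

include hker in
theorem Tw_diff {m : ℕ} (hp : p = 4 * m + 3) (hm : Odd m) (s : R) (hs : s ^ 2 = 2)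
    (hf : φ (1 - s) ^ (p - 1) = 1) :
    Tw R (2 * m + 1) (-2 * (1 + s)) = Tw R (2 * m + 1) (-2 * (1 - s)) := by
  have hp' : p = 2 * (2 * m + 1) + 1 := by omega
  have h1 := Tw_pfaff φ hker hp' s hs
  have hs' : (φ s) ^ 2 = 2 := by rw [← map_pow, hs, map_ofNat]
  have hb : φ (((1 - s) ^ 2) ^ (2 * m + 1)) = 1 := by
    rw [← pow_mul, map_pow, ← hf]; congr 1; omega
  have h0 : φ (Tw R (2 * m + 1) (-2 * (1 - s))) = 0 := by
    have t2 := tk_mod (F := F) (N := 2 * (2 * m + 1)) hp' (k := 2 * m + 1) (by omega)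
    have w0 : Lam (2 * m + 1) (-1 : F) (φ (-2 * (1 - s)) - 1) = 0 := by
      have := Lam_supersing hp hm (1 + φ s) (-(1 - φ s)) (by linear_combination hs')
        (by linear_combination 4 * hs')
      have h := Lam_smul (2 * m + 1) (1 - φ s) (1 + φ s) (-(1 - φ s))
      rw [this, mul_zero] at h
      rw [← h]; congr 1
      · linear_combination hs'
      · simp only [map_mul, map_neg, map_sub, map_one, map_ofNat]; linear_combination hs'
    rw [Tw_eq φ hker hp']
    simp only [map_sub, map_add, map_mul (f := φ) (x := (-1) ^ (2 * m + 1) * _), map_Lam,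
      map_one, map_neg (f := φ) (a := 1), map_neg (f := φ) (a := -2 * (1 - s))]
    rw [Lam_mod_one hp', ← Lam_mod_two hp', w0]
    simp
  have h2 : φ (Tw R (2 * m + 1) (-2 * (1 + s))) = 0 := by
    have := congrArg φ h1
    rwa [map_mul, hb, one_mul, h0] at this
  have z := hker (((1 - s) ^ 2) ^ (2 * m + 1) - 1) _ (by rw [map_sub, hb]; simp) h2
  linear_combination h1 - z

end lift

/-- The integer 8^(p-1) T(p). -/
def Tint (p : ℕ) : ℤ :=
  ∑ k ∈ range p, (((p - 1).choose k : ℕ) : ℤ) * pell k * 8 ^ (p - 1 - k) *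
    (((2 * k).choose k : ℕ) : ℤ) ^ 2

theorem T_mul (p : ℕ) : T p * 8 ^ (p - 1) = (Tint p : ℚ) := by
  unfold T Tint
  push_cast
  rw [Finset.sum_mul]
  refine Finset.sum_congr rfl fun k hk => ?_
  have hk' : k < p := by simpa using hk
  have : (8 : ℚ) ^ (p - 1) = 8 ^ k * 8 ^ (p - 1 - k) := by rw [← pow_add]; congr 1; omega
  rw [this]; field_simp

section zmod
variable {p : ℕ} [hp : Fact p.Prime]

/-- Reduction from Z/p^2 to Z/p. -/
def red (p : ℕ) : ZMod (p ^ 2) →+* ZMod p := ZMod.castHom (dvd_pow_self p two_ne_zero) (ZMod p)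

theorem red_ker (a b : ZMod (p ^ 2)) (ha : red p a = 0) (hb : red p b = 0) : a * b = 0 := by
  obtain ⟨a, rfl⟩ := ZMod.intCast_surjective a
  obtain ⟨b, rfl⟩ := ZMod.intCast_surjective b
  rw [map_intCast, ZMod.intCast_zmod_eq_zero_iff_dvd] at ha hb
  rw [← Int.cast_mul, ZMod.intCast_zmod_eq_zero_iff_dvd]
  push_cast
  rw [pow_two]
  exact mul_dvd_mul ha hb

theorem red_surj : Function.Surjective (red p) := ZMod.castHom_surjective _

theorem red_unit (a : ZMod (p ^ 2)) (ha : red p a ≠ 0) : IsUnit a := by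
  obtain ⟨b, hb⟩ := red_surj (red p a)⁻¹
  have h : red p (a * b - 1) = 0 := by rw [map_sub, map_mul, hb, mul_inv_cancel₀ ha]; simp
  have := red_ker _ _ h h
  exact IsUnit.of_mul_eq_one (b * (2 - a * b)) (by linear_combination -this)

theorem exists_sqrt_two (h2 : p ≠ 2) (h : p % 8 = 1 ∨ p % 8 = 7) :
    ∃ s : ZMod (p ^ 2), s ^ 2 = 2 := by
  obtain ⟨t0, ht0⟩ := (ZMod.exists_sq_eq_two_iff h2).mpr h
  obtain ⟨t, rfl⟩ := red_surj t0
  have two : (2 : ZMod p) ≠ 0 := by
    have := cast_ne_zero_of_lt (F := ZMod p) (p := p) (k := 2) (by omega)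
      (by have := hp.out.two_le; omega)
    simpa using this
  have ht : red p (2 * t) ≠ 0 := by
    rw [map_mul, map_ofNat]
    refine mul_ne_zero two fun h0 => two ?_
    rw [ht0, h0, mul_zero]
  obtain ⟨i, hi⟩ := (red_unit _ ht).exists_right_inv
  have hd : red p (t ^ 2 - 2) = 0 := by
    rw [map_sub, map_pow, map_ofNat]; linear_combination -ht0
  have z := red_ker _ _ hd hd
  exact ⟨t - (t ^ 2 - 2) * i, by linear_combination i ^ 2 * z - (t ^ 2 - 2) * hi⟩

theorem Tint_dvd (h7 : p % 8 = 7) : (p : ℤ) ^ 2 ∣ Tint p := by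
  obtain ⟨s, hs⟩ := exists_sqrt_two (p := p) (by omega) (Or.inr h7)
  obtain ⟨m, hm, hmo⟩ : ∃ m, p = 4 * m + 3 ∧ Odd m := ⟨2 * (p / 8) + 1, by omega, by simp⟩
  have hp' : p = 2 * (2 * m + 1) + 1 := by omega
  have hs' : (red p s) ^ 2 = 2 := by rw [← map_pow, hs, map_ofNat]
  have two : (2 : ZMod p) ≠ 0 := by
    have := cast_ne_zero_of_lt (F := ZMod p) (p := p) (k := 2) (by omega) (by omega)
    simpa using this
  have hf : red p (1 - s) ^ (p - 1) = 1 := by
    apply ZMod.pow_card_sub_one_eq_one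
    intro h0
    rw [map_sub, map_one] at h0
    have : (1 : ZMod p) = 0 := by linear_combination -hs' - (1 + red p s) * h0
    exact one_ne_zero this
  have hd := Tw_diff (red p) red_ker hm hmo s hs hf
  have hu : IsUnit (2 * s) := by
    apply red_unit
    rw [map_mul, map_ofNat]
    refine mul_ne_zero two fun h0 => two ?_
    rw [← hs', h0]; simp
  have key : 2 * s * (Tint p : ZMod (p ^ 2)) = 8 ^ (p - 1) *
      (Tw _ (2 * m + 1) (-2 * (1 + s)) - Tw _ (2 * m + 1) (-2 * (1 - s))) := by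
    have hsub : range (2 * m + 1 + 1) ⊆ range p := Finset.range_subset_range.mpr (by omega)
    have ext : ∀ x : ZMod (p ^ 2), Tw _ (2 * m + 1) x = ∑ k ∈ range p,
        (-1) ^ k * (((2 * (2 * m + 1)).choose k : ℕ) : ZMod (p ^ 2)) * Lc _ (2 * m + 1) k * x ^ k := by
      intro x
      unfold Tw
      refine Finset.sum_subset hsub fun k _ hk => ?_
      have : 2 * m + 1 < k := by simpa using hk
      simp [Lc, Nat.choose_eq_zero_of_lt this]
    rw [ext, ext, ← Finset.sum_sub_distrib, Finset.mul_sum]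
    unfold Tint
    push_cast
    rw [Finset.mul_sum]
    refine Finset.sum_congr rfl fun k hk => ?_
    have hk' : k < p := by simpa using hk
    have h8 : (8 : ZMod (p ^ 2)) ^ (p - 1) = 8 ^ k * 8 ^ (p - 1 - k) := by
      rw [← pow_add]; congr 1; omega
    have hc := central_sq (red p) red_ker red_unit hp' hk'
    have hb := pell_binet s hs k
    have hpp : p - 1 = 2 * (2 * m + 1) := by omega
    have h16 : (16 : ZMod (p ^ 2)) ^ k = 8 ^ k * ((-1) ^ k * (-2) ^ k) := by
      rw [← mul_pow, ← mul_pow]; norm_num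
    rw [h8, hc, h16, mul_pow, mul_pow, ← hpp]
    linear_combination (((p - 1).choose k : ℕ) : ZMod (p ^ 2)) * 8 ^ (p - 1 - k) *
      (8 ^ k * ((-1) ^ k * (-2) ^ k) * Lc _ (2 * m + 1) k) * hb
  rw [hd, sub_self, mul_zero, hu.mul_right_eq_zero, ZMod.intCast_zmod_eq_zero_iff_dvd] at key
  exact_mod_cast key

end zmod

theorem dvd_num_of_mul {p : ℕ} {q : ℚ} {d N : ℤ} (hd : IsCoprime ((p : ℤ) ^ 2) d)
    (h : q * d = N) (hN : (p : ℤ) ^ 2 ∣ N) : (p : ℤ) ^ 2 ∣ q.num := by
  have h1 : q.num * d = N * q.den := by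
    have : (q.num : ℚ) * d = N * q.den := by
      rw [← h, ← Rat.mul_den_eq_num q]; ring
    exact_mod_cast this
  exact hd.dvd_of_dvd_mul_right (h1 ▸ hN.mul_right _)

theorem q2_main (p : ℕ) (hp : p.Prime) (h7 : p % 8 = 7) : CongSq p (T p) 0 := by
  have := Fact.mk hp
  unfold CongSq
  rw [sub_zero]
  refine dvd_num_of_mul (d := 8 ^ (p - 1)) ?_ (by push_cast; exact T_mul p) (Tint_dvd h7)
  apply IsCoprime.pow
  have : Nat.Coprime p (2 ^ 3) :=
    Nat.Coprime.pow_right 3 ((Nat.coprime_primes hp Nat.prime_two).mpr (by omega))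
  exact_mod_cast Nat.isCoprime_iff_coprime.mpr this

end Pool.Agent.MP_025f5d_nt

end
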