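import Pool.Agent.MP_025f5d_nt.Mg.Q2Proof
import Mathlib

attribute [-instance] instCharZeroOfIsSemireal SemilinearMapClass.distribMulActionSemiHomClass
  MonTypeEquivalenceMon.monMonoid Fintype.decidableForallFintype littleWedderburn
  FloorSemiring.instCharZero RCLike.charZero_rclike NormedField.toField IdemSemiring.toSemiring
  RKHS.instFunLike ContinuousSemilinearMapClass.toSemilinearMapClass Polynomial.charZero
  BialgEquivClass.toBialgHomClass instNonUnitalAlgHomClassOfNonUnitalAlgEquivClass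
  SemilatticeInf.toPartialOrder NormedDivisionRing.toDivisionRing
  CommMonTypeEquivalenceCommMon.commMonCommMonoid Finset.decidableDforallFinset
  CoalgHomClass.toSemilinearMapClass CompletePartialOrder.toPartialOrder BooleanRing.toRing
  NormMulClass.toNoZeroDivisors Multiset.decidableDforallMultiset
  Vector.instDecidableForallForallMemOfDecidablePred Int.decidableLTLE
  NonUnitalAlgHomClass.toNonUnitalRingHomClass IdemCommSemiring.toCommSemiring
  Array.instDecidableForallForallMemOfDecidablePred Group.IsPerfect.subsingleton_of_isMulCommutative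
  Option.decidableForallMem IsFormallyReal.instIsReduced BialgHomClass.toAlgHomClass
  DivisionRing.toDivisionSemiring instCoeTOfCoeDep NeZero.of_gt'
  MulSemiringActionSemiHomClass.toDistribMulActionSemiHomClass TestFunctionClass.toDFunLike
  Int.decidableLTLT Int.decidableLELE BialgHomClass.toMonoidHomClass invertibleTwo
  SemilinearIsometryClass.toSemilinearMapClass IsStrictOrderedRing.noZeroDivisors
  IsStrictOrderedRing.toCharZero MulCharClass.toMonoidHomClass Int.decidableLELT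
  ContDiffMapSupportedInClass.toDFunLike Invertible.toNeZero LieRing.toAddCommGroup
  AlgEquivClass.toAlgHomClass RingHomClass.toLinearMapClassNNRat
  MulDistribMulActionSemiHomClass.toMonoidHomClass ValuationClass.toMonoidWithZeroHomClass
  AlgHomClass.linearMapClass Unique.instSubsingleton RingHomClass.toLinearMapClassRat
  CentroidHomClass.toAddMonoidHomClass forall_prop_decidable EquivLike.toFunLike
  LieAdmissibleRing.toNonUnitalNonAssocRing
  NonUnitalAlgHomClass.instSemilinearMapClassOfNonUnitalAlgSemiHomClassToMonoidHomRingHom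
  QuadraticAlgebra.instCharZero OmegaCompletePartialOrder.toPartialOrder
  SemilatticeSup.toPartialOrder

-- part MP_025f5d_nt.Q44.W
section

set_option linter.unusedSectionVars false

namespace Pool.Agent.MP_025f5d_nt.Q44

open Finset Polynomial

section basic
variable (R : Type*) [CommRing R]

/-- The shifted Legendre polynomial. -/
noncomputable def LL (n : ℕ) : R[X] := ∑ k ∈ range (n + 1), monomial k (Lc R n k)

/-- The polynomial with squared binomial coefficients. -/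
noncomputable def NN (n : ℕ) : R[X] := ∑ k ∈ range (n + 1), monomial k (((n.choose k : ℕ) : R) ^ 2)

variable {R}

theorem coeff_LL (n k : ℕ) : (LL R n).coeff k = Lc R n k := by
  simp only [LL, finsetSum_coeff, coeff_monomial, Finset.sum_ite_eq', mem_range]
  split_ifs with h
  · rfl
  · simp only [Lc, Nat.choose_eq_zero_of_lt (show n < k by omega), Nat.cast_zero, mul_zero, zero_mul]

theorem coeff_NN (n k : ℕ) : (NN R n).coeff k = ((n.choose k : ℕ) : R) ^ 2 := by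
  simp only [NN, finsetSum_coeff, coeff_monomial, Finset.sum_ite_eq', mem_range]
  split_ifs with h
  · rfl
  · simp only [Nat.choose_eq_zero_of_lt (show n < k by omega), Nat.cast_zero, ne_eq, OfNat.ofNat_ne_zero, not_false_eq_true, zero_pow]

theorem deg_LL (n : ℕ) : (LL R n).natDegree ≤ n := by
  rw [natDegree_le_iff_coeff_eq_zero]
  intro k hk
  simp only [coeff_LL, Lc, Nat.choose_eq_zero_of_lt hk, Nat.cast_zero, mul_zero, zero_mul]

theorem deg_NN (n : ℕ) : (NN R n).natDegree ≤ n := by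
  rw [natDegree_le_iff_coeff_eq_zero]
  intro k hk
  simp only [coeff_NN, Nat.choose_eq_zero_of_lt hk, Nat.cast_zero, ne_eq, OfNat.ofNat_ne_zero, not_false_eq_true, zero_pow]

theorem coeff_th (f : R[X]) (k : ℕ) : (X * derivative f).coeff k = k * f.coeff k := by
  cases k with
  | zero => simp only [mul_coeff_zero, coeff_X_zero, zero_mul, Nat.cast_zero]
  | succ k => rw [coeff_X_mul, coeff_derivative]; push_cast; ring

theorem ode_L (n : ℕ) : derivative (X * derivative (LL R n)) =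
    X * derivative (X * derivative (LL R n)) + X * derivative (LL R n)
      - C ((n : R) * (n + 1)) * LL R n := by
  ext k
  simp only [coeff_sub, coeff_add, coeff_th, coeff_C_mul, coeff_LL]
  rw [coeff_derivative, coeff_th, coeff_LL]
  have := Lc_succ (R := R) n k
  push_cast
  linear_combination this

theorem ode_N (n : ℕ) : derivative (X * derivative (NN R n)) =
    X * derivative (X * derivative (NN R n)) - C (2 * (n : R)) * (X * derivative (NN R n))
      + C ((n : R) ^ 2) * NN R n := by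
  ext k
  simp only [coeff_sub, coeff_add, coeff_th, coeff_C_mul, coeff_NN]
  rw [coeff_derivative, coeff_th, coeff_NN]
  have := choose_succ_cast (R := R) n k
  push_cast
  linear_combination (((n.choose (k + 1) : ℕ) : R) * ((k : R) + 1) +
    ((n.choose k : ℕ) : R) * ((n : R) - k)) * this

theorem LL_eq (n : ℕ) : LL R n = Lam n (-X) (1 - X) := by
  rw [← sum_Lc, LL]
  refine Finset.sum_congr rfl fun k _ => ?_
  rw [← C_mul_X_pow_eq_monomial, map_Lc]

theorem NN_eq (n : ℕ) : NN R n = Lam n X 1 := by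
  rw [← sum_sq, NN]
  refine Finset.sum_congr rfl fun k _ => ?_
  rw [← C_mul_X_pow_eq_monomial]; simp only [map_pow, map_natCast]

theorem aeval_LL {S : Type*} [CommRing S] [Algebra R S] (n : ℕ) (x : S) :
    aeval x (LL R n) = Lam n (-x) (1 - x) := by
  rw [LL_eq]
  have := map_Lam (aeval (R := R) x).toRingHom n (-X) (1 - X)
  simpa only [AlgHom.toRingHom_eq_coe, RingHom.coe_coe, aeval_neg, aeval_X, aeval_sub, map_one] using this

theorem aeval_NN {S : Type*} [CommRing S] [Algebra R S] (n : ℕ) (x : S) :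
    aeval x (NN R n) = Lam n x 1 := by
  rw [NN_eq]
  have := map_Lam (aeval (R := R) x).toRingHom n X 1
  simpa using this

theorem LL_comp (n : ℕ) : (LL R n).comp (1 - X) = (-1) ^ n * LL R n := by
  rw [comp_eq_aeval, aeval_LL, LL_eq, ← Lam_smul, Lam_symm]
  congr 1 <;> ring

theorem LL_one (n : ℕ) : (LL R n).eval 1 = (-1) ^ n := by
  have := congrArg (eval 0) (LL_comp (R := R) n)
  simpa only [eval_comp, eval_sub, eval_one, eval_X, sub_zero, eval_mul, eval_pow, eval_neg, ← coeff_zero_eq_eval_zero, coeff_LL, Lc, pow_zero, Nat.choose_zero_right, Nat.cast_one, mul_one, add_zero] using this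

theorem dvd_of_wr {p : ℕ} (hu : ∀ k, 0 < k → k < p → IsUnit (k : R)) (L D : R[X])
    (h0 : L.coeff 0 = 1) (h : L * derivative D = derivative L * D) (hD : D.coeff 0 = 0) :
    X ^ p ∣ D := by
  have key : ∀ k, k < p → X ^ (k + 1) ∣ D := by
    intro k
    induction k with
    | zero => intro _; simpa only [zero_add, pow_one, X_dvd_iff] using hD
    | succ k ih =>
      intro hk
      obtain ⟨E, rfl⟩ := ih (by omega)
      have h1 : (X : R[X]) ^ k * (L * (C ((k : R) + 1) * E + X * derivative E)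
          - X * (derivative L * E)) = 0 := by
        rw [derivative_mul, derivative_X_pow_succ] at h
        linear_combination h
      have h2 := (monic_X_pow (R := R) k).mul_right_eq_zero_iff.mp h1
      have h3 := congrArg (fun q => q.coeff 0) h2
      simp only [coeff_sub, mul_coeff_zero, coeff_add, coeff_X_zero, zero_mul, h0, one_mul,
        add_zero, sub_zero, coeff_C_zero, coeff_zero] at h3
      have h4 := hu (k + 1) (by omega) hk
      push_cast at h4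
      rw [pow_succ]
      exact mul_dvd_mul_left _ (X_dvd_iff.mpr (h4.mul_right_eq_zero.mp h3))
  cases p with
  | zero => simp
  | succ p => exact key p (by omega)

theorem quot_deg {p d : ℕ} (E : R[X]) (h : (X ^ p * E).natDegree ≤ p + d) : E.natDegree ≤ d := by
  rw [natDegree_le_iff_coeff_eq_zero] at h ⊢
  intro k hk
  rw [← coeff_X_pow_mul E p k]
  exact h _ (by omega)

end basic

section lift
variable {R F : Type*} [CommRing R] [Field F] {p : ℕ} [Fact p.Prime] [CharP F p]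
  (φ : R →+* F) (hker : ∀ a b : R, φ a = 0 → φ b = 0 → a * b = 0)
  (hunit : ∀ a : R, φ a ≠ 0 → IsUnit a)

include hunit in
theorem unit_lt (k : ℕ) (h0 : 0 < k) (hk : k < p) : IsUnit (k : R) :=
  hunit _ (by rw [map_natCast]; exact cast_ne_zero_of_lt (p := p) (by omega) hk)

theorem phi_p : φ (p : R) = 0 := by rw [map_natCast]; exact CharP.cast_eq_zero F p

include hker in
theorem p_LN {n : ℕ} (hp : p = 2 * n + 1) : (p : R[X]) * LL R n = p * NN R n := by
  ext k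
  rw [← C_eq_natCast, coeff_C_mul, coeff_C_mul, coeff_LL, coeff_NN]
  rcases lt_or_ge k p with hk | hk
  · have := hker p (Lc R n k - ((n.choose k : ℕ) : R) ^ 2) (phi_p φ)
      (by simp [map_Lc, Lc_mod hp hk])
    linear_combination this
  · simp only [Lc, Nat.choose_eq_zero_of_lt (show n < k by omega), Nat.cast_zero, mul_zero, zero_mul, ne_eq, OfNat.ofNat_ne_zero, not_false_eq_true, zero_pow]

include hker in
theorem p_p : (p : R[X]) * p = 0 := by
  rw [← C_eq_natCast, ← C_mul, hker _ _ (phi_p φ) (phi_p φ), C_0]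

include hker hunit in
/-- The Wronskian relation. -/
theorem wr_LN {n : ℕ} (hp : p = 2 * n + 1) :
    2 * X * (1 - X) * (LL R n * derivative (NN R n) - derivative (LL R n) * NN R n)
      + (p : R[X]) * X * LL R n ^ 2 = (p : R[X]) * X ^ p := by
  set Y : R[X] := 2 * X * (1 - X) * (LL R n * derivative (NN R n) - derivative (LL R n) * NN R n)
      + (p : R[X]) * X * LL R n ^ 2 with hY
  have h1 := p_LN φ hker hp
  have h2 := congrArg derivative h1
  simp only [derivative_mul, derivative_natCast, zero_mul, zero_add] at h2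
  have h3 := p_p (p := p) φ hker
  have hP : (p : R[X]) = 2 * n + 1 := by rw [hp]; push_cast; ring
  have oL := ode_L (R := R) n
  have oN := ode_N (R := R) n
  simp only [derivative_mul, derivative_X, one_mul, C_mul, C_add, C_pow, map_natCast, C_1,
    map_ofNat] at oL oN
  have hd : derivative Y = 0 := by
    simp only [hY, derivative_add, derivative_mul, derivative_sub, derivative_X, derivative_one,
      derivative_natCast, derivative_ofNat, derivative_pow, map_ofNat, Nat.cast_ofNat,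
      Nat.add_one_sub_one, pow_one]
    rw [hP] at h1 h2 h3 ⊢
    linear_combination 2 * LL R n * oN - 2 * NN R n * oL + 2 * X * LL R n * h2
      - 2 * n * LL R n * h1 + LL R n ^ 2 * h3
  have hdv : X ^ p ∣ Y := dvd_of_wr (unit_lt φ hunit) 1 Y (by simp) (by simp [hd]) (by simp only [hY, coeff_add, mul_coeff_zero, coeff_ofNat_mul, coeff_X_zero, mul_zero, coeff_sub, coeff_one_zero, sub_zero, mul_one, zero_mul, coeff_natCast_ite, ↓ reduceIte, add_zero])
  obtain ⟨E, hE⟩ := hdv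
  have hdeg : Y.natDegree ≤ p + 0 := by
    have a1 := deg_LL (R := R) n
    have a2 := deg_NN (R := R) n
    have a3 := natDegree_derivative_le (LL R n)
    have a4 := natDegree_derivative_le (NN R n)
    rcases Nat.eq_zero_or_pos n with rfl | hn
    · exact absurd (Fact.out : p.Prime) (by rw [hp]; norm_num)
    have b1 : (LL R n * derivative (NN R n)).natDegree ≤ 2 * n - 1 :=
      natDegree_mul_le.trans (by omega)
    have b2 : (derivative (LL R n) * NN R n).natDegree ≤ 2 * n - 1 :=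
      natDegree_mul_le.trans (by omega)
    have b3 := (natDegree_sub_le _ _).trans (max_le b1 b2)
    have b4 : (2 * X * (1 - X) : R[X]).natDegree ≤ 2 := by compute_degree
    have b5 : ((p : R[X]) * X).natDegree ≤ 1 := by compute_degree
    have b6 : (LL R n ^ 2).natDegree ≤ 2 * n := natDegree_pow_le.trans (by omega)
    exact (natDegree_add_le _ _).trans (max_le (natDegree_mul_le.trans (by omega))
      (natDegree_mul_le.trans (by omega)))
  rw [hE] at hdeg
  have hc := eq_C_of_natDegree_le_zero (quot_deg E hdeg)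
  have h1 := congrArg (eval 1) hE
  rw [hc] at h1
  simp only [hY, eval_add, eval_mul, eval_sub, eval_X, eval_one, sub_self, mul_zero, zero_mul,
    eval_pow, LL_one, eval_natCast, eval_C, one_pow] at h1
  have hσ : ((-1 : R) ^ n) ^ 2 = 1 := by rw [← pow_mul, mul_comm, pow_mul]; simp only [even_two, Even.neg_pow, one_pow]
  have h5 : E.coeff 0 = p := by linear_combination -h1 + p * hσ
  rw [hE, hc, h5]
  simp only [map_natCast, mul_comm]

include hker hunit in
/-- The Euler type relation between the three Legendre forms. -/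
theorem euler {n : ℕ} (hp : p = 2 * n + 1) :
    X ^ p * (3 * LL R n - 2 * ((-1) ^ n * (NN R n).comp (1 - X)))
      + (1 - X) ^ p * (3 * LL R n - 2 * NN R n) = LL R n := by
  set M : R[X] := (-1) ^ n * (NN R n).comp (1 - X) with hM
  set L := LL R n with hL
  set N := NN R n with hN
  have hσ : ((-1 : R[X]) ^ n) ^ 2 = 1 := by rw [← pow_mul, mul_comm, pow_mul]; simp only [even_two, Even.neg_pow, one_pow]
  have w1 := wr_LN φ hker hunit hp
  have c1 := LL_comp (R := R) n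
  have c2 := congrArg derivative c1
  have hdσ : derivative ((-1 : R[X]) ^ n) = 0 := by simp only [derivative_pow, map_natCast, derivative_neg, derivative_one, neg_zero, mul_zero]
  simp only [derivative_comp, derivative_sub, derivative_one, derivative_X, derivative_mul, hdσ,
    zero_mul, zero_add, zero_sub] at c2
  have hM' : derivative M = -((-1) ^ n * (derivative N).comp (1 - X)) := by
    simp only [hM, derivative_mul, hdσ, zero_mul, derivative_comp, derivative_sub, derivative_one, derivative_X, zero_sub, neg_mul, one_mul, mul_neg, zero_add]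
  have w2 := congrArg (fun q : R[X] => q.comp (1 - X)) w1
  simp only [add_comp, mul_comp, sub_comp, pow_comp, X_comp, one_comp, natCast_comp,
    ofNat_comp, c1] at w2
  have w3 : 2 * X * (1 - X) * (L * derivative M - derivative L * M)
      + (p : R[X]) * (1 - X) ^ p = (p : R[X]) * (1 - X) * L ^ 2 := by
    rw [hM', hM]
    rw [← hL, ← hN] at w2
    rw [← hL] at c2
    push_cast at w2
    linear_combination -w2 + 2 * X * (1 - X) * N.comp (1 - X) * c2
      + p * (1 - X) * L ^ 2 * hσ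
  have p1 := p_LN φ hker hp
  rw [← hL, ← hN] at p1 w1
  have p2 : (p : R[X]) * M = p * L := by
    have := congrArg (fun q : R[X] => q.comp (1 - X)) p1
    simp only [mul_comp, natCast_comp, hL, c1] at this
    rw [hM, hL]
    linear_combination -(-1) ^ n * this + p * LL R n * hσ
  have pp := p_p (p := p) φ hker
  obtain ⟨q, hq⟩ : ∃ q, p = q + 1 := ⟨2 * n, hp⟩
  have hfr : (p : R[X]) * (X ^ p + (1 - X) ^ p - 1) = 0 := by
    have hodd : Odd p := ⟨n, hp⟩
    obtain ⟨c, hc⟩ := exists_add_pow_prime_eq (Fact.out : p.Prime) (X : R[X]) (1 - X)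
    have : (X + (1 - X) : R[X]) = 1 := by ring
    rw [this, one_pow] at hc
    linear_combination -p * hc - X * (1 - X) * c * pp
  set Eu := X ^ p * (3 * L - 2 * M) + (1 - X) ^ p * (3 * L - 2 * N) - L with hEu
  have pE : (p : R[X]) * Eu = 0 := by
    rw [hEu]
    linear_combination L * hfr - 2 * X ^ p * p2 + 2 * (1 - X) ^ p * p1
  have hw : L * derivative Eu = derivative L * Eu := by
    have hreg : ∀ T : R[X], X * (1 - X) * T = 0 → T = 0 := by
      intro T hT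
      have h1 : X * ((X - C 1) * T) = 0 := by rw [C_1]; linear_combination -hT
      exact (monic_X_sub_C (1 : R)).mul_right_eq_zero_iff.mp
        (monic_X.mul_right_eq_zero_iff.mp h1)
    rw [← sub_eq_zero]
    apply hreg
    have e1 : (X : R[X]) * derivative (X ^ p) = (p : R[X]) * X ^ p := by
      rw [hq, derivative_X_pow_succ]; simp only [map_add, map_natCast, map_one, Nat.cast_add, Nat.cast_one]; ring
    have e2 : (1 - X : R[X]) * derivative ((1 - X) ^ p) = -((p : R[X]) * (1 - X) ^ p) := by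
      rw [hq, derivative_pow_succ]; simp only [map_add, map_natCast, map_one, derivative_sub, derivative_one, derivative_X, zero_sub, mul_neg, mul_one, Nat.cast_add, Nat.cast_one, neg_inj]; ring
    simp only [hEu, derivative_add, derivative_sub, derivative_mul, derivative_ofNat]
    linear_combination (1 - X) * L * (3 * L - 2 * M) * e1 + X * L * (3 * L - 2 * N) * e2
      - X ^ p * w3 - (1 - X) ^ p * w1 - 2 * (1 - X) * L * X ^ p * p2
      - 2 * X * L * (1 - X) ^ p * p1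
  have L0 : L.coeff 0 = 1 := by simp only [hL, coeff_LL, Lc, pow_zero, Nat.choose_zero_right, Nat.cast_one, mul_one, add_zero]
  have hp0 : p ≠ 0 := by omega
  have E0 : Eu.coeff 0 = 0 := by
    have a1 : L.eval 0 = 1 := by rw [← coeff_zero_eq_eval_zero, L0]
    have a2 : N.eval 0 = 1 := by rw [← coeff_zero_eq_eval_zero, hN, coeff_NN]; simp only [Nat.choose_zero_right, Nat.cast_one, one_pow]
    rw [coeff_zero_eq_eval_zero]
    simp only [hEu, eval_sub, eval_add, eval_mul, eval_pow, eval_X, ne_eq, hp0, not_false_eq_true, zero_pow, eval_ofNat, a1, mul_one, zero_mul, eval_one, sub_zero, one_pow, a2, one_mul, zero_add]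
    norm_num
  obtain ⟨E, hE⟩ := dvd_of_wr (unit_lt φ hunit) L Eu L0 hw E0
  have hmon := monic_X_pow (R := R) p
  have pE1 : (p : R[X]) * E = 0 := by
    apply hmon.mul_right_eq_zero_iff.mp
    rw [hE] at pE; linear_combination pE
  have hw1 : L * derivative E = derivative L * E := by
    rw [← sub_eq_zero]
    apply hmon.mul_right_eq_zero_iff.mp
    rw [hE, derivative_mul, derivative_X_pow, map_natCast] at hw
    linear_combination hw - L * X ^ (p - 1) * pE1
  have dE : E.natDegree ≤ n := by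
    apply quot_deg (p := p)
    rw [← hE, hEu]
    have a1 : L.natDegree ≤ n := deg_LL n
    have a2 : N.natDegree ≤ n := deg_NN n
    have a0 : (1 - X : R[X]).natDegree ≤ 1 := by compute_degree
    have a3 : M.natDegree ≤ n := by
      refine natDegree_mul_le.trans ?_
      have : ((-1 : R[X]) ^ n).natDegree ≤ 0 := natDegree_pow_le.trans (by simp)
      have : ((NN R n).comp (1 - X)).natDegree ≤ n :=
        natDegree_comp_le.trans (by nlinarith only [a2, a0])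
      omega
    have a4 : ∀ T : R[X], T.natDegree ≤ n → (3 * L - 2 * T).natDegree ≤ n := fun T hT =>
      (natDegree_sub_le _ _).trans (max_le (natDegree_mul_le.trans (by simpa using a1))
        (natDegree_mul_le.trans (by simpa using hT)))
    have a5 : ((1 - X : R[X]) ^ p).natDegree ≤ p := natDegree_pow_le.trans (by nlinarith only [a0])
    have a6 : ((X : R[X]) ^ p).natDegree ≤ p := natDegree_X_pow_le p
    have := a4 M a3
    have := a4 N a2
    exact (natDegree_sub_le _ _).trans (max_le ((natDegree_add_le _ _).trans (max_le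
      (natDegree_mul_le.trans (by omega)) (natDegree_mul_le.trans (by omega)))) (by omega))
  have hD : X ^ p ∣ E - C (E.coeff 0) * L := by
    refine dvd_of_wr (unit_lt φ hunit) L _ L0 ?_ (by simp [L0])
    simp only [derivative_sub, derivative_mul, derivative_C]
    linear_combination hw1
  have hD0 : E - C (E.coeff 0) * L = 0 := by
    obtain ⟨G, hG⟩ := hD
    have dG : (E - C (E.coeff 0) * L).natDegree ≤ n :=
      (natDegree_sub_le _ _).trans (max_le dE ((natDegree_C_mul_le _ _).trans (deg_LL n)))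
    have : G = 0 := by
      ext k
      rw [← coeff_X_pow_mul G p k, ← hG]
      exact natDegree_le_iff_coeff_eq_zero.mp dG _ (by omega)
    rw [hG, this, mul_zero]
  have E1 : Eu.eval 1 = 0 := by
    simp only [hEu, hL, hM, hN, eval_sub, eval_add, eval_mul, eval_pow, eval_X, one_pow, eval_ofNat, LL_one, eval_neg, eval_one, eval_comp, sub_self, ← coeff_zero_eq_eval_zero (NN R n), coeff_NN, Nat.choose_zero_right, Nat.cast_one, mul_one, one_mul, ne_eq, hp0, not_false_eq_true, zero_pow, zero_mul, add_zero]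
    ring
  have hc : E.coeff 0 = 0 := by
    rw [hE, sub_eq_zero.mp hD0] at E1
    simp only [eval_mul, eval_pow, eval_X, one_pow, one_mul, eval_C, hL, LL_one] at E1
    have : ((-1 : R) ^ n) ^ 2 = 1 := by rw [← pow_mul, mul_comm, pow_mul]; simp
    linear_combination (-1) ^ n * E1 - E.coeff 0 * this
  rw [hc, C_0, zero_mul, sub_zero] at hD0
  rw [hD0, mul_zero] at hE
  exact sub_eq_zero.mp hE

end lift

end Pool.Agent.MP_025f5d_nt.Q44

end

-- part MP_025f5d_nt.Q44.P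
section

set_option linter.unusedSectionVars false

namespace Pool.Agent.MP_025f5d_nt.Q44

open Finset Polynomial

section basic
variable {R : Type*} [CommRing R]

theorem Lam_gen (n : ℕ) (a b : R) :
    Lam n a b = ∑ j ∈ range (n + 1),
      ((n.choose (2 * j) : ℕ) : R) * (((2 * j).choose j : ℕ) : R) *
        (a + b) ^ (n - 2 * j) * (a * b) ^ j := by
  rw [Lam_eq_coeff, ← mul_pow]
  have h : ((X + C a) * (X + C b) : R[X]) = (X ^ 2 + C (a * b)) + C (a + b) * X := by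
    rw [C_add, C_mul]; ring
  rw [h, add_pow, finsetSum_coeff]
  have key : ∀ i ∈ range (n + 1),
      ((X ^ 2 + C (a * b)) ^ i * (C (a + b) * X) ^ (n - i) *
        ((n.choose i : ℕ) : R[X])).coeff n =
      if 2 ∣ i then ((n.choose i : ℕ) : R) * ((i.choose (i / 2) : ℕ) : R) *
        (a + b) ^ (n - i) * (a * b) ^ (i - i / 2) else 0 := by
    intro i hi
    have hi' : i ≤ n := by simpa [Nat.lt_succ_iff] using hi
    have h3 : ((X ^ 2 + C (a * b)) ^ i * (C (a + b) * X) ^ (n - i) *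
        ((n.choose i : ℕ) : R[X])) =
        C ((a + b) ^ (n - i) * ((n.choose i : ℕ) : R)) *
          ((X ^ 2 + C (a * b)) ^ i * X ^ (n - i)) := by
      rw [C_mul (a := (a + b) ^ (n - i)), C_pow, map_natCast, mul_pow]; ring
    rw [h3, coeff_C_mul, coeff_mul_X_pow', if_pos (by omega), coeff_sq_pow]
    have h4 : n - (n - i) = i := by omega
    rw [h4]
    split_ifs
    · ring
    · simp only [mul_zero]
  rw [Finset.sum_congr rfl key]
  have h6 : ∀ (f : ℕ → R) (N : ℕ), ∑ i ∈ range (N * 2), f i =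
      ∑ j ∈ range N, (f (2 * j) + f (2 * j + 1)) := by
    intro f N
    induction N with
    | zero => simp
    | succ N ih =>
      rw [show (N + 1) * 2 = N * 2 + 1 + 1 by ring, sum_range_succ, sum_range_succ, ih,
        sum_range_succ, mul_comm N 2]
      ring
  rw [Finset.sum_subset (show range (n + 1) ⊆ range ((n + 1) * 2) from
    Finset.range_subset_range.mpr (by omega)) (fun i _ hi => by
      have : n < i := by simpa using hi
      simp only [Nat.choose_eq_zero_of_lt this, Nat.cast_zero, zero_mul, ite_self]), h6]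
  refine Finset.sum_congr rfl fun j _ => ?_
  rw [if_pos (by omega), if_neg (by omega), add_zero]
  have h7 : 2 * j / 2 = j := by omega
  have h8 : 2 * j - j = j := by omega
  rw [h7, h8]

theorem Lam_landen (n : ℕ) (a b : R) :
    Lam n (a ^ 2) (b ^ 2) = ∑ k ∈ range (n + 1),
      ((n.choose k : ℕ) : R) * (((2 * k).choose k : ℕ) : R) * (-(a * b)) ^ k *
        (a + b) ^ (2 * (n - k)) := by
  rw [Lam_eq_coeff, ← mul_pow]
  have h : ((X + C (a ^ 2)) * (X + C (b ^ 2)) : R[X]) =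
      (X + C (-(a * b))) ^ 2 + C ((a + b) ^ 2) * X := by
    simp only [C_add, C_mul, C_pow, C_neg]; ring
  rw [h, add_pow, finsetSum_coeff]
  refine Finset.sum_congr rfl fun i hi => ?_
  have hi' : i ≤ n := by simpa [Nat.lt_succ_iff] using hi
  have h3 : (((X + C (-(a * b))) ^ 2) ^ i * (C ((a + b) ^ 2) * X) ^ (n - i) *
        ((n.choose i : ℕ) : R[X])) =
        C ((a + b) ^ (2 * (n - i)) * ((n.choose i : ℕ) : R)) *
          ((X + C (-(a * b))) ^ (2 * i) * X ^ (n - i)) := by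
    rw [C_mul (a := (a + b) ^ (2 * (n - i))), map_natCast, mul_pow, ← C_pow, ← pow_mul,
      ← pow_mul]; ring
  rw [h3, coeff_C_mul, coeff_mul_X_pow', if_pos (by omega), coeff_X_add_C_pow,
    show n - (n - i) = i by omega, show 2 * i - i = i by omega]
  ring

theorem mul_der_pow (u : R[X]) (k : ℕ) :
    u * derivative (u ^ k) = (k : R[X]) * u ^ k * derivative u := by
  cases k with
  | zero => simp only [pow_zero, derivative_one, mul_zero, Nat.cast_zero, mul_one, zero_mul]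
  | succ k => rw [derivative_pow_succ]; simp only [map_add, map_natCast, map_one, Nat.cast_add, Nat.cast_one]; ring

theorem eval_LL (n : ℕ) (x : R) :
    (LL R n).eval x = ∑ k ∈ range (n + 1), Lc R n k * x ^ k := by
  simp [LL, eval_finsetSum]

theorem eval_NN (n : ℕ) (x : R) :
    (NN R n).eval x = ∑ k ∈ range (n + 1), ((n.choose k : ℕ) : R) ^ 2 * x ^ k := by
  simp only [NN, eval_finsetSum, eval_monomial]

theorem th_monomial (k : ℕ) (c x : R) :
    x * (derivative (monomial k c)).eval x = k * c * x ^ k := by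
  cases k with
  | zero => simp only [monomial_zero_left, derivative_C, eval_zero, mul_zero, Nat.cast_zero, zero_mul, pow_zero, mul_one]
  | succ k => simp only [derivative_monomial_succ, eval_monomial, Nat.cast_add, Nat.cast_one]; ring

theorem eval_LL' (n : ℕ) (x : R) :
    x * (derivative (LL R n)).eval x = ∑ k ∈ range (n + 1), k * Lc R n k * x ^ k := by
  simp only [LL, derivative_sum, eval_finsetSum, Finset.mul_sum, th_monomial]

theorem eval_NN' (n : ℕ) (x : R) :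
    x * (derivative (NN R n)).eval x =
      ∑ k ∈ range (n + 1), k * ((n.choose k : ℕ) : R) ^ 2 * x ^ k := by
  simp only [NN, derivative_sum, eval_finsetSum, Finset.mul_sum, th_monomial]

theorem pfaff0 (n : ℕ) (x y : R) (h : (1 - x) * (1 - y) = 1) :
    (1 - y) ^ n * (LL R n).eval x = (NN R n).eval y := by
  rw [← coe_aeval_eq_eval, ← coe_aeval_eq_eval, aeval_LL, aeval_NN, ← Lam_smul]
  congr 1
  · linear_combination h
  · linear_combination h

theorem pfaff1 (n : ℕ) (x y : R) (h : (1 - x) * (1 - y) = 1) :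
    (1 - y) ^ n * (x * (derivative (LL R n)).eval x) =
      y * ((1 - y) * (derivative (NN R n)).eval y + n * (NN R n).eval y) := by
  have h1 : (X * (1 - X) : R[X]) * derivative (LL R n) = ∑ k ∈ range (n + 1),
      ((n.choose k : ℕ) : R[X]) ^ 2 * (-X) ^ k * (1 - X) ^ (n - k) * ((k : R[X]) - (n : R[X]) * X) := by
    rw [LL_eq, Lam, derivative_sum, Finset.mul_sum]
    refine Finset.sum_congr rfl fun k hk => ?_
    have hk' : k ≤ n := by simpa [Nat.lt_succ_iff] using hk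
    have a1 := mul_der_pow (-X : R[X]) k
    have a2 := mul_der_pow (1 - X : R[X]) (n - k)
    have a3 : derivative (((n.choose k : ℕ) : R[X]) ^ 2) = 0 := by simp only [derivative_pow, Nat.cast_ofNat, Nat.add_one_sub_one, pow_one, derivative_natCast, mul_zero]
    rw [Nat.cast_sub hk'] at a2
    simp only [derivative_mul, a3, derivative_neg, derivative_sub, derivative_X,
      derivative_one] at a1 a2 ⊢
    linear_combination -((n.choose k : ℕ) : R[X]) ^ 2 * (1 - X) * (1 - X) ^ (n - k) * a1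
      + ((n.choose k : ℕ) : R[X]) ^ 2 * X * (-X) ^ k * a2
  have h2 := congrArg (eval x) h1
  simp only [eval_mul, eval_sub, eval_X, eval_one, eval_finsetSum, eval_pow, eval_natCast,
    eval_neg] at h2
  have h3 : (1 - y) ^ n * (x * (1 - x) * (derivative (LL R n)).eval x) =
      y * (derivative (NN R n)).eval y - n * x * (NN R n).eval y := by
    rw [h2, eval_NN', eval_NN, Finset.mul_sum, Finset.mul_sum, ← Finset.sum_sub_distrib]
    refine Finset.sum_congr rfl fun k hk => ?_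
    have hk' : k ≤ n := by simpa [Nat.lt_succ_iff] using hk
    have e1 : (1 - y) ^ n = (1 - y) ^ k * (1 - y) ^ (n - k) := by rw [← pow_add]; congr 1; omega
    have e2 : (1 - y) ^ k * (-x) ^ k = y ^ k := by rw [← mul_pow]; congr 1; linear_combination h
    have e3 : (1 - y) ^ (n - k) * (1 - x) ^ (n - k) = 1 := by
      rw [← mul_pow, mul_comm, h, one_pow]
    rw [e1]
    linear_combination ((n.choose k : ℕ) : R) ^ 2 * (k - n * x) * ((1 - y) ^ (n - k) *
      (1 - x) ^ (n - k)) * e2 + ((n.choose k : ℕ) : R) ^ 2 * (k - n * x) * y ^ k * e3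
  linear_combination (1 - y) * h3 - ((1 - y) ^ n * (x * (derivative (LL R n)).eval x)
    - n * (NN R n).eval y) * h

end basic

section lift
variable {R F : Type*} [CommRing R] [Field F] {p : ℕ} [Fact p.Prime] [CharP F p]
  (φ : R →+* F) (hker : ∀ a b : R, φ a = 0 → φ b = 0 → a * b = 0)
  (hunit : ∀ a : R, φ a ≠ 0 → IsUnit a)

theorem central_mod {n : ℕ} (hp : p = 2 * n + 1) {k : ℕ} (hk : k < p) :
    (((2 * k).choose k : ℕ) : F) = (-4) ^ k * ((n.choose k : ℕ) : F) := by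
  have hN : 2 * (n : F) + 1 = 0 := by
    have := CharP.cast_eq_zero F p
    rw [hp] at this; simpa only [Nat.cast_add, Nat.cast_mul, Nat.cast_ofNat, Nat.cast_one] using this
  induction k with
  | zero => simp
  | succ k ih =>
    have h1 := choose_succ_cast (R := F) n k
    have h1' := central_succ_cast (R := F) k
    have h2 := succ_ne_zero_of_lt (F := F) hk
    have h3 := ih (by omega)
    apply mul_right_cancel₀ h2
    linear_combination h1' - (-4) ^ (k + 1) * h1 + (2 * (2 * k + 1)) * h3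
      + 2 * (-4) ^ k * ((n.choose k : ℕ) : F) * hN

theorem choose_ne {n k : ℕ} (hn : n < p) (hk : k ≤ n) : ((n.choose k : ℕ) : F) ≠ 0 := by
  induction k with
  | zero => simp
  | succ k ih =>
    intro h
    have h1 := choose_succ_cast (R := F) n k
    rw [h, zero_mul, ← Nat.cast_sub (by omega)] at h1
    exact mul_ne_zero (ih (by omega)) (cast_ne_zero_of_lt (p := p) (by omega) (by omega)) h1.symm

include hker hunit in
theorem landen_coef {n : ℕ} (hp : p = 2 * n + 1) {k : ℕ} (hk : k ≤ n) :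
    2 * (((n.choose k : ℕ) : R) * (((2 * k).choose k : ℕ) : R) * (-1) ^ k) =
      4 ^ k * (Lc R n k + ((n.choose k : ℕ) : R) ^ 2) := by
  have h1 := central_sq φ hker hunit hp (k := k) (by omega)
  have m1 := central_mod (F := F) hp (k := k) (by omega)
  have m2 := choose_half_mod (F := F) hp (k := k) (by omega)
  have two : (2 : F) ≠ 0 := by
    have := cast_ne_zero_of_lt (F := F) (p := p) (k := 2) (by omega)
      (by have := (Fact.out : p.Prime).two_le; omega)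
    simpa only [ne_eq, Nat.cast_ofNat] using this
  set a : R := ((n.choose k : ℕ) : R)
  set b : R := (-1) ^ k * (((n + k).choose k : ℕ) : R) with hb
  set c : R := (((2 * k).choose k : ℕ) : R)
  have hL : Lc R n k = a * b := by rw [Lc, hb]; ring
  have z := hker ((-4) ^ k * a - c) ((-4) ^ k * b - c) (by simp only [a, c, map_sub, map_mul, map_pow, map_neg, map_ofNat, map_natCast, m1, sub_self])
    (by simp only [hb, c, map_sub, map_mul, map_pow, map_neg, map_ofNat, map_one, map_natCast, m2, m1, sub_self])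
  have hu : IsUnit c := hunit _ (by
    simp only [c, map_natCast, m1]
    refine mul_ne_zero (pow_ne_zero _ ?_) (choose_ne (p := p) (by omega) hk)
    rw [show (-4 : F) = -(2 * 2) by norm_num]
    exact neg_ne_zero.mpr (mul_ne_zero two two))
  have e16 : (16 : R) ^ k = (-4) ^ k * (-4) ^ k := by rw [← mul_pow]; norm_num
  have e4 : (4 : R) ^ k = (-1) ^ k * (-4) ^ k := by rw [← mul_pow]; norm_num
  have h2 : c * (2 * c - (-4) ^ k * (a + b)) = 0 := by
    rw [hL, e16] at h1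
    linear_combination z + h1
  have h3 := hu.mul_right_eq_zero.mp h2
  rw [hL, e4]
  linear_combination (-1) ^ k * a * h3

include hker hunit in
theorem landen {n : ℕ} (hp : p = 2 * n + 1) (s : R) (hs : s ^ 2 = 2) :
    2 * (NN R n).eval ((s - 1) ^ 2) =
      2 ^ n * ((LL R n).eval (2 * (s - 1)) + (NN R n).eval (2 * (s - 1))) ∧
    4 * (s - 1) ^ 2 * s * (derivative (NN R n)).eval ((s - 1) ^ 2) =
      2 ^ n * ((2 - s) * (2 * (s - 1)) * ((derivative (LL R n)).eval (2 * (s - 1)) +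
        (derivative (NN R n)).eval (2 * (s - 1))) +
        2 * n * (s - 1) * ((LL R n).eval (2 * (s - 1)) + (NN R n).eval (2 * (s - 1)))) := by
  have h0 : 2 * (NN R n).comp (X ^ 2) = ∑ k ∈ range (n + 1),
      C (Lc R n k + ((n.choose k : ℕ) : R) ^ 2) * ((4 * X) ^ k * (X + 1) ^ (2 * (n - k))) := by
    have := Lam_landen n (X : R[X]) 1
    rw [one_pow] at this
    rw [comp_eq_aeval, aeval_NN, this, Finset.mul_sum]
    refine Finset.sum_congr rfl fun k hk => ?_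
    have hk' : k ≤ n := by simpa [Nat.lt_succ_iff] using hk
    have := congrArg C (landen_coef φ hker hunit hp hk')
    simp only [C_mul, C_pow, map_natCast, map_ofNat, C_neg, C_1] at this
    rw [mul_one, neg_pow (X : R[X]), mul_pow]
    linear_combination X ^ k * (X + 1) ^ (2 * (n - k)) * this
  have ev : ∀ k ∈ range (n + 1), (4 * (s - 1)) ^ k * (s - 1 + 1) ^ (2 * (n - k)) =
      2 ^ n * (2 * (s - 1)) ^ k := by
    intro k hk
    have hk' : k ≤ n := by simpa [Nat.lt_succ_iff] using hk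
    have e1 : (2 : R) ^ n = 2 ^ k * 2 ^ (n - k) := by rw [← pow_add]; congr 1; omega
    rw [sub_add_cancel, pow_mul, hs, e1, show 4 * (s - 1) = 2 * (2 * (s - 1)) by ring, mul_pow]
    ring
  constructor
  · have h1 := congrArg (eval (s - 1)) h0
    simp only [eval_mul, eval_comp, eval_pow, eval_X, eval_ofNat, eval_finsetSum, eval_C, eval_add,
      eval_one] at h1
    rw [h1, eval_LL, eval_NN, ← Finset.sum_add_distrib, Finset.mul_sum]
    refine Finset.sum_congr rfl fun k hk => ?_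
    rw [ev k hk]; ring
  · have h1 : X * (X + 1) * derivative (2 * (NN R n).comp (X ^ 2)) = ∑ k ∈ range (n + 1),
        C (Lc R n k + ((n.choose k : ℕ) : R) ^ 2) * ((4 * X) ^ k * (X + 1) ^ (2 * (n - k))) *
          ((k : R[X]) * (X + 1) + 2 * ((n : R[X]) - (k : R[X])) * X) := by
      rw [h0, derivative_sum, Finset.mul_sum]
      refine Finset.sum_congr rfl fun k hk => ?_
      have hk' : k ≤ n := by simpa [Nat.lt_succ_iff] using hk
      have a1 := mul_der_pow (X : R[X]) k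
      have a2 := mul_der_pow (X + 1 : R[X]) (2 * (n - k))
      have a3 : derivative ((4 : R[X]) ^ k) = 0 := by simp only [derivative_pow, map_natCast, derivative_ofNat, mul_zero]
      rw [Nat.cast_mul, Nat.cast_sub hk'] at a2
      simp only [mul_pow, derivative_mul, a3, derivative_add, derivative_X, derivative_C,
        derivative_one, Nat.cast_ofNat] at a1 a2 ⊢
      linear_combination C (Lc R n k + ((n.choose k : ℕ) : R) ^ 2) * 4 ^ k * (X + 1) *
        (X + 1) ^ (2 * (n - k)) * a1 +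
        C (Lc R n k + ((n.choose k : ℕ) : R) ^ 2) * 4 ^ k * X * X ^ k * a2
    have h2 := congrArg (eval (s - 1)) h1
    simp only [derivative_mul, derivative_comp, derivative_ofNat, derivative_X_sq, eval_mul,
      eval_comp, eval_pow, eval_X, eval_ofNat, eval_finsetSum, eval_C, eval_add, eval_one,
      eval_sub, eval_natCast, eval_zero] at h2
    have h3 : ∑ k ∈ range (n + 1), (Lc R n k + ((n.choose k : ℕ) : R) ^ 2) *
        ((4 * (s - 1)) ^ k * (s - 1 + 1) ^ (2 * (n - k))) *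
          (k * (s - 1 + 1) + 2 * (n - k) * (s - 1)) =
        2 ^ n * ((2 - s) * (2 * (s - 1) * (derivative (LL R n)).eval (2 * (s - 1)) +
        2 * (s - 1) * (derivative (NN R n)).eval (2 * (s - 1))) +
        2 * n * (s - 1) * ((LL R n).eval (2 * (s - 1)) + (NN R n).eval (2 * (s - 1)))) := by
      rw [eval_LL', eval_NN', eval_LL, eval_NN, ← Finset.sum_add_distrib,
        ← Finset.sum_add_distrib, Finset.mul_sum, Finset.mul_sum, ← Finset.sum_add_distrib,
        Finset.mul_sum]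
      refine Finset.sum_congr rfl fun k hk => ?_
      rw [ev k hk]; ring
    linear_combination h2 + h3

end lift

end Pool.Agent.MP_025f5d_nt.Q44

end

-- part MP_025f5d_nt.Q44.G
section

set_option linter.unusedSectionVars false

namespace Pool.Agent.MP_025f5d_nt.Q44

open Finset Polynomial

section basic
variable {R : Type*} [CommRing R]

theorem coeff_lin (a : R) (N k : ℕ) :
    ((1 + C a * X : R[X]) ^ N).coeff k = (N.choose k : ℕ) * a ^ k := by
  have : ((1 + C a * X : R[X]) ^ N) = ((1 + X) ^ N).comp (C a * X) := by simp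
  rw [this, comp_C_mul_X_coeff, coeff_one_add_X_pow]

/-- The coefficient of X^m in (1-X)^V (1+X)^U. -/
noncomputable def KK (R : Type*) [CommRing R] (m U V : ℕ) : R :=
  ((1 + C (-1) * X : R[X]) ^ V * (1 + X) ^ U).coeff m

theorem KK_eq (m U V W : ℕ) (hU : m ≤ U) (hW : W + m = U + V) : KK R m U V =
    ∑ i ∈ range (m + 1), ((U.choose (m - i) : ℕ) : R) * ((W + i).choose i : ℕ) * (-1) ^ i *
      2 ^ (m - i) := by
  have h : (1 + X : R[X]) = C 2 * X + (1 + C (-1) * X) := by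
    simp only [C_neg, C_1, map_ofNat]; ring
  unfold KK
  rw [h, add_pow (C 2 * X), Finset.mul_sum, finsetSum_coeff]
  have key : ∀ j ∈ range (U + 1), ((1 + C (-1) * X : R[X]) ^ V * ((C 2 * X) ^ j *
      (1 + C (-1) * X) ^ (U - j) * ((U.choose j : ℕ) : R[X]))).coeff m =
      if j ≤ m then ((U.choose j : ℕ) : R) * ((V + (U - j)).choose (m - j) : ℕ) * (-1) ^ (m - j) *
        2 ^ j else 0 := by
    intro j _
    have : ((1 + C (-1) * X : R[X]) ^ V * ((C 2 * X) ^ j *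
      (1 + C (-1) * X) ^ (U - j) * ((U.choose j : ℕ) : R[X]))) =
        C (((U.choose j : ℕ) : R) * 2 ^ j) * ((1 + C (-1) * X) ^ (V + (U - j)) * X ^ j) := by
      rw [C_mul, C_pow, map_natCast, mul_pow, pow_add]; ring
    rw [this, coeff_C_mul, coeff_mul_X_pow', coeff_lin]
    split_ifs
    · ring
    · simp
  rw [Finset.sum_congr rfl key, ← Finset.sum_subset (show range (m + 1) ⊆ range (U + 1) from
    Finset.range_subset_range.mpr (by omega)) (fun i _ hi => by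
      rw [if_neg (by simpa using hi)]), ← Finset.sum_range_reflect]
  refine Finset.sum_congr rfl fun i hi => ?_
  have hi' : i ≤ m := by simpa [Nat.lt_succ_iff] using hi
  rw [if_pos (by omega), show m + 1 - 1 - i = m - i by omega, show m - (m - i) = i by omega,
    show V + (U - (m - i)) = W + i by omega]

theorem KK_symm (r U V : ℕ) : KK R (2 * r) U V = KK R (2 * r) V U := by
  unfold KK
  have : ((1 + C (-1) * X : R[X]) ^ V * (1 + X) ^ U) =
      ((1 + C (-1) * X : R[X]) ^ U * (1 + X) ^ V).comp (C (-1) * X) := by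
    simp only [map_neg, map_one, neg_mul, one_mul, mul_comm, mul_comp, pow_comp, add_comp, one_comp, X_comp, neg_comp, neg_neg]
  rw [this, comp_C_mul_X_coeff, pow_mul]; simp only [map_neg, map_one, neg_mul, one_mul, even_two, Even.neg_pow, one_pow, mul_one]

theorem KK_diag (r U : ℕ) : KK R (2 * r) U U = (U.choose r : ℕ) * (-1) ^ r := by
  unfold KK
  have : ((1 + C (-1) * X : R[X]) ^ U * (1 + X) ^ U) = expand R 2 ((1 + C (-1) * X) ^ U) := by
    rw [← mul_pow]; simp only [map_pow, map_add, map_one, map_mul, expand_X, C_neg, C_1, map_neg]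
    congr 1; ring
  rw [this, mul_comm 2 r, coeff_expand_mul (by norm_num), coeff_lin]

/-- Harmonic numbers. -/
noncomputable def hs (R : Type*) [CommRing R] (k : ℕ) : R :=
  ∑ i ∈ range k, Ring.inverse ((i : R) + 1)

theorem hs_succ (k : ℕ) : hs R (k + 1) = hs R k + Ring.inverse ((k : R) + 1) :=
  Finset.sum_range_succ _ _

/-- The hypergeometric sum at one half. -/
def GG (n : ℕ) (i8 : R) : R :=
  ∑ j ∈ range (n + 1), ((n.choose (2 * j) : ℕ) : R) * (((2 * j).choose j : ℕ) : R) * i8 ^ j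

theorem NN_GG (n : ℕ) (s i8 : R) (hs : s ^ 2 = 2) (h8 : 8 * i8 = 1) :
    (NN R n).eval ((s - 1) ^ 2) = (2 * (s * (s - 1))) ^ n * GG n i8 := by
  rw [← coe_aeval_eq_eval, aeval_NN]
  have h1 : Lam n ((s - 1) ^ 2) 1 = (s - 1) ^ n * Lam n (s - 1) (s + 1) := by
    rw [← Lam_smul]; congr 1
    · ring
    · linear_combination -hs
  rw [h1, Lam_gen, GG, Finset.mul_sum, Finset.mul_sum]
  refine Finset.sum_congr rfl fun j _ => ?_
  rcases le_or_gt (2 * j) n with hj | hj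
  · obtain ⟨d, rfl⟩ := Nat.exists_eq_add_of_le hj
    have e1 : (s - 1) * (s + 1) = 1 := by linear_combination hs
    have e2 : (2 * s) ^ (2 * j) * i8 ^ j = 1 := by
      rw [pow_mul, ← mul_pow, show (2 * s) ^ 2 * i8 = 1 by linear_combination 4 * i8 * hs + h8,
        one_pow]
    rw [e1, one_pow, Nat.add_sub_cancel_left, show s - 1 + (s + 1) = 2 * s by ring,
      show 2 * (s * (s - 1)) = (s - 1) * (2 * s) by ring, mul_pow (s - 1), pow_add (2 * s)]
    linear_combination -((s - 1) ^ (2 * j + d) * (((2 * j + d).choose (2 * j) : ℕ) : R) *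
      (((2 * j).choose j : ℕ) : R) * (2 * s) ^ d) * e2
  · simp only [Nat.choose_eq_zero_of_lt hj, Nat.cast_zero, zero_mul, sub_add_add_cancel, mul_zero]

end basic

section lift
variable {R F : Type*} [CommRing R] [Field F] {p : ℕ} [Fact p.Prime] [CharP F p]
  (φ : R →+* F) (hker : ∀ a b : R, φ a = 0 → φ b = 0 → a * b = 0)
  (hunit : ∀ a : R, φ a ≠ 0 → IsUnit a)

include hunit in
theorem unit_succ {k : ℕ} (hk : k + 1 < p) : IsUnit ((k : R) + 1) := by
  simpa only [Nat.cast_add, Nat.cast_one] using unit_lt φ hunit (k + 1) (by omega) hk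

include hunit in
theorem phi_inv {k : ℕ} (hk : k + 1 < p) :
    φ (Ring.inverse ((k : R) + 1)) = ((k : F) + 1)⁻¹ := by
  have := congrArg φ (Ring.mul_inverse_cancel _ (unit_succ φ hunit hk))
  simp only [map_mul, map_add, map_natCast, map_one] at this
  exact eq_inv_of_mul_eq_one_right this

include hker hunit in
theorem choose_shift {a N : ℕ} {δ : R} (ha : a < p) (hδ : φ δ = 0) (hN : (N : R) = a + δ) :
    ∀ j d, a = j + d → ((N.choose j : ℕ) : R) = (a.choose j : ℕ) * (1 + δ * (hs R a - hs R d)) := by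
  intro j
  induction j with
  | zero => intro d hd; simp only [Nat.choose_zero_right, Nat.cast_one, show d = a by omega, sub_self, mul_zero, add_zero, mul_one]
  | succ j ih =>
    intro d hd
    have h0 := ih (d + 1) (by omega)
    have h1 := choose_succ_cast (R := R) N j
    have h2 := choose_succ_cast (R := R) a j
    have h3 := Ring.mul_inverse_cancel _ (unit_succ φ hunit (k := d) (by omega))
    have h4 : (a : R) = j + 1 + d := by rw [hd]; push_cast; ring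
    have z := hker δ δ hδ hδ
    apply (unit_succ φ hunit (k := j) (by omega)).mul_right_cancel
    rw [hs_succ] at h0
    rw [h1, h0, mul_right_comm ((a.choose (j + 1) : ℕ) : R), h2, hN, h4]
    linear_combination ((a.choose j : ℕ) : R) * (hs R a - hs R d - Ring.inverse ((d : R) + 1)) * z
      - ((a.choose j : ℕ) : R) * δ * h3

include hker hunit in
theorem central_h {n : ℕ} (hp : p = 2 * n + 1) :
    ∀ k d, n = k + d → 2 * (((2 * k).choose k : ℕ) : R) =
      (-4) ^ k * (n.choose k : ℕ) * (2 - p * (hs R n - hs R d)) := by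
  intro k
  induction k with
  | zero => intro d hd; simp only [mul_zero, Nat.choose_self, Nat.cast_one, mul_one, pow_zero, Nat.choose_zero_right, show d = n by omega, sub_self, sub_zero, one_mul]
  | succ k ih =>
    intro d hd
    have h0 := ih (d + 1) (by omega)
    have h1 := central_succ_cast (R := R) k
    have h2 := choose_succ_cast (R := R) n k
    have h3 := Ring.mul_inverse_cancel _ (unit_succ φ hunit (k := d) (by omega))
    have h4 : (n : R) = k + 1 + d := by rw [hd]; push_cast; ring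
    have h5 : (p : R) = 2 * (k + 1 + d) + 1 := by rw [hp, hd]; push_cast; ring
    have z := hker _ _ (phi_p (p := p) φ) (phi_p (p := p) φ)
    apply (unit_succ φ hunit (k := k) (by omega)).mul_right_cancel
    rw [hs_succ] at h0
    rw [h4] at h2
    linear_combination 2 * h1 + 2 * (2 * (k : R) + 1) * h0
      - (-4) ^ (k + 1) * (2 - p * (hs R n - hs R d)) * h2
      - (-4) ^ k * ((n.choose k : ℕ) : R) * (2 * (hs R n - hs R d - Ring.inverse ((d : R) + 1)) * z
        + 4 * p * h3 + 2 * (2 - p * (hs R n - hs R d - Ring.inverse ((d : R) + 1))) * h5)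

include hker hunit in
theorem harm_dup {n : ℕ} (hp : p = 2 * n + 1) :
    ∀ k d, n = k + d → (p : R) * (2 * hs R (2 * k)) = p * (hs R k - hs R n + hs R d) := by
  intro k
  induction k with
  | zero => intro d hd; simp only [hs, mul_zero, range_zero, sum_empty, zero_sub, show d = n by omega, neg_add_cancel]
  | succ k ih =>
    intro d hd
    have h0 := ih (d + 1) (by omega)
    rw [show 2 * (k + 1) = 2 * k + 1 + 1 by ring, hs_succ, hs_succ, hs_succ]
    rw [hs_succ] at h0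
    have h5 : 2 * ((k : F) + 1 + d) + 1 = 0 := by
      have := CharP.cast_eq_zero F p
      rw [hp, hd] at this; push_cast at this; exact this
    have z := hker p (2 * Ring.inverse (((2 * k : ℕ) : R) + 1) +
      2 * Ring.inverse (((2 * k + 1 : ℕ) : R) + 1) - Ring.inverse ((k : R) + 1)
        + Ring.inverse ((d : R) + 1)) (phi_p φ) (by
      rw [map_add, map_sub, map_add, map_mul, map_mul, phi_inv φ hunit (by omega),
        phi_inv φ hunit (by omega), phi_inv φ hunit (by omega), phi_inv φ hunit (by omega),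
        map_ofNat]
      have n1 := succ_ne_zero_of_lt (F := F) (p := p) (k := 2 * k) (by omega)
      have n2 := succ_ne_zero_of_lt (F := F) (p := p) (k := 2 * k + 1) (by omega)
      have n3 := succ_ne_zero_of_lt (F := F) (p := p) (k := k) (by omega)
      have n4 := succ_ne_zero_of_lt (F := F) (p := p) (k := d) (by omega)
      push_cast at n1 n2 ⊢
      field_simp
      linear_combination (2 * (k : F) + 1 + 1) * ((k : F) + 1) * h5)
    linear_combination h0 + z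

include hker hunit in
theorem four_pow {n : ℕ} (hp : p = 2 * n + 1) : 2 * (4 : R) ^ n = 2 - p * hs R n := by
  have h1 := central_sq φ hker hunit hp (k := n) (by omega)
  have h2 := central_h φ hker hunit hp n 0 rfl
  have hu : IsUnit (((2 * n).choose n : ℕ) : R) :=
    hunit _ (by rw [map_natCast]; exact choose_ne (p := p) (by omega) (by omega))
  have h3 : (((2 * n).choose n : ℕ) : R) = (-4) ^ n * 4 ^ n := by
    apply hu.mul_left_cancel
    rw [Lc, Nat.choose_self, ← two_mul] at h1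
    rw [← mul_pow, show (-4 * 4 : R) = 16 * -1 by norm_num, mul_pow]
    linear_combination h1
  have two : (2 : F) ≠ 0 := by
    have := cast_ne_zero_of_lt (F := F) (p := p) (k := 2) (by omega)
      (by have := (Fact.out : p.Prime).two_le; omega)
    simpa only [ne_eq, Nat.cast_ofNat] using this
  have hu4 : IsUnit ((-4 : R) ^ n) := hunit _ (by
    rw [map_pow, map_neg, map_ofNat, show (-4 : F) = -(2 * 2) by norm_num]
    exact pow_ne_zero _ (neg_ne_zero.mpr (mul_ne_zero two two)))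
  apply hu4.mul_left_cancel
  rw [h3, Nat.choose_self] at h2
  simp only [hs, range_zero, sum_empty] at h2 ⊢
  linear_combination h2

include hunit in
theorem term_eq {n m W : ℕ}
    (hW : ∀ i : R, ((n : R) - 2 * i) * (n - 2 * i - 1) = -4 * (m - i) * (W + i + 1)) :
    ∀ j, j < p → ((n.choose (2 * j) : ℕ) : R) * (((2 * j).choose j : ℕ) : R) =
      (-4) ^ j * (m.choose j : ℕ) * ((W + j).choose j : ℕ) := by
  intro j
  induction j with
  | zero => simp only [mul_zero, Nat.choose_zero_right, Nat.cast_one, Nat.choose_self, mul_one, pow_zero, add_zero, implies_true]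
  | succ j ih =>
    intro hj
    have h0 := ih (by omega)
    have h1 := choose_succ_cast (R := R) n (2 * j)
    have h2 := choose_succ_cast (R := R) n (2 * j + 1)
    have h3 := central_succ_cast (R := R) j
    have h4 := choose_succ_cast (R := R) m j
    have h5 := choose_add_succ_cast (R := R) W j
    push_cast at h1 h2
    rw [show 2 * (j + 1) = 2 * j + 1 + 1 by ring] at h3 ⊢
    apply ((unit_succ φ hunit hj).pow 2).mul_right_cancel
    set a0 : R := ((n.choose (2 * j) : ℕ) : R)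
    set a1 : R := ((n.choose (2 * j + 1) : ℕ) : R)
    set a2 : R := ((n.choose (2 * j + 1 + 1) : ℕ) : R)
    set c0 : R := (((2 * j).choose j : ℕ) : R)
    set c1 : R := (((2 * j + 1 + 1).choose (j + 1) : ℕ) : R)
    have e1 : a2 * c1 * ((j : R) + 1) ^ 2 = a0 * c0 * (((n : R) - 2 * j) * (n - 2 * j - 1)) := by
      linear_combination a2 * ((j : R) + 1) * h3 + c0 * (2 * (j : R) + 1) * h2
        + c0 * ((n : R) - 2 * j - 1) * h1
    rw [e1, h0, hW]
    linear_combination -(-4) ^ (j + 1) * (((W + (j + 1)).choose (j + 1) : ℕ) : R) * ((j : R) + 1) * h4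
      - (-4) ^ (j + 1) * ((m.choose j : ℕ) : R) * ((m : R) - j) * h5

include hker hunit in
/-- Closed form of the hypergeometric sum modulo the square of p. -/
theorem GG_val {n r : ℕ} (hp : p = 2 * n + 1) (hn : n = 4 * r ∨ n = 4 * r + 1) (i8 : R)
    (h8 : 8 * i8 = 1) {d : ℕ} (hd : n = r + d) (h2n : (-1 : F) ^ n * 2 ^ n = 1) :
    4 * GG n i8 * (4 + ((-1) ^ n * 2 ^ n - 1) * 2) =
      (n.choose r : ℕ) * (16 - 2 * p * (4 * hs R n - 3 * hs R d - hs R r)) := by
  obtain ⟨t, c, ht⟩ : ∃ t c : ℕ, 4 * t + 1 = c * p := by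
    rcases hn with hn | hn
    · exact ⟨2 * r, 1, by omega⟩
    · exact ⟨6 * r + 2, 3, by omega⟩
  have z := hker _ _ (phi_p (p := p) φ) (phi_p (p := p) φ)
  set δ : R := p * t with hδ
  have hδ0 : φ δ = 0 := by rw [hδ, map_mul, phi_p, zero_mul]
  have h4δ : 4 * δ = -p := by
    have := congrArg (Nat.cast : ℕ → R) ht
    push_cast at this
    rw [hδ]; linear_combination p * this + c * z
  have hP : (p : R) = 2 * n + 1 := by rw [hp]; push_cast; ring
  have hu2 : IsUnit (2 : R) := IsUnit.of_mul_eq_one (4 * i8) (by linear_combination h8)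
  have hW : ∀ i : R, ((n : R) - 2 * i) * (n - 2 * i - 1) =
      -4 * (((2 * r : ℕ) : R) - i) * (((2 * r + 2 * (p * t) : ℕ) : R) + i + 1) := by
    intro i
    push_cast
    rw [← hδ]
    rcases hn with hn | hn
    · have : (n : R) = 4 * r := by rw [hn]; push_cast; ring
      rw [this] at hP ⊢
      linear_combination 2 * (2 * r - i) * h4δ - 2 * (2 * r - i) * hP
    · have : (n : R) = 4 * r + 1 := by rw [hn]; push_cast; ring
      rw [this] at hP ⊢
      linear_combination 2 * (2 * r - i) * h4δ - 2 * (2 * r - i) * hP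
  have k0 := KK_eq (R := R) (2 * r) (2 * r) (2 * r + 2 * (p * t)) (2 * r + 2 * (p * t)) le_rfl
    (by ring)
  have k1 := KK_eq (R := R) (2 * r) (2 * r + p * t) (2 * r + p * t) (2 * r + 2 * (p * t))
    (by omega) (by ring)
  have k2 := KK_eq (R := R) (2 * r) (2 * r + 2 * (p * t)) (2 * r) (2 * r + 2 * (p * t))
    (by omega) rfl
  have e0 : 2 ^ (2 * r) * GG n i8 = KK R (2 * r) (2 * r) (2 * r + 2 * (p * t)) := by
    rw [k0, GG, Finset.sum_congr rfl fun j hj => by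
      rw [term_eq φ hunit hW j (by have := Finset.mem_range.mp hj; omega)],
      ← Finset.sum_subset (show range (2 * r + 1) ⊆ range (n + 1) from
        Finset.range_subset_range.mpr (by omega)) (fun i _ hi => by
          have : 2 * r < i := by simpa using hi
          simp only [Nat.choose_eq_zero_of_lt this, Nat.cast_zero, mul_zero, zero_mul]), Finset.mul_sum]
    refine Finset.sum_congr rfl fun i hi => ?_
    have hi' : i ≤ 2 * r := by simpa [Nat.lt_succ_iff] using hi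
    have e1 : (2 : R) ^ (2 * r) = 2 ^ i * 2 ^ (2 * r - i) := by rw [← pow_add]; congr 1; omega
    have e2 : (2 : R) ^ i * (-4) ^ i * i8 ^ i = (-1) ^ i := by
      rw [← mul_pow, ← mul_pow]; congr 1; linear_combination -h8
    rw [Nat.choose_symm hi', e1, ← e2]; ring
  have e1 : 2 * KK R (2 * r) (2 * r + p * t) (2 * r + p * t) =
      KK R (2 * r) (2 * r) (2 * r + 2 * (p * t)) + KK R (2 * r) (2 * r + 2 * (p * t)) (2 * r) := by
    rw [k0, k1, k2, Finset.mul_sum, ← Finset.sum_add_distrib]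
    refine Finset.sum_congr rfl fun i hi => ?_
    have hi' : i ≤ 2 * r := by simpa [Nat.lt_succ_iff] using hi
    rw [choose_shift φ hker hunit (a := 2 * r) (N := 2 * r + p * t) (by omega) hδ0
      (by push_cast; rfl) (2 * r - i) i (by omega),
      choose_shift φ hker hunit (a := 2 * r) (N := 2 * r + 2 * (p * t)) (δ := 2 * δ) (by omega)
      (by rw [map_mul, hδ0, mul_zero]) (by push_cast; rfl) (2 * r - i) i (by omega)]
    ring
  rw [KK_symm r (2 * r + 2 * (p * t)), ← e0, KK_diag,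
    choose_shift φ hker hunit (a := 2 * r) (N := 2 * r + p * t) (by omega) hδ0
      (by push_cast; rfl) r r (by omega)] at e1
  have c1 := central_h φ hker hunit hp r d hd
  have c2 := harm_dup φ hker hunit hp r d hd
  have c3 := four_pow φ hker hunit hp
  have e4 : (2 : R) ^ (2 * r) = (-1) ^ r * (-4) ^ r := by rw [pow_mul, ← mul_pow]; norm_num
  have e5 : 2 * GG n i8 =
      (n.choose r : ℕ) * (2 - p * (hs R n - hs R d)) * (1 + δ * (hs R (2 * r) - hs R r)) := by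
    apply (hu2.pow (2 * r)).mul_left_cancel
    rw [e4] at e1 ⊢
    linear_combination (1 + δ * (hs R (2 * r) - hs R r)) * (-1) ^ r * c1 - e1
  set κ : R := (-1) ^ n * 2 ^ n - 1 with hκ
  have k3 : (1 + κ) ^ 2 = 4 ^ n := by
    rw [hκ, add_sub_cancel, ← mul_pow, ← pow_mul, mul_comm n 2, pow_mul]; norm_num
  have k4 : φ κ = 0 := by
    simp only [hκ, map_sub, map_mul, map_pow, map_neg, map_one, map_ofNat, h2n, sub_self]
  have z1 := hker _ _ k4 k4
  have z2 := hker _ _ k4 hδ0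
  have z3 := hker _ _ k4 (phi_p (p := p) φ)
  have z4 := hker _ _ hδ0 (phi_p (p := p) φ)
  have k5 : 4 * κ = -(p * hs R n) := by linear_combination 2 * k3 + c3 - 2 * z1
  rw [show 4 * GG n i8 = 2 * (2 * GG n i8) by ring, e5]
  linear_combination ((n.choose r : ℕ) : R) * (4 * (hs R (2 * r) - hs R r) * h4δ + 2 * k5 - 2 * c2
    - 4 * (2 + κ) * (hs R n - hs R d) * (hs R (2 * r) - hs R r) * z4
    + 8 * (hs R (2 * r) - hs R r) * z2 - 4 * (hs R n - hs R d) * z3)

end lift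

end Pool.Agent.MP_025f5d_nt.Q44

end

-- part MP_025f5d_nt.Q44.C
section

set_option linter.unusedSectionVars false

namespace Pool.Agent.MP_025f5d_nt.Q44

open Finset Polynomial

section lift
variable {R F : Type*} [CommRing R] [Field F] {p : ℕ} [Fact p.Prime] [CharP F p]
  (φ : R →+* F) (hker : ∀ a b : R, φ a = 0 → φ b = 0 → a * b = 0)
  (hunit : ∀ a : R, φ a ≠ 0 → IsUnit a)

include hker hunit in
theorem third_term {q r N : ℕ} (hp : p = 2 * (q + 1) + 1) (hr : r ≤ q + 1) (hN : N = 3 * (q + 1)) :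
    φ (N.choose (q + 1 + r) : ℕ) = 0 ∧
      ((N.choose (q + 1 + r) : ℕ) : R) * ((q + 1).choose r : ℕ) = -2 * p := by
  have h1 := Nat.choose_mul (n := N) (k := q + 1 + r) (s := q + 1) (by omega)
  rw [show N - (q + 1) = 2 * (q + 1) by omega, Nat.add_sub_cancel_left,
    Nat.choose_symm_add] at h1
  have h2 := Nat.choose_succ_right_eq N q
  rw [show N - q = p by omega] at h2
  have h3 := choose_shift φ hker hunit (a := q) (N := N) (δ := p) (by omega) (phi_p φ)
    (by rw [hN, hp]; push_cast; ring) q 0 rfl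
  have h1' := congrArg (Nat.cast : ℕ → R) h1
  have h2' := congrArg (Nat.cast : ℕ → R) h2
  push_cast at h1' h2'
  rw [Nat.choose_self] at h3
  have z := hker _ _ (phi_p (p := p) φ) (phi_p (p := p) φ)
  have t1 := tk_mod (F := F) (N := 2 * (q + 1)) hp (k := r) (by omega)
  have t2 := choose_half_mod (F := F) hp (k := r) (by omega)
  have z1 := hker p ((-1) ^ r * (((2 * (q + 1)).choose r : ℕ) : R) - 1) (phi_p φ) (by simp only [map_sub, map_mul, map_pow, map_neg, map_one, map_natCast, t1, sub_self])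
  have h4 : ((q : R) + 1) * ((N.choose (q + 1 + r) : ℕ) : R) *
      ((-1) ^ r * ((q + 1 + r).choose r : ℕ)) = p := by
    push_cast at h3
    rw [h3] at h2'
    linear_combination ((q : R) + 1) * (-1) ^ r * h1' +
      (-1) ^ r * (((2 * (q + 1)).choose r : ℕ) : R) * h2' + z1 +
      (-1) ^ r * (((2 * (q + 1)).choose r : ℕ) : R) * (hs R q - hs R 0) * z
  have h5 : φ (N.choose (q + 1 + r) : ℕ) = 0 := by
    have := congrArg φ h4
    simp only [map_mul, map_add, map_natCast, map_one, map_pow, map_neg, t2,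
      CharP.cast_eq_zero] at this
    rw [map_natCast]
    exact (mul_eq_zero.mp ((mul_eq_zero.mp this).resolve_right
      (choose_ne (p := p) (by omega) hr))).resolve_left (succ_ne_zero_of_lt (p := p) (by omega))
  refine ⟨h5, ?_⟩
  have z2 := hker _ ((-1) ^ r * (((q + 1 + r).choose r : ℕ) : R) - ((q + 1).choose r : ℕ)) h5
    (by simp only [map_sub, map_mul, map_pow, map_neg, map_one, map_natCast, t2, sub_self])
  have z3 := hker _ _ h5 (phi_p (p := p) φ)
  have hP : (p : R) = 2 * (q + 1) + 1 := by rw [hp]; push_cast; ring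
  linear_combination -2 * h4 + 2 * ((q : R) + 1) * z2 + (((q + 1).choose r : ℕ) : R) * z3
    - ((N.choose (q + 1 + r) : ℕ) : R) * (((q + 1).choose r : ℕ) : R) * hP

include hker hunit in
theorem alpha1 {r : ℕ} (hp : p = 8 * (r + 1) + 1) (A : R)
    (hA : 4 * A = ((p : R) - 1) *
      (3 * ((4 * (r + 1)).choose (r + 1) : ℕ) - ((12 * (r + 1)).choose (r + 1) : ℕ)
        - ((12 * (r + 1)).choose (3 * (r + 1)) : ℕ) - ((12 * (r + 1)).choose (5 * (r + 1)) : ℕ))) :
    ∀ Z : R, Z = ((4 * (r + 1)).choose (r + 1) : ℕ) *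
      (16 - 2 * p * (4 * hs R (4 * (r + 1)) - 3 * hs R (3 * (r + 1)) - hs R (r + 1))) →
        Z * (-2 * A) = 16 * (4 * A ^ 2 - p) ∧ p * Z = 16 * p * (-2 * A) := by
  rintro Z rfl
  have hN : ((12 * (r + 1) : ℕ) : R) = ((4 * r + 3 : ℕ) : R) + p := by rw [hp]; push_cast; ring
  have c1 := choose_shift φ hker hunit (by omega) (phi_p φ) hN (r + 1) (3 * r + 2) (by omega)
  have c2 := choose_shift φ hker hunit (by omega) (phi_p φ) hN (3 * (r + 1)) r (by omega)
  obtain ⟨k3, c3⟩ := third_term φ hker hunit (q := 4 * r + 3) (r := r + 1) (N := 12 * (r + 1))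
    (by omega) (by omega) (by omega)
  rw [show 4 * r + 3 + 1 + (r + 1) = 5 * (r + 1) by ring] at k3 c3
  have b1 : (4 * r + 3 + 1).choose (r + 1) = 4 * (4 * r + 3).choose r := by
    have := Nat.add_one_mul_choose_eq (4 * r + 3) r
    apply Nat.eq_of_mul_eq_mul_right (show 0 < r + 1 by omega)
    rw [← this]; ring
  have b2 : (4 * r + 3).choose (r + 1) = 3 * (4 * r + 3).choose r := by
    have := Nat.choose_succ_succ' (4 * r + 3) r
    omega
  have b3 : (4 * r + 3).choose (3 * (r + 1)) = (4 * r + 3).choose r :=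
    Nat.choose_symm_of_eq_add (by ring)
  rw [b2] at c1
  rw [b3] at c2
  rw [show 4 * (r + 1) = 4 * r + 3 + 1 by ring] at hA ⊢
  rw [b1] at c3 hA ⊢
  rw [c1, c2] at hA
  rw [show 3 * (r + 1) = 3 * r + 2 + 1 by ring, hs_succ (4 * r + 3), hs_succ (3 * r + 2), hs_succ r]
  have i1 := Ring.mul_inverse_cancel _ (unit_succ φ hunit (k := 4 * r + 3) (by omega))
  have i2 := Ring.mul_inverse_cancel _ (unit_succ φ hunit (k := 3 * r + 2) (by omega))
  have i3 := Ring.mul_inverse_cancel _ (unit_succ φ hunit (k := r) (by omega))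
  have z := hker _ _ (phi_p (p := p) φ) (phi_p (p := p) φ)
  have z3 := hker _ _ k3 (phi_p (p := p) φ)
  have z4 := hker _ _ k3 k3
  have hP : (p : R) = 8 * (r + 1) + 1 := by rw [hp]; push_cast; ring
  set j1 := Ring.inverse (((4 * r + 3 : ℕ) : R) + 1)
  set j2 := Ring.inverse (((3 * r + 2 : ℕ) : R) + 1)
  set j3 := Ring.inverse ((r : R) + 1)
  push_cast at i1 i2 hA c3 ⊢
  have e1 : (p : R) * j1 = -2 * p := by linear_combination j1 * z - p * j1 * hP - 2 * p * i1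
  have e2 : 3 * (p : R) * j2 = -8 * p := by
    linear_combination 3 * j2 * z - 3 * p * j2 * hP - 8 * p * i2
  have e3 : (p : R) * j3 = -8 * p := by linear_combination j3 * z - p * j3 * hP - 8 * p * i3
  set b : R := (((4 * r + 3).choose r : ℕ) : R)
  set c : R := (((12 * (r + 1)).choose (5 * (r + 1)) : ℕ) : R)
  set h0 := hs R (4 * r + 3)
  set h1 := hs R (3 * r + 2)
  set h2 := hs R r
  have e4 : 4 * b * (16 - 2 * p * (4 * (h0 + j1) - 3 * (h1 + j2) - (h2 + j3))) =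
      8 * (-4 * A + c) := by
    linear_combination 8 * hA - 32 * b * e1 + 8 * b * e2 + 8 * b * e3
      - 8 * b * (4 * h0 - 3 * h1 - h2) * z - 8 * z3
  have e5 : c * (4 * A) = 4 * p := by
    linear_combination c * hA - 2 * c3 + z4 + (8 * b - c - (p - 1) * b * (4 * h0 - 3 * h1 - h2)) * z3
  rw [e4]
  exact ⟨by linear_combination -4 * e5, by linear_combination 8 * z3⟩

include hker hunit in
theorem alpha3 {r : ℕ} (hp : p = 8 * (r + 1) + 3) (A : R)
    (hA : 4 * A = ((p : R) + 1) *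
      (3 * ((4 * r + 5).choose (r + 1) : ℕ) - ((12 * r + 15).choose r : ℕ)
        - ((12 * r + 15).choose (3 * r + 3) : ℕ) - ((12 * r + 15).choose (5 * r + 6) : ℕ))) :
    ∀ Z : R, Z = ((4 * r + 5).choose (r + 1) : ℕ) *
      (16 - 2 * p * (4 * hs R (4 * r + 5) - 3 * hs R (3 * r + 4) - hs R (r + 1))) →
        Z * (2 * A) = 16 * (4 * A ^ 2 - p) ∧ p * Z = 16 * p * (2 * A) := by
  rintro Z rfl
  have hN : ((12 * r + 15 : ℕ) : R) = ((4 * r + 4 : ℕ) : R) + p := by rw [hp]; push_cast; ring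
  have c1 := choose_shift φ hker hunit (by omega) (phi_p φ) hN r (3 * r + 4) (by omega)
  have c2 := choose_shift φ hker hunit (by omega) (phi_p φ) hN (3 * r + 3) (r + 1) (by omega)
  obtain ⟨k3, c3⟩ := third_term φ hker hunit (q := 4 * r + 4) (r := r + 1) (N := 12 * r + 15)
    (by omega) (by omega) (by omega)
  rw [show 4 * r + 4 + 1 + (r + 1) = 5 * r + 6 by ring] at k3 c3
  have b1 := congrArg (Nat.cast : ℕ → R) (Nat.add_one_mul_choose_eq (4 * r + 4) r)
  have b2 := congrArg (Nat.cast : ℕ → R) (Nat.choose_succ_succ' (4 * r + 4) r)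
  have b3 : (4 * r + 4).choose (3 * r + 3) = (4 * r + 4).choose (r + 1) :=
    Nat.choose_symm_of_eq_add (by ring)
  rw [b3] at c2
  rw [show 4 * r + 5 = 4 * r + 4 + 1 by ring] at hA ⊢
  rw [c1, c2] at hA
  rw [hs_succ (4 * r + 4)]
  have i1 := Ring.mul_inverse_cancel _ (unit_succ φ hunit (k := 4 * r + 4) (by omega))
  have z := hker _ _ (phi_p (p := p) φ) (phi_p (p := p) φ)
  have z3 := hker _ _ k3 (phi_p (p := p) φ)
  have z4 := hker _ _ k3 k3
  have hP : (p : R) = 8 * (r + 1) + 3 := by rw [hp]; push_cast; ring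
  set j1 := Ring.inverse (((4 * r + 4 : ℕ) : R) + 1)
  rw [Nat.cast_mul, Nat.cast_mul] at b1
  rw [Nat.cast_add] at b2
  rw [b2] at b1 c3 hA ⊢
  set a : R := (((4 * r + 4).choose r : ℕ) : R)
  set b : R := (((4 * r + 4).choose (r + 1) : ℕ) : R)
  set c : R := (((12 * r + 15).choose (5 * r + 6) : ℕ) : R)
  set h0 := hs R (4 * r + 4)
  set h1 := hs R (3 * r + 4)
  set h2 := hs R (r + 1)
  push_cast at i1 b1
  have e1 : (p : R) * j1 = -2 * p := by linear_combination j1 * z - p * j1 * hP - 2 * p * i1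
  have e2 : (p : R) * a = 3 * p * b := by
    linear_combination -8 * p * b1 - p * (3 * a - b) * hP + (3 * a - b) * z
  have e4 : (a + b) * (16 - 2 * p * (4 * (h0 + j1) - 3 * h1 - h2)) = 8 * (4 * A + c) := by
    linear_combination -8 * hA - 8 * (a + b) * e1 - 2 * (h1 - h2) * e2
      + 8 * (a * (h0 - h1) + b * (h0 - h2)) * z + 8 * z3
  have e5 : c * (4 * A) = -4 * p := by
    linear_combination c * hA + 2 * c3 - z4 +
      (2 * (a + b) - c - (p + 1) * (a * (h0 - h1) + b * (h0 - h2))) * z3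
  rw [e4]
  exact ⟨by linear_combination 4 * e5, by linear_combination 8 * z3⟩

end lift

section signs
variable {F : Type*} [Field F] {p : ℕ} [Fact p.Prime] [CharP F p]

theorem signs (s : F) (hs : s ^ 2 = 2) (r n : ℕ) (hp : p = 2 * n + 1) :
    (p = 8 * r + 1 → (2 : F) ^ n = 1 ∧ (s * (s - 1)) ^ n = (-1) ^ r) ∧
    (p = 8 * r + 3 → (2 : F) ^ n = -1 ∧ (s * (s - 1)) ^ n = -((-1) ^ r * (s + 1))) := by
  let K := AlgebraicClosure F
  let f := algebraMap F K
  have hf : Function.Injective f := f.injective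
  have two : (2 : K) ≠ 0 := by
    have := cast_ne_zero_of_lt (F := K) (p := p) (k := 2) (by omega)
      (by have := (Fact.out : p.Prime).two_le; omega)
    simpa only [ne_eq, Nat.cast_ofNat] using this
  set t := f s with ht
  have ht2 : t ^ 2 = 2 := by rw [ht, ← map_pow, hs, map_ofNat]
  obtain ⟨β, hβ⟩ := IsAlgClosed.exists_pow_nat_eq (2 - t) (n := 2) (by norm_num)
  obtain ⟨γ, hγ⟩ := IsAlgClosed.exists_pow_nat_eq (β ^ 2 - 4) (n := 2) (by norm_num)
  obtain ⟨z, w, hzw, hb⟩ : ∃ z w : K, z * w = 1 ∧ β = z + w :=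
    ⟨(β + γ) * 2⁻¹, (β - γ) * 2⁻¹, by
      have h := mul_inv_cancel₀ two
      linear_combination -(2⁻¹) ^ 2 * hγ + (2 * 2⁻¹ + 1) * h, by
      have h := mul_inv_cancel₀ two
      linear_combination -β * h⟩
  have h2 : t = -(z ^ 2 + w ^ 2) := by rw [hb] at hβ; linear_combination hβ - 2 * hzw
  have h4 : z ^ 4 + w ^ 4 = 0 := by
    rw [h2] at ht2; linear_combination ht2 - 2 * (z * w + 1) * hzw
  have z8 : z ^ 8 = -1 := by
    linear_combination z ^ 4 * h4 - (z * w + 1) * ((z * w) ^ 2 + 1) * hzw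
  have w8 : w ^ 8 = -1 := by
    linear_combination w ^ 4 * h4 - (z * w + 1) * ((z * w) ^ 2 + 1) * hzw
  have hβ0 : β ≠ 0 := by
    rintro rfl
    apply two
    linear_combination (2 + t) * -hβ + ht2
  have ht0 : t ≠ 0 := by
    intro h; apply two; rw [← ht2, h]; simp
  have f1 : β * (t * (t - 1)) ^ n = z ^ p + w ^ p := by
    rw [← add_pow_char, ← hb, hp, pow_succ, pow_mul, hβ, mul_comm]
    congr 2; linear_combination ht2
  have f2 : t * 2 ^ n = -((z ^ p) ^ 2 + (w ^ p) ^ 2) := by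
    have hodd : Odd p := ⟨n, hp⟩
    rw [← pow_mul, ← pow_mul, mul_comm p 2, pow_mul, pow_mul, ← add_pow_char, ← hodd.neg_pow, ← h2,
      hp, pow_succ, pow_mul, ht2, mul_comm]
  have hσ : ((-1 : K) ^ r) ^ 2 = 1 := by rw [← pow_mul, mul_comm, pow_mul]; simp only [even_two, Even.neg_pow, one_pow]
  constructor
  · intro h
    have e1 : z ^ p = (-1) ^ r * z := by rw [h, pow_succ, pow_mul, z8]
    have e2 : w ^ p = (-1) ^ r * w := by rw [h, pow_succ, pow_mul, w8]
    rw [e1, e2] at f1 f2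
    constructor <;> apply hf <;> simp only [map_pow, map_mul, map_sub, map_one, map_ofNat, map_neg]
    · apply mul_left_cancel₀ ht0
      linear_combination f2 - (z ^ 2 + w ^ 2) * hσ - h2
    · apply mul_left_cancel₀ hβ0
      linear_combination f1 - (-1) ^ r * hb
  · intro h
    have e1 : z ^ p = (-1) ^ r * z ^ 3 := by rw [h, pow_add, pow_mul, z8]
    have e2 : w ^ p = (-1) ^ r * w ^ 3 := by rw [h, pow_add, pow_mul, w8]
    rw [e1, e2] at f1 f2
    constructor <;> apply hf <;>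
      simp only [map_pow, map_mul, map_sub, map_add, map_one, map_ofNat, map_neg]
    · apply mul_left_cancel₀ ht0
      linear_combination f2 - (z ^ 6 + w ^ 6) * hσ + h2 - (z ^ 2 + w ^ 2) * h4
        + (z ^ 2 + w ^ 2) * (z * w + 1) * hzw
    · apply mul_left_cancel₀ hβ0
      rw [← ht, h2, hb] at *
      linear_combination f1 - (-1) ^ r * (z + w) * hzw

end signs

end Pool.Agent.MP_025f5d_nt.Q44

end

-- part MP_025f5d_nt.Q44.Fin
section

set_option linter.unusedVariables false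

namespace Pool.Agent.MP_025f5d_nt.Q44

theorem fin1 {R : Type*} [CommRing R] (s ρ α β P κ μ n d1 d2 u1 v1 w1 E G Lp Tp w Y Z : R)
    (h2 : IsUnit (2 : R)) (hs : s ^ 2 = 2) (hρ : ρ ^ 2 = 1) (hα : α * β = 1) (hn : P = 2 * n + 1)
    (zPP : P * P = 0) (zPk : P * κ = 0) (zPm : P * μ = 0) (zPa : P * d1 = 0) (zPb : P * d2 = 0) (zkk : κ * κ = 0) (zkm : κ * μ = 0) (zka : κ * d1 = 0) (zkb : κ * d2 = 0) (zmm : μ * μ = 0) (zma : μ * d1 = 0) (zmb : μ * d2 = 0)
    (hE : E * (1 * (1 + 2 * κ)) = (ρ * (1 + μ)) ^ 2) (hG : 4 * G * (4 + 2 * κ * 2) = 16 * α)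
    (hw : w = (1 * (1 + 2 * κ)) * (ρ * (1 + μ)) * G)
    (hY : Y = 2 * (s - 1) * (1 * (1 + 2 * κ)) ^ 2 * E) (hZ : Z = (s - 1) ^ 2 * E ^ 2)
    (La : 2 * w = (1 * (1 + 2 * κ)) * ((ρ * α + d1) + (ρ * α + d2)))
    (Eu : Y * (3 * (ρ * α + d1) - 2 * (1 * w)) + Z * (3 * (ρ * α + d1) - 2 * (ρ * α + d2)) = (ρ * α + d1))
    (W1 : 2 * (2 * (s - 1)) * (1 - 2 * (s - 1)) * ((ρ * α + d1) * v1 - u1 * (ρ * α + d2))
      + P * (2 * (s - 1)) * (ρ * α + d1) ^ 2 = P * Y)
    (W2 : 2 * (s - 1) ^ 2 * (1 - (s - 1) ^ 2) * (1 * (ρ * α + d1) * w1 - -(1 * u1) * w)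
      + P * (s - 1) ^ 2 * (1 * (ρ * α + d1)) ^ 2 = P * Z)
    (La1 : 4 * (s - 1) ^ 2 * s * w1 = (1 * (1 + 2 * κ)) * ((2 - s) * (2 * (s - 1)) * (u1 + v1)
      + 2 * n * (s - 1) * ((ρ * α + d1) + (ρ * α + d2))))
    (Pf0 : E * Lp = (ρ * α + d2))
    (Pf1 : E * Tp = 2 * (s - 1) * ((1 - 2 * (s - 1)) * v1 + n * (ρ * α + d2))) :
    Lp - (ρ * α + d1) = 0 ∧ 4 * (Tp - 2 * (s - 1) * u1) = 2 * s * (-ρ * (α - P * β)) := by
  have eE : E = 1 - 2 * κ + 2 * μ := by
    linear_combination (1 - 2 * κ) * hE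
      + (4 * E) * zkk
      + (-2 * μ * ρ ^ 2 - 4 * ρ ^ 2) * zkm
      + (ρ ^ 2) * zmm
      + (1 - 2 * κ + 2 * μ) * hρ
  have eG : G = α - α * κ := by
    apply (h2.pow 4).mul_left_cancel
    linear_combination (1 - κ) * hG
      + (16 * G) * zkk
  subst eE eG
  have ew : w = α * κ * ρ + α * μ * ρ + α * ρ := by
    linear_combination (1) * hw
      + (-2 * α * μ * ρ - 2 * α * ρ) * zkk
      + (α * ρ) * zkm
  have eY : Y = -2 + 2 * s + 4 * s * κ + 4 * s * μ - 4 * κ - 4 * μ := by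
    linear_combination (1) * hY
      + (8 - 8 * s - 16 * s * κ + 16 * s * μ + 16 * κ - 16 * μ) * zkk
      + (-16 + 16 * s) * zkm
  have eZ : Z = 3 - 2 * s + 8 * s * κ - 8 * s * μ - 12 * κ + 12 * μ := by
    linear_combination (1) * hZ
      + (4 - 8 * s + 4 * s ^ 2) * zkk
      + (-8 + 16 * s - 8 * s ^ 2) * zkm
      + (4 - 8 * s + 4 * s ^ 2) * zmm
      + (1 - 4 * κ + 4 * μ) * hs
  clear hw hY hZ hE hG
  subst ew eY eZ
  have ea : d1 = 0 := by
    apply (h2.pow 3).mul_left_cancel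
    linear_combination (2 + s) * Eu
      + (-4 + 2 * s) * La
      + (8 * s ^ 2 * α * ρ + 8 * s * α * ρ - 16 * α * ρ) * zkk
      + (16 * s ^ 2 * α * ρ + 16 * s * α * ρ - 32 * α * ρ) * zkm
      + (88 - 20 * s - 36 * s ^ 2) * zka
      + (-56 + 12 * s + 16 * s ^ 2) * zkb
      + (8 * s ^ 2 * α * ρ + 8 * s * α * ρ - 16 * α * ρ) * zmm
      + (-48 + 12 * s ^ 2) * zma
      + (48 - 8 * s - 16 * s ^ 2) * zmb
      + (-4 * d2 - 8 * α * κ * ρ + 8 * α * μ * ρ) * hs
  have eb : d2 = -2 * α * κ * ρ + 2 * α * μ * ρ := by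
    linear_combination (-1) * La
      + (-1) * ea
      + (-2) * zka
      + (-2) * zkb
  clear La Eu zPa zka zma zPb zkb zmb
  subst ea eb
  have eu : 8 * u1 = -P * s * β * ρ - 2 * P * β * ρ + s * α * ρ + 2 * α * ρ := by
    apply (h2.pow 1).mul_left_cancel
    linear_combination (-4 - 3 * s + 3 * s * κ + 3 * s * μ + 4 * κ + 4 * μ) * La1
      + (-5 * s * β * κ * ρ + 5 * s * β * μ * ρ - 5 * s * β * ρ - 7 * β * κ * ρ + 7 * β * μ * ρ - 7 * β * ρ) * W1
      + (-10 * s * β * κ * ρ - 10 * s * β * μ * ρ + 10 * s * β * ρ - 14 * β * κ * ρ - 14 * β * μ * ρ + 14 * β * ρ) * W2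
      + (12 * s ^ 2 * α * κ ^ 3 * ρ - 18 * s ^ 2 * α * κ ^ 2 * ρ - 12 * s ^ 2 * α * κ * μ ^ 2 * ρ - 6 * s ^ 2 * α * μ ^ 2 * ρ + 6 * s ^ 2 * α * ρ + 4 * s * α * κ ^ 3 * ρ - 6 * s * α * κ ^ 2 * ρ - 4 * s * α * κ * μ ^ 2 * ρ - 2 * s * α * μ ^ 2 * ρ + 2 * s * α * ρ - 16 * α * κ ^ 3 * ρ + 24 * α * κ ^ 2 * ρ + 16 * α * κ * μ ^ 2 * ρ + 8 * α * μ ^ 2 * ρ - 8 * α * ρ) * hn
      + (10 * s ^ 3 * α ^ 2 * β * ρ ^ 3 + 4 * s ^ 2 * α ^ 2 * β * ρ ^ 3 - 12 * s ^ 2 * α * κ ^ 2 * ρ + 18 * s ^ 2 * α * κ * ρ + 12 * s ^ 2 * α * μ ^ 2 * ρ - 100 * s ^ 2 * β * κ * ρ + 70 * s ^ 2 * β * ρ - 14 * s * α ^ 2 * β * ρ ^ 3 - 4 * s * α * κ ^ 2 * ρ + 6 * s * α * κ * ρ + 4 * s * α * μ ^ 2 * ρ - 22 * s * β * ρ + 16 * α * κ ^ 2 * ρ - 24 * α * κ * ρ - 16 * α * μ ^ 2 * ρ + 196 * β * κ * ρ - 168 * β * ρ) * zPk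
      + (10 * s ^ 3 * α ^ 2 * β * ρ ^ 3 - 16 * s ^ 2 * α ^ 2 * β * ρ ^ 3 + 6 * s ^ 2 * α * μ * ρ + 100 * s ^ 2 * β * μ * ρ - 70 * s ^ 2 * β * ρ - 22 * s * α ^ 2 * β * ρ ^ 3 + 2 * s * α * μ * ρ + 2 * s * β * ρ + 28 * α ^ 2 * β * ρ ^ 3 - 8 * α * μ * ρ - 196 * β * μ * ρ + 140 * β * ρ) * zPm
      + (-20 * s ^ 5 * u1 * α * β * ρ ^ 2 + 52 * s ^ 4 * u1 * α * β * ρ ^ 2 - 12 * s ^ 3 * u1 - 68 * s ^ 3 * u1 * α * β * ρ ^ 2 - 12 * s ^ 3 * v1 + 20 * s ^ 2 * u1 - 12 * s ^ 2 * u1 * α * β * ρ ^ 2 + 20 * s ^ 2 * v1 + 12 * s ^ 2 * α * κ * ρ - 18 * s ^ 2 * α * ρ + 24 * s * u1 + 216 * s * u1 * α * β * ρ ^ 2 + 24 * s * v1 + 4 * s * α * κ * ρ - 6 * s * α * ρ - 32 * u1 - 168 * u1 * α * β * ρ ^ 2 - 32 * v1 - 16 * α * κ * ρ + 24 * α * ρ) * zkk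
      + (-40 * s ^ 5 * u1 * α * β * ρ ^ 2 + 104 * s ^ 4 * u1 * α * β * ρ ^ 2 - 12 * s ^ 3 * u1 + 184 * s ^ 3 * u1 * α * β * ρ ^ 2 - 12 * s ^ 3 * v1 + 20 * s ^ 2 * u1 - 376 * s ^ 2 * u1 * α * β * ρ ^ 2 + 20 * s ^ 2 * v1 - 12 * s ^ 2 * α * μ * ρ + 24 * s * u1 - 208 * s * u1 * α * β * ρ ^ 2 + 24 * s * v1 - 4 * s * α * μ * ρ - 32 * u1 + 336 * u1 * α * β * ρ ^ 2 - 32 * v1 + 16 * α * μ * ρ) * zkm
      + (-20 * s ^ 5 * u1 * α * β * ρ ^ 2 + 52 * s ^ 4 * u1 * α * β * ρ ^ 2 - 68 * s ^ 3 * u1 * α * β * ρ ^ 2 - 12 * s ^ 2 * u1 * α * β * ρ ^ 2 - 6 * s ^ 2 * α * ρ + 216 * s * u1 * α * β * ρ ^ 2 - 2 * s * α * ρ - 168 * u1 * α * β * ρ ^ 2 + 8 * α * ρ) * zmm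
      + (-10 * P * s * α ^ 2 * β * ρ ^ 3 + 16 * P * α ^ 2 * β * ρ ^ 3 - 6 * P * α * ρ - 30 * P * β * ρ + 20 * s ^ 3 * u1 * α * β * ρ ^ 2 - 20 * s ^ 3 * w1 * α * β * κ * ρ ^ 2 - 20 * s ^ 3 * w1 * α * β * μ * ρ ^ 2 + 20 * s ^ 3 * w1 * α * β * ρ ^ 2 - 52 * s ^ 2 * u1 * α * β * ρ ^ 2 + 12 * s ^ 2 * w1 + 52 * s ^ 2 * w1 * α * β * κ * ρ ^ 2 + 52 * s ^ 2 * w1 * α * β * μ * ρ ^ 2 - 52 * s ^ 2 * w1 * α * β * ρ ^ 2 - 12 * s ^ 2 * w1 * κ - 12 * s ^ 2 * w1 * μ + 6 * s * u1 - 40 * s * u1 * α * β * κ * ρ ^ 2 + 40 * s * u1 * α * β * μ * ρ ^ 2 + 68 * s * u1 * α * β * ρ ^ 2 + 6 * s * u1 * κ - 6 * s * u1 * μ + 6 * s * v1 - 40 * s * v1 * α * β * κ * ρ ^ 2 + 40 * s * v1 * α * β * μ * ρ ^ 2 - 40 * s * v1 * α * β * ρ ^ 2 + 6 * s * v1 * κ - 6 * s * v1 * μ - 8 * s * w1 - 28 * s * w1 * α * β * κ * ρ ^ 2 - 28 * s * w1 * α * β * μ * ρ ^ 2 + 28 * s * w1 * α * β * ρ ^ 2 + 8 * s * w1 * κ + 8 * s * w1 * μ - 10 * u1 + 44 * u1 * α * β * κ * ρ ^ 2 - 44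 * u1 * α * β * μ * ρ ^ 2 - 48 * u1 * α * β * ρ ^ 2 - 10 * u1 * κ + 10 * u1 * μ - 10 * v1 + 44 * v1 * α * β * κ * ρ ^ 2 - 44 * v1 * α * β * μ * ρ ^ 2 + 44 * v1 * α * β * ρ ^ 2 - 10 * v1 * κ + 10 * v1 * μ + 4 * w1 + 4 * w1 * α * β * κ * ρ ^ 2 + 4 * w1 * α * β * μ * ρ ^ 2 - 4 * w1 * α * β * ρ ^ 2 - 4 * w1 * κ - 4 * w1 * μ + 6 * α * ρ) * hs
      + (2 * P * s * α ^ 2 * β * ρ + 4 * P * α ^ 2 * β * ρ - 12 * u1 * α * β + 4 * u1 * α * β * κ - 4 * u1 * α * β * μ + 4 * v1 * α * β + 4 * v1 * α * β * κ - 4 * v1 * α * β * μ - 8 * w1 * α * β + 8 * w1 * α * β * κ + 8 * w1 * α * β * μ) * hρ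
      + (2 * P * s * α * ρ + 4 * P * α * ρ - 12 * u1 + 4 * u1 * κ - 4 * u1 * μ + 4 * v1 + 4 * v1 * κ - 4 * v1 * μ - 8 * w1 + 8 * w1 * κ + 8 * w1 * μ) * hα
  have ev : 8 * v1 = -8 * P * s * α * ρ + 7 * P * s * β * ρ - 12 * P * α * ρ + 10 * P * β * ρ - 2 * s * α * κ * ρ + 2 * s * α * μ * ρ + s * α * ρ - 4 * α * κ * ρ + 4 * α * μ * ρ + 2 * α * ρ := by
    linear_combination (10 * s * β * ρ + 14 * β * ρ) * W1
      + (20 * s ^ 3 * α * β * κ * ρ ^ 2 - 20 * s ^ 3 * α * β * μ * ρ ^ 2 - 10 * s ^ 3 * α * β * ρ ^ 2 - 22 * s ^ 2 * α * β * κ * ρ ^ 2 + 22 * s ^ 2 * α * β * μ * ρ ^ 2 + 11 * s ^ 2 * α * β * ρ ^ 2 - 40 * s * α * β * κ * ρ ^ 2 + 40 * s * α * β * μ * ρ ^ 2 + 20 * s * α * β * ρ ^ 2 + 42 * α * β * κ * ρ ^ 2 - 42 * α * β * μ * ρ ^ 2 - 21 * α * β * ρ ^ 2) * eu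
      + (-20 * s ^ 4 * α * β ^ 2 * ρ ^ 3 - 18 * s ^ 3 * α * β ^ 2 * ρ ^ 3 + 84 * s ^ 2 * α * β ^ 2 * ρ ^ 3 + 40 * s ^ 2 * β * ρ + 38 * s * α * β ^ 2 * ρ ^ 3 + 16 * s * β * ρ - 84 * α * β ^ 2 * ρ ^ 3 - 56 * β * ρ) * zPk
      + (20 * s ^ 4 * α * β ^ 2 * ρ ^ 3 + 18 * s ^ 3 * α * β ^ 2 * ρ ^ 3 - 84 * s ^ 2 * α * β ^ 2 * ρ ^ 3 + 40 * s ^ 2 * β * ρ - 38 * s * α * β ^ 2 * ρ ^ 3 + 16 * s * β * ρ + 84 * α * β ^ 2 * ρ ^ 3 - 56 * β * ρ) * zPm
      + (10 * P * s ^ 2 * α * β ^ 2 * ρ ^ 3 + 9 * P * s * α * β ^ 2 * ρ ^ 3 - 20 * P * α ^ 2 * β * ρ ^ 3 - 22 * P * α * β ^ 2 * ρ ^ 3 + 20 * P * β * ρ + 20 * s ^ 2 * α ^ 2 * β * κ * ρ ^ 3 - 20 * s ^ 2 * α ^ 2 * β * μ * ρ ^ 3 - 10 * s ^ 2 * α ^ 2 * β * ρ ^ 3 + 80 * s * v1 * α * β * ρ ^ 2 + 18 * s * α ^ 2 * β * κ * ρ ^ 3 - 18 * s * α ^ 2 * β * μ * ρ ^ 3 - 9 * s * α ^ 2 * β * ρ ^ 3 - 88 * v1 * α * β * ρ ^ 2 - 44 * α ^ 2 * β * κ * ρ ^ 3 + 44 * α ^ 2 * β * μ * ρ ^ 3 + 22 * α ^ 2 * β * ρ ^ 3) *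 hs
      + (-8 * P * s * α ^ 2 * β * ρ - P * s * α * β ^ 2 * ρ - 12 * P * α ^ 2 * β * ρ - 2 * P * α * β ^ 2 * ρ - 2 * s * α ^ 2 * β * κ * ρ + 2 * s * α ^ 2 * β * μ * ρ + s * α ^ 2 * β * ρ - 8 * v1 * α * β - 4 * α ^ 2 * β * κ * ρ + 4 * α ^ 2 * β * μ * ρ + 2 * α ^ 2 * β * ρ) * hρ
      + (-8 * P * s * α * ρ - P * s * β * ρ - 12 * P * α * ρ - 2 * P * β * ρ - 2 * s * α * κ * ρ + 2 * s * α * μ * ρ + s * α * ρ - 8 * v1 - 4 * α * κ * ρ + 4 * α * μ * ρ + 2 * α * ρ) * hα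
  have f0 : Lp = α * ρ := by
    linear_combination (1 + 2 * κ - 2 * μ) * Pf0
      + (4 * Lp - 4 * α * ρ) * zkk
      + (-8 * Lp + 8 * α * ρ) * zkm
      + (4 * Lp - 4 * α * ρ) * zmm
  have f1 : 4 * Tp - 8 * s * u1 + 8 * u1 = 2 * P * s * β * ρ - 2 * s * α * ρ := by
    linear_combination (4 + 8 * κ - 8 * μ) * Pf1
      + (-3 + 5 * s - 2 * s ^ 2 - 4 * s ^ 2 * κ + 4 * s ^ 2 * μ + 10 * s * κ - 10 * s * μ - 6 * κ + 6 * μ) * ev
      + (1 - s) * eu
      + (16 * s * α * κ ^ 2 * ρ - 32 * s * α * κ * μ * ρ + 16 * s * α * μ ^ 2 * ρ - 4 * s * α * ρ - 16 * α * κ ^ 2 * ρ + 32 * α * κ * μ * ρ - 16 * α * μ ^ 2 * ρ + 4 * α * ρ) * hn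
      + (32 * s ^ 3 * α * ρ - 28 * s ^ 3 * β * ρ - 32 * s ^ 2 * α * ρ + 30 * s ^ 2 * β * ρ - 16 * s * α * κ * ρ + 32 * s * α * μ * ρ - 72 * s * α * ρ + 58 * s * β * ρ + 16 * α * κ * ρ - 32 * α * μ * ρ + 72 * α * ρ - 60 * β * ρ) * zPk
      + (-32 * s ^ 3 * α * ρ + 28 * s ^ 3 * β * ρ + 32 * s ^ 2 * α * ρ - 30 * s ^ 2 * β * ρ - 16 * s * α * μ * ρ + 72 * s * α * ρ - 58 * s * β * ρ + 16 * α * μ * ρ - 72 * α * ρ + 60 * β * ρ) * zPm
      + (16 * Tp + 8 * s ^ 3 * α * ρ - 4 * s ^ 2 * α * ρ - 12 * s * α * ρ + 8 * α * ρ) * zkk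
      + (-32 * Tp - 16 * s ^ 3 * α * ρ + 8 * s ^ 2 * α * ρ + 24 * s * α * ρ - 16 * α * ρ) * zkm
      + (16 * Tp + 8 * s ^ 3 * α * ρ - 4 * s ^ 2 * α * ρ - 12 * s * α * ρ + 8 * α * ρ) * zmm
      + (16 * P * s * α * ρ - 14 * P * s * β * ρ - 16 * P * α * ρ + 16 * P * β * ρ - 2 * s * α * ρ) * hs
  exact ⟨by linear_combination f0, by linear_combination f1⟩

theorem fin3 {R : Type*} [CommRing R] (s ρ α β P κ μ n d1 d2 u1 v1 w1 E G Lp Tp w Y Z : R)
    (h2 : IsUnit (2 : R)) (hs : s ^ 2 = 2) (hρ : ρ ^ 2 = 1) (hα : α * β = 1) (hn : P = 2 * n + 1)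
    (zPP : P * P = 0) (zPk : P * κ = 0) (zPm : P * μ = 0) (zPa : P * d1 = 0) (zPb : P * d2 = 0) (zkk : κ * κ = 0) (zkm : κ * μ = 0) (zka : κ * d1 = 0) (zkb : κ * d2 = 0) (zmm : μ * μ = 0) (zma : μ * d1 = 0) (zmb : μ * d2 = 0)
    (hE : E * ((-1) * (1 + 2 * κ)) = ((-(ρ * (s + 1))) * (1 + μ)) ^ 2) (hG : 4 * G * (4 + 2 * κ * 2) = 16 * α)
    (hw : w = ((-1) * (1 + 2 * κ)) * ((-(ρ * (s + 1))) * (1 + μ)) * G)
    (hY : Y = 2 * (s - 1) * ((-1) * (1 + 2 * κ)) ^ 2 * E) (hZ : Z = (s - 1) ^ 2 * E ^ 2)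
    (La : 2 * w = ((-1) * (1 + 2 * κ)) * (((-(ρ * (s + 1))) * α + d1) + ((-(ρ * (s + 1))) * α + d2)))
    (Eu : Y * (3 * ((-(ρ * (s + 1))) * α + d1) - 2 * ((-1) * w)) + Z * (3 * ((-(ρ * (s + 1))) * α + d1) - 2 * ((-(ρ * (s + 1))) * α + d2)) = ((-(ρ * (s + 1))) * α + d1))
    (W1 : 2 * (2 * (s - 1)) * (1 - 2 * (s - 1)) * (((-(ρ * (s + 1))) * α + d1) * v1 - u1 * ((-(ρ * (s + 1))) * α + d2))
      + P * (2 * (s - 1)) * ((-(ρ * (s + 1))) * α + d1) ^ 2 = P * Y)
    (W2 : 2 * (s - 1) ^ 2 * (1 - (s - 1) ^ 2) * ((-1) * ((-(ρ * (s + 1))) * α + d1) * w1 - -((-1) * u1) * w)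
      + P * (s - 1) ^ 2 * ((-1) * ((-(ρ * (s + 1))) * α + d1)) ^ 2 = P * Z)
    (La1 : 4 * (s - 1) ^ 2 * s * w1 = ((-1) * (1 + 2 * κ)) * ((2 - s) * (2 * (s - 1)) * (u1 + v1)
      + 2 * n * (s - 1) * (((-(ρ * (s + 1))) * α + d1) + ((-(ρ * (s + 1))) * α + d2))))
    (Pf0 : E * Lp = ((-(ρ * (s + 1))) * α + d2))
    (Pf1 : E * Tp = 2 * (s - 1) * ((1 - 2 * (s - 1)) * v1 + n * ((-(ρ * (s + 1))) * α + d2))) :
    Lp - ((-(ρ * (s + 1))) * α + d1) = 2 * s * (ρ * α) ∧ 4 * (Tp - 2 * (s - 1) * u1) = 2 * s * (ρ * (α + 7 * P * β)) := by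
  have eE : E = -3 - 2 * s + 4 * s * κ - 4 * s * μ + 6 * κ - 6 * μ := by
    linear_combination (-1 + 2 * κ) * hE
      + (4 * E) * zkk
      + (2 * s ^ 2 * μ * ρ ^ 2 + 4 * s ^ 2 * ρ ^ 2 + 4 * s * μ * ρ ^ 2 + 8 * s * ρ ^ 2 + 2 * μ * ρ ^ 2 + 4 * ρ ^ 2) * zkm
      + (-s ^ 2 * ρ ^ 2 - 2 * s * ρ ^ 2 - ρ ^ 2) * zmm
      + (2 * κ * ρ ^ 2 - 2 * μ * ρ ^ 2 - ρ ^ 2) * hs
      + (-3 - 2 * s + 4 * s * κ - 4 * s * μ + 6 * κ - 6 * μ) * hρ
  have eG : G = α - α * κ := by
    apply (h2.pow 4).mul_left_cancel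
    linear_combination (1 - κ) * hG
      + (16 * G) * zkk
  subst eE eG
  have ew : w = s * α * κ * ρ + s * α * μ * ρ + s * α * ρ + α * κ * ρ + α * μ * ρ + α * ρ := by
    linear_combination (1) * hw
      + (-2 * s * α * μ * ρ - 2 * s * α * ρ - 2 * α * μ * ρ - 2 * α * ρ) * zkk
      + (s * α * ρ + α * ρ) * zkm
  have eY : Y = -2 - 2 * s - 4 * s * κ - 4 * s * μ - 4 * κ - 4 * μ := by
    linear_combination (1) * hY
      + (-24 + 8 * s + 16 * s ^ 2 + 32 * s ^ 2 * κ - 32 * s ^ 2 * μ + 16 * s * κ - 16 * s * μ - 48 * κ + 48 * μ) * zkk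
      + (48 - 16 * s - 32 * s ^ 2) * zkm
      + (-4 - 8 * κ - 8 * μ) * hs
  have eZ : Z = 3 + 2 * s - 8 * s * κ + 8 * s * μ - 12 * κ + 12 * μ := by
    linear_combination (1) * hZ
      + (36 - 24 * s - 44 * s ^ 2 + 16 * s ^ 3 + 16 * s ^ 4) * zkk
      + (-72 + 48 * s + 88 * s ^ 2 - 32 * s ^ 3 - 32 * s ^ 4) * zkm
      + (36 - 24 * s - 44 * s ^ 2 + 16 * s ^ 3 + 16 * s ^ 4) * zmm
      + (-3 + 4 * s + 4 * s ^ 2 - 16 * s ^ 2 * κ + 16 * s ^ 2 * μ - 16 * s * κ + 16 * s * μ + 12 * κ - 12 * μ) * hs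
  clear hw hY hZ hE hG
  subst ew eY eZ
  have ea : d1 = 0 := by
    apply (h2.pow 3).mul_left_cancel
    linear_combination (2 - s) * Eu
      + (4 + 2 * s) * La
      + (-8 * s ^ 3 * α * ρ + 24 * s * α * ρ + 16 * α * ρ) * zkk
      + (-16 * s ^ 3 * α * ρ + 48 * s * α * ρ + 32 * α * ρ) * zkm
      + (88 + 20 * s - 36 * s ^ 2) * zka
      + (-56 - 12 * s + 16 * s ^ 2) * zkb
      + (-8 * s ^ 3 * α * ρ + 24 * s * α * ρ + 16 * α * ρ) * zmm
      + (-48 + 12 * s ^ 2) * zma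
      + (48 + 8 * s - 16 * s ^ 2) * zmb
      + (-4 * d2 + 8 * s * α * κ * ρ - 8 * s * α * μ * ρ + 8 * α * κ * ρ - 8 * α * μ * ρ) * hs
  have eb : d2 = 2 * s * α * κ * ρ - 2 * s * α * μ * ρ + 2 * α * κ * ρ - 2 * α * μ * ρ := by
    linear_combination (1) * La
      + (-1) * ea
      + (-2) * zka
      + (-2) * zkb
  clear La Eu zPa zka zma zPb zkb zmb
  subst ea eb
  have eu : 8 * u1 = -17 * P * s * β * ρ - 24 * P * β * ρ - 3 * s * α * ρ - 4 * α * ρ := by
    apply (h2.pow 1).mul_left_cancel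
    linear_combination (4 + 3 * s - 3 * s * κ - 3 * s * μ - 4 * κ - 4 * μ) * La1
      + (2 * s * β * κ * ρ - 2 * s * β * μ * ρ + 2 * s * β * ρ + 3 * β * κ * ρ - 3 * β * μ * ρ + 3 * β * ρ) * W1
      + (4 * s * β * κ * ρ + 4 * s * β * μ * ρ - 4 * s * β * ρ + 6 * β * κ * ρ + 6 * β * μ * ρ - 6 * β * ρ) * W2
      + (-12 * s ^ 3 * α * κ ^ 3 * ρ + 18 * s ^ 3 * α * κ ^ 2 * ρ + 12 * s ^ 3 * α * κ * μ ^ 2 * ρ + 6 * s ^ 3 * α * μ ^ 2 * ρ - 6 * s ^ 3 * α * ρ - 16 * s ^ 2 * α * κ ^ 3 * ρ + 24 * s ^ 2 * α * κ ^ 2 * ρ + 16 * s ^ 2 * α * κ * μ ^ 2 * ρ + 8 * s ^ 2 * α * μ ^ 2 * ρ - 8 * s ^ 2 * α * ρ + 12 * s * α * κ ^ 3 * ρ - 18 * s * α * κ ^ 2 * ρ - 12 * s * α * κ * μ ^ 2 * ρ - 6 * s * α * μ ^ 2 * ρ + 6 * s * α * ρ + 16 * α * κ ^ 3 * ρ - 24 * α * κ ^ 2 * ρ - 16 * α * κ * μ ^ 2 * ρ - 8 * α * μ ^ 2 * ρ + 8 * α * ρ) * hn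
      + (-4 * s ^ 5 * α ^ 2 * β * ρ ^ 3 - 10 * s ^ 4 * α ^ 2 * β * ρ ^ 3 - 2 * s ^ 3 * α ^ 2 * β * ρ ^ 3 + 12 * s ^ 3 * α * κ ^ 2 * ρ - 18 * s ^ 3 * α * κ * ρ - 12 * s ^ 3 * α * μ ^ 2 * ρ + 10 * s ^ 2 * α ^ 2 * β * ρ ^ 3 + 16 * s ^ 2 * α * κ ^ 2 * ρ - 24 * s ^ 2 * α * κ * ρ - 16 * s ^ 2 * α * μ ^ 2 * ρ - 40 * s ^ 2 * β * κ * ρ + 28 * s ^ 2 * β * ρ + 6 * s * α ^ 2 * β * ρ ^ 3 - 12 * s * α * κ ^ 2 * ρ + 18 * s * α * κ * ρ + 12 * s * α * μ ^ 2 * ρ - 116 * s * β * κ * ρ + 90 * s * β * ρ - 16 * α * κ ^ 2 * ρ + 24 * α * κ * ρ + 16 * α * μ ^ 2 * ρ - 84 * β * κ * ρ + 72 * β * ρ) * zPk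
      + (-4 * s ^ 5 * α ^ 2 * β * ρ ^ 3 - 2 * s ^ 4 * α ^ 2 * β * ρ ^ 3 + 18 * s ^ 3 * α ^ 2 * β * ρ ^ 3 - 6 * s ^ 3 * α * μ * ρ + 14 * s ^ 2 * α ^ 2 * β * ρ ^ 3 - 8 * s ^ 2 * α * μ * ρ + 40 * s ^ 2 * β * μ * ρ - 28 * s ^ 2 * β * ρ - 14 * s * α ^ 2 * β * ρ ^ 3 + 6 * s * α * μ * ρ + 116 * s * β * μ * ρ - 82 * s * β * ρ - 12 * α ^ 2 * β * ρ ^ 3 + 8 * α * μ * ρ + 84 * β * μ * ρ - 60 * β * ρ) * zPm
      + (-8 * s ^ 6 * u1 * α * β * ρ ^ 2 + 12 * s ^ 5 * u1 * α * β * ρ ^ 2 - 4 * s ^ 4 * u1 * α * β * ρ ^ 2 - 12 * s ^ 3 * u1 - 36 * s ^ 3 * u1 * α * β * ρ ^ 2 - 12 * s ^ 3 * v1 - 12 * s ^ 3 * α * κ * ρ + 18 * s ^ 3 * α * ρ + 20 * s ^ 2 * u1 + 84 * s ^ 2 * u1 * α * β * ρ ^ 2 + 20 * s ^ 2 * v1 - 16 * s ^ 2 * α * κ * ρ + 24 * s ^ 2 * α * ρ + 24 * s * u1 + 24 * s * u1 * α * β * ρ ^ 2 + 24 * s * v1 + 12 * s * α * κ * ρ - 18 * s * α * ρ - 32 * u1 - 72 * u1 * α * β * ρ ^ 2 - 32 * v1 + 16 * α * κ * ρ - 24 * α * ρ) * zkk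
      + (-16 * s ^ 6 * u1 * α * β * ρ ^ 2 + 24 * s ^ 5 * u1 * α * β * ρ ^ 2 + 120 * s ^ 4 * u1 * α * β * ρ ^ 2 - 12 * s ^ 3 * u1 - 72 * s ^ 3 * u1 * α * β * ρ ^ 2 - 12 * s ^ 3 * v1 + 12 * s ^ 3 * α * μ * ρ + 20 * s ^ 2 * u1 - 248 * s ^ 2 * u1 * α * β * ρ ^ 2 + 20 * s ^ 2 * v1 + 16 * s ^ 2 * α * μ * ρ + 24 * s * u1 + 48 * s * u1 * α * β * ρ ^ 2 + 24 * s * v1 - 12 * s * α * μ * ρ - 32 * u1 + 144 * u1 * α * β * ρ ^ 2 - 32 * v1 - 16 * α * μ * ρ) * zkm
      + (-8 * s ^ 6 * u1 * α * β * ρ ^ 2 + 12 * s ^ 5 * u1 * α * β * ρ ^ 2 - 4 * s ^ 4 * u1 * α * β * ρ ^ 2 - 36 * s ^ 3 * u1 * α * β * ρ ^ 2 + 6 * s ^ 3 * α * ρ + 84 * s ^ 2 * u1 * α * β * ρ ^ 2 + 8 * s ^ 2 * α * ρ + 24 * s * u1 * α * β * ρ ^ 2 - 6 * s * α * ρ - 72 * u1 * α * β * ρ ^ 2 - 8 * α * ρ) * zmm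
      + (4 * P * s ^ 3 * α ^ 2 * β * ρ ^ 3 + 2 * P * s ^ 2 * α ^ 2 * β * ρ ^ 3 - 10 * P * s * α ^ 2 * β * ρ ^ 3 + 6 * P * s * α * ρ - 10 * P * α ^ 2 * β * ρ ^ 3 + 8 * P * α * ρ - 12 * P * β * ρ + 8 * s ^ 4 * u1 * α * β * ρ ^ 2 + 8 * s ^ 4 * w1 * α * β * κ * ρ ^ 2 + 8 * s ^ 4 * w1 * α * β * μ * ρ ^ 2 - 8 * s ^ 4 * w1 * α * β * ρ ^ 2 - 12 * s ^ 3 * u1 * α * β * ρ ^ 2 - 12 * s ^ 3 * w1 * α * β * κ * ρ ^ 2 - 12 * s ^ 3 * w1 * α * β * μ * ρ ^ 2 + 12 * s ^ 3 * w1 * α * β * ρ ^ 2 - 16 * s ^ 2 * u1 * α * β * κ * ρ ^ 2 + 16 * s ^ 2 * u1 * α * β * μ * ρ ^ 2 + 4 * s ^ 2 * u1 * α * β * ρ ^ 2 - 16 * s ^ 2 * v1 * α * β * κ * ρ ^ 2 + 16 * s ^ 2 * v1 * α * β * μ * ρ ^ 2 - 16 * s ^ 2 * v1 * α * β * ρ ^ 2 - 12 * s ^ 2 * w1 - 12 * s ^ 2 * w1 * α * β * κ * ρ ^ 2 - 12 * s ^ 2 * w1 * α * β * μ * ρ ^ 2 + 12 * s ^ 2 * w1 * α * β * ρ ^ 2 + 12 * s ^ 2 * w1 * κ + 12 * s ^ 2 * w1 * μ + 6 * s * u1 + 12 * s * u1 * α * β * ρ ^ 2 + 6 * s * u1 * κ -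 6 * s * u1 * μ + 6 * s * v1 + 6 * s * v1 * κ - 6 * s * v1 * μ + 8 * s * w1 + 12 * s * w1 * α * β * κ * ρ ^ 2 + 12 * s * w1 * α * β * μ * ρ ^ 2 - 12 * s * w1 * α * β * ρ ^ 2 - 8 * s * w1 * κ - 8 * s * w1 * μ - 6 * s * α * ρ - 10 * u1 + 20 * u1 * α * β * κ * ρ ^ 2 - 20 * u1 * α * β * μ * ρ ^ 2 - 24 * u1 * α * β * ρ ^ 2 - 10 * u1 * κ + 10 * u1 * μ - 10 * v1 + 20 * v1 * α * β * κ * ρ ^ 2 - 20 * v1 * α * β * μ * ρ ^ 2 + 20 * v1 * α * β * ρ ^ 2 - 10 * v1 * κ + 10 * v1 * μ - 4 * w1 - 4 * w1 * α * β * κ * ρ ^ 2 - 4 * w1 * α * β * μ * ρ ^ 2 + 4 * w1 * α * β * ρ ^ 2 + 4 * w1 * κ + 4 * w1 * μ - 8 * α * ρ) * hs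
      + (-6 * P * s * α ^ 2 * β * ρ - 8 * P * α ^ 2 * β * ρ - 12 * u1 * α * β + 4 * u1 * α * β * κ - 4 * u1 * α * β * μ + 4 * v1 * α * β + 4 * v1 * α * β * κ - 4 * v1 * α * β * μ + 8 * w1 * α * β - 8 * w1 * α * β * κ - 8 * w1 * α * β * μ) * hρ
      + (-6 * P * s * α * ρ - 8 * P * α * ρ - 12 * u1 + 4 * u1 * κ - 4 * u1 * μ + 4 * v1 + 4 * v1 * κ - 4 * v1 * μ + 8 * w1 - 8 * w1 * κ - 8 * w1 * μ) * hα
  have ev : 8 * v1 = 20 * P * s * α * ρ + 3 * P * s * β * ρ + 28 * P * α * ρ + 4 * P * β * ρ + 6 * s * α * κ * ρ - 6 * s * α * μ * ρ - 3 * s * α * ρ + 8 * α * κ * ρ - 8 * α * μ * ρ - 4 * α * ρ := by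
    linear_combination (-4 * s * β * ρ - 6 * β * ρ) * W1
      + (8 * s ^ 4 * α * β * κ * ρ ^ 2 - 8 * s ^ 4 * α * β * μ * ρ ^ 2 - 4 * s ^ 4 * α * β * ρ ^ 2 - 26 * s ^ 2 * α * β * κ * ρ ^ 2 + 26 * s ^ 2 * α * β * μ * ρ ^ 2 + 13 * s ^ 2 * α * β * ρ ^ 2 + 18 * α * β * κ * ρ ^ 2 - 18 * α * β * μ * ρ ^ 2 - 9 * α * β * ρ ^ 2) * eu
      + (-136 * s ^ 5 * α * β ^ 2 * ρ ^ 3 - 192 * s ^ 4 * α * β ^ 2 * ρ ^ 3 + 442 * s ^ 3 * α * β ^ 2 * ρ ^ 3 + 624 * s ^ 2 * α * β ^ 2 * ρ ^ 3 + 16 * s ^ 2 * β * ρ - 306 * s * α * β ^ 2 * ρ ^ 3 + 40 * s * β * ρ - 432 * α * β ^ 2 * ρ ^ 3 + 24 * β * ρ) * zPk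
      + (136 * s ^ 5 * α * β ^ 2 * ρ ^ 3 + 192 * s ^ 4 * α * β ^ 2 * ρ ^ 3 - 442 * s ^ 3 * α * β ^ 2 * ρ ^ 3 - 624 * s ^ 2 * α * β ^ 2 * ρ ^ 3 + 16 * s ^ 2 * β * ρ + 306 * s * α * β ^ 2 * ρ ^ 3 + 40 * s * β * ρ + 432 * α * β ^ 2 * ρ ^ 3 + 24 * β * ρ) * zPm
      + (68 * P * s ^ 3 * α * β ^ 2 * ρ ^ 3 + 8 * P * s ^ 2 * α ^ 2 * β * ρ ^ 3 + 96 * P * s ^ 2 * α * β ^ 2 * ρ ^ 3 + 20 * P * s * α ^ 2 * β * ρ ^ 3 - 85 * P * s * α * β ^ 2 * ρ ^ 3 + 20 * P * α ^ 2 * β * ρ ^ 3 - 120 * P * α * β ^ 2 * ρ ^ 3 + 8 * P * β * ρ - 24 * s ^ 3 * α ^ 2 * β * κ * ρ ^ 3 + 24 * s ^ 3 * α ^ 2 * β * μ * ρ ^ 3 + 12 * s ^ 3 * α ^ 2 * β * ρ ^ 3 + 32 * s ^ 2 * v1 * α * β * ρ ^ 2 - 32 * s ^ 2 * α ^ 2 * β * κ * ρ ^ 3 + 32 * s ^ 2 * α ^ 2 * β * μ * ρ ^ 3 + 16 * s ^ 2 * α ^ 2 * β * ρ ^ 3 + 30 * s * α ^ 2 * β * κ * ρ ^ 3 - 30 * s * α ^ 2 * β * μ * ρ ^ 3 - 15 * s * α ^ 2 * β * ρ ^ 3 - 40 * v1 * α * β * ρ ^ 2 + 40 * α ^ 2 * β * κ * ρ ^ 3 - 40 * α ^ 2 * β *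 μ * ρ ^ 3 - 20 * α ^ 2 * β * ρ ^ 3) * hs
      + (20 * P * s * α ^ 2 * β * ρ - 17 * P * s * α * β ^ 2 * ρ + 28 * P * α ^ 2 * β * ρ - 24 * P * α * β ^ 2 * ρ + 6 * s * α ^ 2 * β * κ * ρ - 6 * s * α ^ 2 * β * μ * ρ - 3 * s * α ^ 2 * β * ρ - 8 * v1 * α * β + 8 * α ^ 2 * β * κ * ρ - 8 * α ^ 2 * β * μ * ρ - 4 * α ^ 2 * β * ρ) * hρ
      + (20 * P * s * α * ρ - 17 * P * s * β * ρ + 28 * P * α * ρ - 24 * P * β * ρ + 6 * s * α * κ * ρ - 6 * s * α * μ * ρ - 3 * s * α * ρ - 8 * v1 + 8 * α * κ * ρ - 8 * α * μ * ρ - 4 * α * ρ) * hα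
  have f0 : Lp = s * α * ρ - α * ρ := by
    linear_combination (-3 + 2 * s + 4 * s * κ - 4 * s * μ - 6 * κ + 6 * μ) * Pf0
      + (36 * Lp - 16 * Lp * s ^ 2 + 8 * s ^ 2 * α * ρ - 4 * s * α * ρ - 12 * α * ρ) * zkk
      + (-72 * Lp + 32 * Lp * s ^ 2 - 16 * s ^ 2 * α * ρ + 8 * s * α * ρ + 24 * α * ρ) * zkm
      + (36 * Lp - 16 * Lp * s ^ 2 + 8 * s ^ 2 * α * ρ - 4 * s * α * ρ - 12 * α * ρ) * zmm
      + (4 * Lp - 2 * α * ρ) * hs
  have f1 : 4 * Tp - 8 * s * u1 + 8 * u1 = 14 * P * s * β * ρ + 2 * s * α * ρ := by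
    linear_combination (-12 + 8 * s + 16 * s * κ - 16 * s * μ - 24 * κ + 24 * μ) * Pf1
      + (9 - 21 * s + 16 * s ^ 2 - 4 * s ^ 3 - 8 * s ^ 3 * κ + 8 * s ^ 3 * μ + 32 * s ^ 2 * κ - 32 * s ^ 2 * μ - 42 * s * κ + 42 * s * μ + 18 * κ - 18 * μ) * ev
      + (1 - s) * eu
      + (-32 * s ^ 3 * α * κ ^ 2 * ρ + 64 * s ^ 3 * α * κ * μ * ρ - 32 * s ^ 3 * α * μ ^ 2 * ρ + 8 * s ^ 3 * α * ρ + 48 * s ^ 2 * α * κ ^ 2 * ρ - 96 * s ^ 2 * α * κ * μ * ρ + 48 * s ^ 2 * α * μ ^ 2 * ρ - 12 * s ^ 2 * α * ρ + 32 * s * α * κ ^ 2 * ρ - 64 * s * α * κ * μ * ρ + 32 * s * α * μ ^ 2 * ρ - 8 * s * α * ρ - 48 * α * κ ^ 2 * ρ + 96 * α * κ * μ * ρ - 48 * α * μ ^ 2 * ρ + 12 * α * ρ) * hn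
      + (-160 * s ^ 4 * α * ρ - 24 * s ^ 4 * β * ρ + 32 * s ^ 3 * α * κ * ρ - 64 * s ^ 3 * α * μ * ρ + 416 * s ^ 3 * α * ρ + 64 * s ^ 3 * β * ρ - 48 * s ^ 2 * α * κ * ρ + 96 * s ^ 2 * α * μ * ρ + 56 * s ^ 2 * α * ρ + 2 * s ^ 2 * β * ρ - 32 * s * α * κ * ρ + 64 * s * α * μ * ρ - 816 * s * α * ρ - 114 * s * β * ρ + 48 * α * κ * ρ - 96 * α * μ * ρ + 504 * α * ρ + 72 * β * ρ) * zPk
      + (160 * s ^ 4 * α * ρ + 24 * s ^ 4 * β * ρ + 32 * s ^ 3 * α * μ * ρ - 416 * s ^ 3 * α * ρ - 64 * s ^ 3 * β * ρ - 48 * s ^ 2 * α * μ * ρ - 56 * s ^ 2 * α * ρ - 2 * s ^ 2 * β * ρ - 32 * s * α * μ * ρ + 816 * s * α * ρ + 114 * s * β * ρ + 48 * α * μ * ρ - 504 * α * ρ - 72 * β * ρ) * zPm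
      + (144 * Tp - 64 * Tp * s ^ 2 - 48 * s ^ 4 * α * ρ + 96 * s ^ 3 * α * ρ + 52 * s ^ 2 * α * ρ - 196 * s * α * ρ + 96 * α * ρ) * zkk
      + (-288 * Tp + 128 * Tp * s ^ 2 + 96 * s ^ 4 * α * ρ - 192 * s ^ 3 * α * ρ - 104 * s ^ 2 * α * ρ + 392 * s * α * ρ - 192 * α * ρ) * zkm
      + (144 * Tp - 64 * Tp * s ^ 2 - 48 * s ^ 4 * α * ρ + 96 * s ^ 3 * α * ρ + 52 * s ^ 2 * α * ρ - 196 * s * α * ρ + 96 * α * ρ) * zmm
      + (-80 * P * s ^ 2 * α * ρ - 12 * P * s ^ 2 * β * ρ + 200 * P * s * α * ρ + 32 * P * s * β * ρ - 120 * P * α * ρ - 6 * P * β * ρ + 16 * Tp + 12 * s ^ 2 * α * ρ - 24 * s * α * ρ + 14 * α * ρ) * hs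
  exact ⟨by linear_combination f0, by linear_combination f1⟩

end Pool.Agent.MP_025f5d_nt.Q44

end

-- part MP_025f5d_nt.Q44.Core
section

set_option linter.unusedSectionVars false

namespace Pool.Agent.MP_025f5d_nt.Q44

open Finset Polynomial

/-- First sum in a ring. -/
def sA (R : Type*) [CommRing R] (p n : ℕ) : R := ∑ k ∈ range p, (pell k : R) * (-2) ^ k * Lc R n k

/-- Second sum in a ring. -/
def sB (R : Type*) [CommRing R] (p n : ℕ) : R :=
  ∑ k ∈ range p, (k : R) * (pell k : R) * (-2) ^ k * Lc R n k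

section lift
variable {R F : Type*} [CommRing R] [Field F] {p : ℕ} [Fact p.Prime] [CharP F p]
  (φ : R →+* F) (hker : ∀ a b : R, φ a = 0 → φ b = 0 → a * b = 0)
  (hunit : ∀ a : R, φ a ≠ 0 → IsUnit a)

include hker hunit in
theorem setup {n : ℕ} (hp : p = 2 * n + 1) (s i8 σ η ηi α : R) (hs : s ^ 2 = 2) (h8 : 8 * i8 = 1)
    (hσ : (-1) ^ n = σ) (hη : η * ηi = 1) (h2n : (-1 : F) ^ n * 2 ^ n = 1)
    (hQ : (φ s * (φ s - 1)) ^ n = φ η)
    (hG : 4 * GG n i8 * (4 + ((-1) ^ n * 2 ^ n - 1) * 2) = 16 * α) :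
    ∃ κ μ d1 d2 u1 v1 w1 E G Lp Tp w Y Z : R, φ κ = 0 ∧ φ μ = 0 ∧ φ d1 = 0 ∧ φ d2 = 0 ∧
      E * (σ * (1 + 2 * κ)) = (η * (1 + μ)) ^ 2 ∧ 4 * G * (4 + 2 * κ * 2) = 16 * α ∧
      w = (σ * (1 + 2 * κ)) * (η * (1 + μ)) * G ∧
      Y = 2 * (s - 1) * (σ * (1 + 2 * κ)) ^ 2 * E ∧ Z = (s - 1) ^ 2 * E ^ 2 ∧
      2 * w = (σ * (1 + 2 * κ)) * ((η * α + d1) + (η * α + d2)) ∧
      Y * (3 * (η * α + d1) - 2 * (σ * w)) + Z * (3 * (η * α + d1) - 2 * (η * α + d2)) =
        (η * α + d1) ∧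
      2 * (2 * (s - 1)) * (1 - 2 * (s - 1)) * ((η * α + d1) * v1 - u1 * (η * α + d2))
        + p * (2 * (s - 1)) * (η * α + d1) ^ 2 = p * Y ∧
      2 * (s - 1) ^ 2 * (1 - (s - 1) ^ 2) * (σ * (η * α + d1) * w1 - -(σ * u1) * w)
        + p * (s - 1) ^ 2 * (σ * (η * α + d1)) ^ 2 = p * Z ∧
      4 * (s - 1) ^ 2 * s * w1 = (σ * (1 + 2 * κ)) * ((2 - s) * (2 * (s - 1)) * (u1 + v1)
        + 2 * n * (s - 1) * ((η * α + d1) + (η * α + d2))) ∧
      E * Lp = (η * α + d2) ∧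
      E * Tp = 2 * (s - 1) * ((1 - 2 * (s - 1)) * v1 + n * (η * α + d2)) ∧
      2 * s * sA R p n = Lp - (η * α + d1) ∧ 2 * s * sB R p n = Tp - 2 * (s - 1) * u1 := by
  have hσ2 : σ ^ 2 = 1 := by rw [← hσ, ← pow_mul, mul_comm, pow_mul]; simp only [even_two, Even.neg_pow, one_pow]
  have two : (2 : F) ≠ 0 := by
    have := cast_ne_zero_of_lt (F := F) (p := p) (k := 2) (by omega)
      (by have := (Fact.out : p.Prime).two_le; omega)
    simpa only [ne_eq, Nat.cast_ofNat] using this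
  obtain ⟨κ, hκ, k0⟩ : ∃ κ : R, (2 : R) ^ n = σ * (1 + 2 * κ) ∧ φ κ = 0 :=
    ⟨4 * i8 * ((-1) ^ n * 2 ^ n - 1), by
      rw [hσ]; linear_combination -(2 ^ n) * hσ2 - σ * (σ * 2 ^ n - 1) * h8,
      by simp only [map_mul, map_ofNat, map_sub, map_pow, map_neg, map_one, h2n, sub_self, mul_zero]⟩
  obtain ⟨μ, hμ, m0⟩ : ∃ μ : R, (s * (s - 1)) ^ n = η * (1 + μ) ∧ φ μ = 0 :=
    ⟨(s * (s - 1)) ^ n * ηi - 1, by linear_combination -(s * (s - 1)) ^ n * hη, by
      have := congrArg φ hη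
      simp only [map_mul, map_one] at this
      simp only [map_sub, map_mul, map_pow, map_one, hQ, this, sub_self]⟩
  have hG' : 4 * GG n i8 * (4 + 2 * κ * 2) = 16 * α := by
    rw [hσ, hκ] at hG
    linear_combination hG - 8 * GG n i8 * (1 + 2 * κ) * hσ2
  have hz : 1 - 2 * (s - 1) = (s - 1) ^ 2 := by linear_combination -hs
  obtain ⟨La, La1⟩ := landen φ hker hunit hp s hs
  have hw := NN_GG n s i8 hs h8
  rw [mul_pow, hκ, hμ] at hw
  rw [hκ] at La La1
  set y := 2 * (s - 1) with hy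
  set u := (LL R n).eval y with hu
  set v := (NN R n).eval y with hv
  have huv : φ u = φ v := by
    rw [hu, hv, ← coe_aeval_eq_eval, aeval_LL, aeval_NN, map_Lam, map_Lam]
    simpa only [map_neg, map_sub, map_one] using Lam_mod_one hp (φ y)
  have hu0 : φ (u - η * α) = 0 := by
    have a1 := congrArg φ La
    have a2 := congrArg φ hG'
    have a3 := congrArg φ hσ2
    rw [hw] at a1
    simp only [map_mul, map_add, map_one, map_ofNat, k0, m0, ← huv, map_pow] at a1 a2 a3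
    rw [map_sub, map_mul]
    apply mul_left_cancel₀ (pow_ne_zero 5 two)
    linear_combination -16 * φ σ * a1 + 2 * φ η * a2
      - 32 * (φ u - φ η * φ (GG n i8)) * a3
  have hv0 : φ (v - η * α) = 0 := by rw [map_sub, ← huv, ← map_sub, hu0]
  have hxy : (1 - -2 * (1 + s)) * (1 - y) = 1 := by rw [hy]; linear_combination -4 * hs
  have Pf0 := pfaff0 n _ _ hxy
  have Pf1 := pfaff1 n _ _ hxy
  have W := wr_LN φ hker hunit hp
  have W1 := congrArg (eval y) W
  have W2 := congrArg (eval ((s - 1) ^ 2)) W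
  have Eu := congrArg (eval y) (euler φ hker hunit hp)
  have c1 := congrArg (eval y) (LL_comp (R := R) n)
  have c2 := congrArg (fun q => eval y (derivative q)) (LL_comp (R := R) n)
  have hdσ : derivative ((-1 : R[X]) ^ n) = 0 := by simp only [derivative_pow, map_natCast, derivative_neg, derivative_one, neg_zero, mul_zero]
  simp only [derivative_comp, derivative_mul, hdσ, derivative_sub, derivative_one,
    derivative_X] at c2
  simp only [eval_add, eval_mul, eval_sub, eval_pow, eval_X, eval_one, eval_natCast, eval_ofNat,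
    eval_comp, eval_neg, eval_zero, hσ] at W1 W2 Eu c1 c2
  rw [hz] at Eu c1 c2
  have c3 : (derivative (LL R n)).eval ((s - 1) ^ 2) = -(σ * (derivative (LL R n)).eval y) := by
    linear_combination -c2
  rw [c1, c3] at W2
  have hsub : range (n + 1) ⊆ range p := Finset.range_subset_range.mpr (by omega)
  refine ⟨κ, μ, u - η * α, v - η * α, (derivative (LL R n)).eval y, (derivative (NN R n)).eval y,
    (derivative (NN R n)).eval ((s - 1) ^ 2), ((s - 1) ^ 2) ^ n, GG n i8,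
    (LL R n).eval (-2 * (1 + s)), -2 * (1 + s) * (derivative (LL R n)).eval (-2 * (1 + s)),
    (NN R n).eval ((s - 1) ^ 2), y ^ p, ((s - 1) ^ 2) ^ p, k0, m0, hu0, hv0, ?_, hG', hw, ?_, ?_,
    ?_, ?_, ?_, ?_, ?_, ?_, ?_, ?_, ?_⟩
  · rw [← hκ, ← hμ, ← mul_pow, ← pow_mul, mul_comm n 2, pow_mul]
    congr 1; linear_combination -(s - 1) ^ 2 * hs
  · rw [← hκ, hp, hy, pow_succ, mul_pow, mul_comm 2 n, pow_mul 2, mul_comm n 2, pow_mul]; ring
  · rw [hp, pow_succ, mul_comm 2 n, pow_mul]; ring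
  · simpa only [add_sub_cancel] using La
  · simpa only [add_sub_cancel] using Eu
  · simpa only [add_sub_cancel] using W1
  · simpa only [add_sub_cancel, neg_mul, sub_neg_eq_add] using W2
  · simpa only [add_sub_cancel] using La1
  · rw [← hz]; simpa only [neg_mul, add_sub_cancel] using Pf0
  · rw [← hz, Pf1, hv]; ring
  · rw [add_sub_cancel, hu, eval_LL, eval_LL, ← Finset.sum_sub_distrib, sA, Finset.mul_sum,
      ← Finset.sum_subset hsub fun k _ hk => by
        simp only [Lc, Nat.choose_eq_zero_of_lt (show n < k by simpa using hk), Nat.cast_zero, mul_zero, zero_mul]]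
    refine Finset.sum_congr rfl fun k _ => ?_
    rw [show y = -2 * (1 - s) by rw [hy]; ring, mul_pow, mul_pow]
    linear_combination (-2) ^ k * Lc R n k * pell_binet s hs k
  · rw [eval_LL', eval_LL', ← Finset.sum_sub_distrib, sB, Finset.mul_sum,
      ← Finset.sum_subset hsub fun k _ hk => by
        simp only [Lc, Nat.choose_eq_zero_of_lt (show n < k by simpa using hk), Nat.cast_zero, mul_zero, zero_mul]]
    refine Finset.sum_congr rfl fun k _ => ?_
    rw [show y = -2 * (1 - s) by rw [hy]; ring, mul_pow, mul_pow]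
    linear_combination k * (-2) ^ k * Lc R n k * pell_binet s hs k

include hunit in
theorem units (hp : p ≠ 2) (s : R) (hs : s ^ 2 = 2) :
    IsUnit (2 : R) ∧ IsUnit (2 * s) ∧ ∃ i8 : R, 8 * i8 = 1 := by
  have two : (2 : F) ≠ 0 := by
    have := cast_ne_zero_of_lt (F := F) (p := p) (k := 2) (by omega)
      (by have := (Fact.out : p.Prime).two_le; omega)
    simpa only [ne_eq, Nat.cast_ofNat] using this
  have h2 : IsUnit (2 : R) := hunit _ (by rwa [map_ofNat])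
  obtain ⟨i, hi⟩ := (h2.pow 3).exists_right_inv
  refine ⟨h2, IsUnit.of_mul_eq_one (2 * s * i) ?_, i, ?_⟩
  · linear_combination hi + 4 * i * hs
  · linear_combination hi

include hker hunit in
theorem gen1 {r : ℕ} (hp : p = 8 * (r + 1) + 1) (s A : R) (hs : s ^ 2 = 2)
    (hA : 4 * A = ((p : R) - 1) *
      (3 * ((4 * (r + 1)).choose (r + 1) : ℕ) - ((12 * (r + 1)).choose (r + 1) : ℕ)
        - ((12 * (r + 1)).choose (3 * (r + 1)) : ℕ) - ((12 * (r + 1)).choose (5 * (r + 1)) : ℕ))) :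
    sA R p (4 * (r + 1)) = 0 ∧
      4 * A * sB R p (4 * (r + 1)) = (-1) ^ (r + 1) * (2 * A ^ 2 - p) := by
  obtain ⟨h2, h2s, i8, h8⟩ := units (p := p) φ hunit (by omega) s hs
  have hp' : p = 2 * (4 * (r + 1)) + 1 := by omega
  obtain ⟨s1, s2⟩ := (signs (φ s) (by rw [← map_pow, hs, map_ofNat]) (r + 1) _ hp').1 hp
  have hev : Even (4 * (r + 1)) := ⟨2 * (r + 1), by ring⟩
  have h2n : (-1 : F) ^ (4 * (r + 1)) * 2 ^ (4 * (r + 1)) = 1 := by rw [s1, hev.neg_one_pow]; simp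
  have hG := GG_val φ hker hunit hp' (r := r + 1) (Or.inl rfl) i8 h8 (d := 3 * (r + 1))
    (by ring) h2n
  obtain ⟨a1, a2⟩ := alpha1 φ hker hunit hp A hA _ rfl
  set Z := (((4 * (r + 1)).choose (r + 1) : ℕ) : R) *
      (16 - 2 * p * (4 * Q44.hs R (4 * (r + 1)) - 3 * Q44.hs R (3 * (r + 1)) - Q44.hs R (r + 1))) with hZ
  have hZu : IsUnit Z := by
    have : φ Z = ((4 * (r + 1)).choose (r + 1) : ℕ) * φ 2 ^ 4 := by
      simp [hZ, map_ofNat]; norm_num only [true_or]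
    exact hunit _ (this ▸ mul_ne_zero (choose_ne (p := p) (by omega) (by omega))
      (pow_ne_zero _ (h2.map φ).ne_zero))
  obtain ⟨b, hb⟩ := hZu.exists_right_inv
  have hρ : ((-1 : R) ^ (r + 1)) ^ 2 = 1 := by rw [← pow_mul, mul_comm, pow_mul]; simp only [even_two, Even.neg_pow, one_pow]
  have hZα : Z = 16 * (4 * i8 ^ 2 * Z) := by linear_combination -(8 * i8 + 1) * Z * h8
  obtain ⟨κ, μ, d1, d2, u1, v1, w1, E, G, Lp, Tp, w, Y, Z', k, m, x1, x2, e1, e2, e3, e4, e5, e6,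
    e7, e8, e9, e10, e11, e12, f1, f2⟩ := setup φ hker hunit hp' s i8 1 ((-1) ^ (r + 1))
    ((-1) ^ (r + 1)) (4 * i8 ^ 2 * Z) hs h8 hev.neg_one_pow (by rw [← sq, hρ]) h2n
    (by simpa only [map_pow, map_neg, map_one] using s2) (hG.trans hZα)
  have P0 := phi_p (p := p) φ
  obtain ⟨g1, g2⟩ := fin1 s _ _ (16 * b) p κ μ _ d1 d2 u1 v1 w1 E G Lp Tp w Y Z' h2 hs hρ
    (by linear_combination hb + (8 * i8 + 1) * Z * b * h8) (by rw [hp']; push_cast; ring)
    (hker _ _ P0 P0) (hker _ _ P0 k) (hker _ _ P0 m) (hker _ _ P0 x1) (hker _ _ P0 x2)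
    (hker _ _ k k) (hker _ _ k m) (hker _ _ k x1) (hker _ _ k x2) (hker _ _ m m) (hker _ _ m x1)
    (hker _ _ m x2) e1 e2 e3 e4 e5 e6 e7 e8 e9 e10 e11 e12
  refine ⟨h2s.mul_right_eq_zero.mp (f1.trans g1), ?_⟩
  have g3 : 4 * sB R p (4 * (r + 1)) = -(-1) ^ (r + 1) * (4 * i8 ^ 2 * Z - p * (16 * b)) :=
    h2s.mul_left_cancel (by linear_combination 4 * f2 + g2)
  apply (h2.pow 5).mul_left_cancel
  linear_combination 32 * A * g3 + (-1) ^ (r + 1) * (a1 + 16 * b * a2 - 16 * p * hb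
    + 2 * A * hZα)

include hker hunit in
theorem gen3 {r : ℕ} (hp : p = 8 * (r + 1) + 3) (s A : R) (hs : s ^ 2 = 2)
    (hA : 4 * A = ((p : R) + 1) *
      (3 * ((4 * r + 5).choose (r + 1) : ℕ) - ((12 * r + 15).choose r : ℕ)
        - ((12 * r + 15).choose (3 * r + 3) : ℕ) - ((12 * r + 15).choose (5 * r + 6) : ℕ))) :
    2 * A * sA R p (4 * r + 5) = (-1) ^ (r + 1) * (4 * A ^ 2 - p) ∧
      4 * A * sB R p (4 * r + 5) = (-1) ^ (r + 1) * (2 * A ^ 2 + 3 * p) := by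
  obtain ⟨h2, h2s, i8, h8⟩ := units (p := p) φ hunit (by omega) s hs
  have hp' : p = 2 * (4 * r + 5) + 1 := by omega
  obtain ⟨s1, s2⟩ := (signs (φ s) (by rw [← map_pow, hs, map_ofNat]) (r + 1) _ hp').2 hp
  have hev : Odd (4 * r + 5) := ⟨2 * r + 2, by ring⟩
  have h2n : (-1 : F) ^ (4 * r + 5) * 2 ^ (4 * r + 5) = 1 := by rw [s1, hev.neg_one_pow]; simp
  have hG := GG_val φ hker hunit hp' (r := r + 1) (Or.inr (by ring)) i8 h8 (d := 3 * r + 4)
    (by ring) h2n
  obtain ⟨a1, a2⟩ := alpha3 φ hker hunit hp A hA _ rfl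
  set Z := (((4 * r + 5).choose (r + 1) : ℕ) : R) *
      (16 - 2 * p * (4 * Q44.hs R (4 * r + 5) - 3 * Q44.hs R (3 * r + 4) - Q44.hs R (r + 1))) with hZ
  have hZu : IsUnit Z := by
    have : φ Z = ((4 * r + 5).choose (r + 1) : ℕ) * φ 2 ^ 4 := by
      simp [hZ, map_ofNat]; norm_num only [true_or]
    exact hunit _ (this ▸ mul_ne_zero (choose_ne (p := p) (by omega) (by omega))
      (pow_ne_zero _ (h2.map φ).ne_zero))
  obtain ⟨b, hb⟩ := hZu.exists_right_inv
  have hρ : ((-1 : R) ^ (r + 1)) ^ 2 = 1 := by rw [← pow_mul, mul_comm, pow_mul]; simp only [even_two, Even.neg_pow, one_pow]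
  have hZα : Z = 16 * (4 * i8 ^ 2 * Z) := by linear_combination -(8 * i8 + 1) * Z * h8
  obtain ⟨κ, μ, d1, d2, u1, v1, w1, E, G, Lp, Tp, w, Y, Z', k, m, x1, x2, e1, e2, e3, e4, e5, e6,
    e7, e8, e9, e10, e11, e12, f1, f2⟩ := setup φ hker hunit hp' s i8 (-1)
    (-((-1) ^ (r + 1) * (s + 1))) (-((-1) ^ (r + 1) * (s - 1))) (4 * i8 ^ 2 * Z) hs h8
    hev.neg_one_pow (by linear_combination (s ^ 2 - 1) * hρ + hs) h2n
    (by simpa only [map_neg, map_mul, map_pow, map_one, map_add] using s2) (hG.trans hZα)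
  have P0 := phi_p (p := p) φ
  obtain ⟨g1, g2⟩ := fin3 s _ _ (16 * b) p κ μ _ d1 d2 u1 v1 w1 E G Lp Tp w Y Z' h2 hs hρ
    (by linear_combination hb + (8 * i8 + 1) * Z * b * h8) (by rw [hp']; push_cast; ring)
    (hker _ _ P0 P0) (hker _ _ P0 k) (hker _ _ P0 m) (hker _ _ P0 x1) (hker _ _ P0 x2)
    (hker _ _ k k) (hker _ _ k m) (hker _ _ k x1) (hker _ _ k x2) (hker _ _ m m) (hker _ _ m x1)
    (hker _ _ m x2) e1 e2 e3 e4 e5 e6 e7 e8 e9 e10 e11 e12
  have g0 := h2s.mul_left_cancel (f1.trans g1)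
  have g3 : 4 * sB R p (4 * r + 5) = (-1) ^ (r + 1) * (4 * i8 ^ 2 * Z + 7 * p * (16 * b)) :=
    h2s.mul_left_cancel (by linear_combination 4 * f2 + g2)
  constructor
  · apply (h2.pow 4).mul_left_cancel
    linear_combination 32 * A * g0 + (-1) ^ (r + 1) * (a1 - 2 * A * hZα)
  · apply (h2.pow 5).mul_left_cancel
    linear_combination 32 * A * g3 + (-1) ^ (r + 1) * (a1 - 112 * b * a2 + 112 * p * hb
      - 2 * A * hZα)

end lift

/-- first sum modulo the square of p -/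
def sg1 (p : ℕ) : ZMod (p ^ 2) := ∑ k ∈ range p, (pell k : ZMod (p ^ 2)) * (-2) ^ k * Lc _ (p / 2) k

/-- second sum modulo the square of p -/
def sg2 (p : ℕ) : ZMod (p ^ 2) :=
  ∑ k ∈ range p, (k : ZMod (p ^ 2)) * (pell k : ZMod (p ^ 2)) * (-2) ^ k * Lc _ (p / 2) k

theorem core1 (p r : ℕ) (hp : p.Prime) (h : p = 8 * r + 1) (A : ZMod (p ^ 2))
    (hA : 4 * A = ((p : ZMod (p ^ 2)) - 1) *
        (3 * (((4 * r).choose r : ℕ) : ZMod (p ^ 2)) - (((12 * r).choose r : ℕ) : ZMod (p ^ 2)) - (((12 * r).choose (3 * r) : ℕ) : ZMod (p ^ 2))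
          - (((12 * r).choose (5 * r) : ℕ) : ZMod (p ^ 2)))) :
    sg1 p = 0 ∧ 4 * A * sg2 p = (-1) ^ r * (2 * A ^ 2 - (p : ZMod (p ^ 2))) := by
  have := Fact.mk hp
  cases r with
  | zero => exact absurd hp (by rw [h]; norm_num)
  | succ r =>
    obtain ⟨s, hs⟩ := exists_sqrt_two (p := p) (by omega) (Or.inl (by omega))
    have := gen1 (red p) red_ker red_unit h s A hs hA
    rwa [sg1, sg2, show p / 2 = 4 * (r + 1) by omega]

/-- Reduction on the quadratic extension. -/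
def redQ (p : ℕ) : QuadraticAlgebra (ZMod (p ^ 2)) 2 0 →+* QuadraticAlgebra (ZMod p) 2 0 where
  toFun z := ⟨red p z.re, red p z.im⟩
  map_one' := by ext <;> simp [QuadraticAlgebra.re_one, QuadraticAlgebra.im_one]
  map_zero' := by ext <;> simp
  map_add' a b := by ext <;> simp only [QuadraticAlgebra.re_add, map_add, QuadraticAlgebra.im_add]
  map_mul' a b := by ext <;> simp only [QuadraticAlgebra.re_mul, map_add, map_mul, map_ofNat, QuadraticAlgebra.mk_mul_mk, zero_mul, add_zero, QuadraticAlgebra.im_mul]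

theorem core3 (p r : ℕ) (hp : p.Prime) (h : p = 8 * (r + 1) + 3) (A : ZMod (p ^ 2))
    (hA : 4 * A = ((p : ZMod (p ^ 2)) + 1) *
        (3 * (((4 * r + 5).choose (r + 1) : ℕ) : ZMod (p ^ 2)) - (((12 * r + 15).choose r : ℕ) : ZMod (p ^ 2))
          - (((12 * r + 15).choose (3 * r + 3) : ℕ) : ZMod (p ^ 2)) - (((12 * r + 15).choose (5 * r + 6) : ℕ) : ZMod (p ^ 2)))) :
    2 * A * sg1 p = (-1) ^ (r + 1) * (4 * A ^ 2 - (p : ZMod (p ^ 2))) ∧
      4 * A * sg2 p = (-1) ^ (r + 1) * (2 * A ^ 2 + 3 * (p : ZMod (p ^ 2))) := by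
  have := Fact.mk hp
  have : Fact (∀ x : ZMod p, x ^ 2 ≠ 2 + 0 * x) := ⟨fun x hx => by
    have := (ZMod.exists_sq_eq_two_iff (p := p) (by omega)).mp ⟨x, by linear_combination -hx⟩
    omega⟩
  have : CharP (QuadraticAlgebra (ZMod p) 2 0) p :=
    charP_of_injective_algebraMap (algebraMap (ZMod p) _).injective p
  have hker : ∀ a b, redQ p a = 0 → redQ p b = 0 → a * b = 0 := by
    intro a b ha hb
    have a1 : red p a.re = 0 := congrArg QuadraticAlgebra.re ha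
    have a2 : red p a.im = 0 := congrArg QuadraticAlgebra.im ha
    have b1 : red p b.re = 0 := congrArg QuadraticAlgebra.re hb
    have b2 : red p b.im = 0 := congrArg QuadraticAlgebra.im hb
    ext <;> simp [red_ker _ _ a1 b1, red_ker _ _ a1 b2, red_ker _ _ a2 b1, mul_assoc,
      red_ker _ _ a2 b2]
  have hunit : ∀ a, redQ p a ≠ 0 → IsUnit a := by
    intro a ha
    obtain ⟨x, hx⟩ := red_surj (redQ p a)⁻¹.re
    obtain ⟨y, hy⟩ := red_surj (redQ p a)⁻¹.im
    have hb : redQ p ⟨x, y⟩ = (redQ p a)⁻¹ := QuadraticAlgebra.ext hx hy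
    have h : redQ p (a * ⟨x, y⟩ - 1) = 0 := by
      rw [map_sub, map_mul, hb, mul_inv_cancel₀ ha]; simp
    exact IsUnit.of_mul_eq_one (⟨x, y⟩ * (2 - a * ⟨x, y⟩)) (by linear_combination -hker _ _ h h)
  let f := algebraMap (ZMod (p ^ 2)) (QuadraticAlgebra (ZMod (p ^ 2)) 2 0)
  have hf : Function.Injective f := QuadraticAlgebra.algebraMap_injective
  obtain ⟨g1, g2⟩ := gen3 (redQ p) hker hunit h QuadraticAlgebra.omega (f A)
    (by ext <;> simp [pow_two, QuadraticAlgebra.re_ofNat, QuadraticAlgebra.im_ofNat])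
    (by simpa only [map_mul, map_add, map_sub, map_ofNat, map_natCast, map_one] using congrArg f hA)
  rw [sg1, sg2, show p / 2 = 4 * r + 5 by omega]
  constructor <;> apply hf
  · simpa only [sA, map_mul, map_add, map_sub, map_ofNat, map_natCast, map_intCast, map_one, map_pow, map_neg,
      map_sum, map_Lc] using g1
  · simpa only [sB, map_mul, map_add, map_sub, map_ofNat, map_natCast, map_intCast, map_one, map_pow, map_neg,
      map_sum, map_Lc] using g2

end Pool.Agent.MP_025f5d_nt.Q44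

end

-- part MP_025f5d_nt.Q44.BlockA
section

/-! Block A of the elementary plan: a character sum over a cyclic group of order `p - 1` or `p + 1`
gives `p = A ^ 2 + 2 * B ^ 2`, and Teichmueller lifts give `A` modulo `p ^ 2`. -/

set_option autoImplicit false
set_option linter.unusedSectionVars false

namespace Pool.Agent.MP_025f5d_nt.Q44

open Finset

theorem sum_shift {g : ℕ → ℤ} {M : ℕ} (h : ∀ j, g (j + M) = g j) (a : ℕ) :
    ∑ j ∈ range M, g (a + j) = ∑ j ∈ range M, g j := by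
  induction a with
  | zero => simp
  | succ a ih =>
    have h1 := sum_range_succ (fun j => g (a + j)) M
    have h2 := sum_range_succ' (fun j => g (a + j)) M
    simp only [h a, add_zero] at h1 h2
    rw [← ih]
    simp only [show ∀ j, a + 1 + j = a + (j + 1) from fun j => by ring]
    linarith only [h1, h2]

theorem sum_four (g : ℕ → ℤ) (M : ℕ) : ∑ m ∈ range (4 * M), g m =
    ∑ j ∈ range M, (g (4 * j) + g (4 * j + 1) + g (4 * j + 2) + g (4 * j + 3)) := by
  induction M with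
  | zero => simp
  | succ M ih =>
    rw [sum_range_succ, ← ih, show 4 * (M + 1) = 4 * M + 1 + 1 + 1 + 1 by ring]
    simp only [sum_range_succ]
    ring

theorem sum_pair {f : ℕ → ℤ} (s : ℕ) (h : ∀ j, 1 ≤ j → j ≤ s → f j = 1 ∨ f j = -1) :
    (∑ j ∈ range s, f (j + 1)) % 2 = s % 2 := by
  induction s with
  | zero => simp
  | succ s ih =>
    have h1 := ih fun j h1 h2 => h j h1 (by omega)
    rw [sum_range_succ]
    rcases h (s + 1) (by omega) le_rfl with h2 | h2 <;> rw [h2] <;> push_cast <;> omega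

/-- A sum of binomial coefficients along an arithmetic progression. -/
def EE (M m : ℕ) : ℕ :=
  ∑ i ∈ range (m + 1), if (2 * M : ℤ) ∣ M + m - 2 * i then m.choose i else 0

theorem EE_eq {M m a k : ℕ} (ha : a < M) (hd : (2 * M : ℤ) ∣ M + m - 2 * a) (h1 : m < a + k * M)
    (h2 : a + k * M ≤ m + M) : EE M m = ∑ l ∈ range k, m.choose (a + l * M) := by
  rw [EE, ← sum_filter]
  symm
  refine sum_bij (fun l _ => a + l * M) (fun l hl => mem_filter.mpr ⟨mem_range.mpr ?_, ?_⟩)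
    (fun l _ l' _ h => ?_) (fun i hi => ?_) fun _ _ => rfl
  · have := Nat.mul_le_mul_right M (Nat.succ_le_of_lt (mem_range.mp hl))
    rw [Nat.succ_mul] at this
    omega
  · obtain ⟨e, he⟩ := hd
    exact ⟨e - l, by push_cast; linear_combination he⟩
  · exact Nat.eq_of_mul_eq_mul_right (by omega) (Nat.add_left_cancel h)
  · obtain ⟨h3, c, hc⟩ := mem_filter.mp hi
    obtain ⟨e, he⟩ := hd
    have h4 : (i : ℤ) = a + (e - c) * M := by linarith only [hc, he]
    have h5 : 0 ≤ e - c := by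
      by_contra h
      have : (e - c) * M ≤ -1 * M := mul_le_mul_of_nonneg_right (by omega) (by omega)
      omega
    obtain ⟨l, hl⟩ := Int.eq_ofNat_of_zero_le h5
    rw [hl] at h4
    have h6 : a + l * M = i := by exact_mod_cast h4.symm
    refine ⟨l, mem_range.mpr (Nat.lt_of_mul_lt_mul_right (a := M) ?_), h6⟩
    have := mem_range.mp h3
    omega

section field

variable {F : Type} [Field F]

open Classical in
/-- The quadratic character of the prime field, by Euler's criterion. -/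
noncomputable def Ph (n : ℕ) (z : F) : ℤ := if z = 0 then 0 else if z ^ n = 1 then 1 else -1

/-- The traces of the powers of `ω`. -/
noncomputable def yy (ω : F) (m : ℕ) : F := ω ^ m + ω⁻¹ ^ m

/-- The terms of the four character sums. -/
noncomputable def tm (n : ℕ) (ω : F) (k j : ℕ) : ℤ := (-1) ^ j * Ph n (yy ω 1 ^ k * yy ω (4 * j + k))

/-- The correlation sums. -/
noncomputable def CC (n M : ℕ) (ω : F) (d : ℕ) : ℤ :=
  ∑ m ∈ range (4 * M), Ph n (yy ω (m + 4 * d) / yy ω m)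

/-- The setting: `ω` has order `8 M` and `p = 4 M + 1` or `p = 4 M - 1`. -/
structure Set8 (p n M : ℕ) (ω : F) : Prop where
  prim : IsPrimitiveRoot ω (8 * M)
  pos : 0 < M
  pn : p = 2 * n + 1
  pM : p = 4 * M + 1 ∨ p + 1 = 4 * M
  ev : Even (M + n)

variable {p n M : ℕ} [hp : Fact p.Prime] [CharP F p] {ω : F}

theorem Ph_zero : Ph n (0 : F) = 0 := by simp [Ph]

theorem Ph_cases {z : F} (hz : z ≠ 0) : Ph n z = 1 ∨ Ph n z = -1 := by
  simp only [Ph, hz, if_false]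
  split_ifs <;> simp

namespace Set8

variable (S : Set8 p n M ω)
include S

theorem n_pos : 0 < n := by
  have := hp.out.two_le
  have := S.pn
  omega

theorem two_ne : (2 : F) ≠ 0 := by
  intro h
  have h1 := (CharP.cast_eq_zero_iff F p 2).mp (by exact_mod_cast h)
  have := Nat.le_of_dvd two_pos h1
  have := S.n_pos
  have := S.pn
  omega

theorem neg_ne : (-1 : F) ≠ 1 := fun h => S.two_ne (by linear_combination -h)

theorem pow_cases {z : F} (h : z ^ p = z) (hz : z ≠ 0) : z ^ n = 1 ∨ z ^ n = -1 := by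
  refine sq_eq_one_iff.mp ?_
  apply mul_right_cancel₀ hz
  rw [← pow_mul, ← pow_succ, one_mul, mul_comm, ← S.pn, h]

theorem Ph_cast {z : F} (h : z ^ p = z) : (Ph n z : F) = z ^ n := by
  by_cases hz : z = 0
  · simp [hz, Ph_zero, S.n_pos.ne']
  · rcases S.pow_cases h hz with h1 | h1 <;> simp [Ph, hz, h1, S.neg_ne]

theorem Ph_mul {a b : F} (ha : a ^ p = a) (hb : b ^ p = b) : Ph n (a * b) = Ph n a * Ph n b := by
  by_cases ha0 : a = 0
  · simp [ha0, Ph_zero]
  by_cases hb0 : b = 0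
  · simp [hb0, Ph_zero]
  rcases S.pow_cases ha ha0 with h1 | h1 <;> rcases S.pow_cases hb hb0 with h2 | h2 <;>
    simp [Ph, ha0, hb0, mul_pow, h1, h2, S.neg_ne]

theorem Ph_neg_one_pow (k : ℕ) {z : F} (hz : z ≠ 0) (h : z ^ n = (-1) ^ k) : Ph n z = (-1) ^ k := by
  rcases Nat.even_or_odd k with hk | hk <;> simp [Ph, hz, h, hk.neg_one_pow, S.neg_ne]

theorem ne_zero : ω ≠ 0 := S.prim.ne_zero (by have := S.pos; omega)

theorem half : ω ^ (4 * M) = -1 :=
  (S.prim.pow (a := 4 * M) (b := 2) (by have := S.pos; omega) (by ring)).eq_neg_one_of_two_right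

theorem yy_add (m : ℕ) : yy ω (m + 4 * M) = -yy ω m := by
  simp only [yy, pow_add, inv_pow, S.half]
  simp [add_comm]

theorem yy_refl {a b : ℕ} (h : a + b = 4 * M) : yy ω a = -yy ω b := by
  have h1 : ω ^ a * ω ^ b = -1 := by rw [← pow_add, h, S.half]
  have ha := pow_ne_zero a S.ne_zero
  have hb := pow_ne_zero b S.ne_zero
  simp only [yy, inv_pow]
  field_simp
  linear_combination (ω ^ a + ω ^ b) * h1

theorem yy_frob (m : ℕ) : yy ω m ^ p = (-1) ^ m * yy ω m := by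
  have h0 := S.ne_zero
  rw [yy, add_pow_char, ← pow_mul, ← pow_mul, mul_comm m, pow_mul, pow_mul, inv_pow]
  rcases S.pM with h | h
  · have : ω ^ p = -ω := by rw [h, pow_succ, S.half, neg_one_mul]
    rw [this, inv_neg, neg_pow, neg_pow ω⁻¹]; ring
  · have : ω ^ p = -ω⁻¹ := by
      apply mul_right_cancel₀ h0
      rw [← pow_succ, h, S.half, neg_mul, inv_mul_cancel₀ h0]
    rw [this, inv_neg, inv_inv, neg_pow, neg_pow ω]; ring

theorem yy_eq_zero {m : ℕ} (hm : m < 4 * M) : yy ω m = 0 ↔ m = 2 * M := by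
  have ha := pow_ne_zero m S.ne_zero
  have h1 : yy ω m = 0 ↔ ω ^ (2 * m) = ω ^ (4 * M) := by
    rw [S.half, yy, inv_pow, mul_comm, pow_mul]
    constructor
    · intro h
      field_simp at h
      linear_combination h
    · intro h
      field_simp
      linear_combination h
  rw [h1]
  exact ⟨fun h => by have := S.prim.pow_inj (by omega) (by omega) h; omega,
    fun h => by rw [h]; congr 1; ring⟩

theorem del_ne : yy ω 1 ≠ 0 := by
  rw [Ne, S.yy_eq_zero (by have := S.pos; omega)]; omega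

theorem tw_frob {k m : ℕ} (h : Even (k + m)) : (yy ω 1 ^ k * yy ω m) ^ p = yy ω 1 ^ k * yy ω m := by
  rw [mul_pow, ← pow_mul, mul_comm k, pow_mul, S.yy_frob, S.yy_frob, mul_pow, pow_one]
  have := h.neg_one_pow (α := F)
  rw [pow_add] at this
  linear_combination yy ω 1 ^ k * yy ω m * this

theorem rat_frob (m d : ℕ) : (yy ω (m + 4 * d) / yy ω m) ^ p = yy ω (m + 4 * d) / yy ω m := by
  rw [div_pow, S.yy_frob, S.yy_frob, pow_add, pow_mul, show (-1 : F) ^ 4 = 1 by norm_num, one_pow,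
    mul_one, mul_div_mul_left _ _ (pow_ne_zero _ (neg_ne_zero.mpr one_ne_zero))]

theorem del_sq : (yy ω 1 ^ 2) ^ p = yy ω 1 ^ 2 := by
  rw [← pow_mul, mul_comm, pow_mul, S.yy_frob]; ring

theorem Ph_del : Ph n (yy ω 1 ^ 2) = -1 := by
  refine (S.Ph_neg_one_pow 1 (pow_ne_zero 2 S.del_ne) ?_).trans (pow_one _)
  apply mul_right_cancel₀ S.del_ne
  rw [← pow_mul, ← pow_succ, ← S.pn, S.yy_frob]

theorem Ph_neg {z : F} (h : z ^ p = z) : Ph n (-z) = (-1) ^ M * Ph n z := by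
  have h1 : (-1 : F) ^ p = -1 := by rw [S.pn, pow_succ, pow_mul]; simp only [even_two, Even.neg_pow, one_pow, mul_neg, mul_one]
  rw [← neg_one_mul, S.Ph_mul h1 h, S.Ph_neg_one_pow n (by simp) rfl]
  have := S.ev.neg_one_pow (α := ℤ)
  have h2 : (-1 : ℤ) ^ n * (-1) ^ n = 1 := by rw [← mul_pow]; simp
  rw [pow_add] at this
  linear_combination (-(-1) ^ n * Ph n z) * this + (-1) ^ M * Ph n z * h2

theorem Ph_two : Ph n (yy ω 0) = (-1) ^ M := by
  have h0 := pow_ne_zero M S.ne_zero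
  have h4 : (ω ^ M) ^ 4 = -1 := by rw [← pow_mul, mul_comm, S.half]
  have h1 : yy ω M ^ 2 = yy ω 0 := by
    simp only [yy, inv_pow, pow_zero]
    field_simp
    linear_combination h4
  have h2 : yy ω 0 ≠ 0 := by rw [Ne, S.yy_eq_zero (by have := S.pos; omega)]; have := S.pos; omega
  refine S.Ph_neg_one_pow M h2 ?_
  have h3 : yy ω M ≠ 0 := fun h => h2 (by rw [← h1, h]; ring)
  apply mul_right_cancel₀ h3
  rw [← h1, ← pow_mul, ← pow_succ, ← S.pn, S.yy_frob]

theorem tm_per (k j : ℕ) : tm n ω k (j + M) = tm n ω k j := by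
  have h2 : (-1 : ℤ) ^ M * (-1) ^ M = 1 := by rw [← mul_pow]; simp
  rw [tm, tm, show 4 * (j + M) + k = 4 * j + k + 4 * M by ring, S.yy_add, mul_neg,
    S.Ph_neg (S.tw_frob ⟨2 * j + k, by ring⟩), pow_add]
  linear_combination (-1) ^ j * Ph n (yy ω 1 ^ k * yy ω (4 * j + k)) * h2

theorem tm_refl {k l j i : ℕ} (hk : k + l = 4) (h : j + i + 1 = M) :
    tm n ω k j = -((-1) ^ i * Ph n (yy ω 1 ^ k * yy ω (4 * i + l))) := by
  have h2 : (-1 : ℤ) ^ j * (-1) ^ j = 1 := by rw [← mul_pow]; simp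
  rw [tm, S.yy_refl (a := 4 * j + k) (b := 4 * i + l) (by omega), mul_neg,
    S.Ph_neg (S.tw_frob ⟨2 * i + 2, by omega⟩), ← h, pow_succ, pow_add]
  linear_combination (-(-1) ^ i * Ph n (yy ω 1 ^ k * yy ω (4 * i + l))) * h2

theorem sum_two : ∑ j ∈ range M, tm n ω 2 j = 0 := by
  have h : ∑ j ∈ range M, tm n ω 2 (M - 1 - j) = ∑ j ∈ range M, -tm n ω 2 j :=
    sum_congr rfl fun j hj => S.tm_refl (l := 2) rfl (by have := mem_range.mp hj; omega)
  rw [sum_range_reflect (tm n ω 2), sum_neg_distrib] at h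
  linarith

theorem sum_one : ∑ j ∈ range M, tm n ω 1 j = ∑ j ∈ range M, tm n ω 3 j := by
  rw [← sum_range_reflect (tm n ω 1)]
  refine sum_congr rfl fun j hj => ?_
  rw [S.tm_refl (l := 3) (i := j) rfl (by have := mem_range.mp hj; omega), tm,
    show yy ω 1 ^ 3 * yy ω (4 * j + 3) = yy ω 1 ^ 2 * (yy ω 1 ^ 1 * yy ω (4 * j + 3)) by ring,
    S.Ph_mul S.del_sq (S.tw_frob ⟨2 * j + 2, by ring⟩), S.Ph_del]
  ring

theorem tm_mul (k j d : ℕ) : tm n ω k j * tm n ω k (j + d) =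
    (-1) ^ d * Ph n (yy ω (4 * j + k + 4 * d) / yy ω (4 * j + k)) := by
  have h2 : (-1 : ℤ) ^ j * (-1) ^ j = 1 := by rw [← mul_pow]; simp
  by_cases h : yy ω (4 * j + k) = 0
  · simp only [tm, Int.reduceNeg, h, mul_zero, Ph_zero, zero_mul, div_zero]
  have h3 : Ph n (yy ω 1 ^ k * yy ω (4 * j + k)) ^ 2 = 1 := by
    rcases Ph_cases (n := n) (mul_ne_zero (pow_ne_zero k S.del_ne) h) with h | h <;> rw [h] <;> rfl
  rw [tm, tm, show yy ω 1 ^ k * yy ω (4 * (j + d) + k) = yy ω (4 * j + k + 4 * d) / yy ω (4 * j + k)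
    * (yy ω 1 ^ k * yy ω (4 * j + k)) by rw [show 4 * (j + d) + k = 4 * j + k + 4 * d by ring]; field_simp,
    S.Ph_mul (S.rat_frob _ _) (S.tw_frob ⟨2 * j + k, by ring⟩), pow_add]
  linear_combination (-1) ^ d * Ph n (yy ω (4 * j + k + 4 * d) / yy ω (4 * j + k)) *
    (Ph n (yy ω 1 ^ k * yy ω (4 * j + k)) ^ 2 * h2 + h3)

theorem sq_sum (k : ℕ) : (∑ j ∈ range M, tm n ω k j) ^ 2 = ∑ d ∈ range M, (-1) ^ d *
    ∑ j ∈ range M, Ph n (yy ω (4 * j + k + 4 * d) / yy ω (4 * j + k)) := by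
  simp only [mul_sum]
  rw [sum_comm, sq, sum_mul]
  refine sum_congr rfl fun j _ => ?_
  rw [← sum_shift (S.tm_per k) j, mul_sum]
  exact sum_congr rfl fun d _ => S.tm_mul k j d

theorem parseval : (∑ j ∈ range M, tm n ω 0 j) ^ 2 + 2 * (∑ j ∈ range M, tm n ω 1 j) ^ 2 =
    ∑ d ∈ range M, (-1) ^ d * CC n M ω d := by
  have h : (∑ j ∈ range M, tm n ω 0 j) ^ 2 + (∑ j ∈ range M, tm n ω 1 j) ^ 2 +
      (∑ j ∈ range M, tm n ω 2 j) ^ 2 + (∑ j ∈ range M, tm n ω 3 j) ^ 2 =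
      ∑ d ∈ range M, (-1) ^ d * CC n M ω d := by
    simp only [S.sq_sum, ← sum_add_distrib, ← mul_add, CC, sum_four, add_zero]
  rw [← h, S.sum_two, ← S.sum_one]
  ring

theorem CC_zero : CC n M ω 0 = 4 * M - 1 := by
  have hm : 2 * M ∈ range (4 * M) := mem_range.mpr (by have := S.pos; omega)
  rw [CC, ← add_sum_erase _ _ hm, (S.yy_eq_zero (mem_range.mp hm)).mpr rfl, div_zero, Ph_zero,
    zero_add, sum_congr rfl (g := fun _ => 1), sum_const, card_erase_of_mem hm, card_range,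
    nsmul_eq_mul, mul_one, Nat.cast_sub (by have := S.pos; omega)]
  · simp
  · intro m hm
    obtain ⟨h1, h2⟩ := mem_erase.mp hm
    have := (S.yy_eq_zero (mem_range.mp h2)).not.mpr h1
    simp [Ph, this]

open Polynomial in
theorem prime_field : ∃ K : Finset F, (∀ z, z ∈ K ↔ z ^ p = z) ∧ #K ≤ p ∧ ∑ z ∈ K, Ph n z = 0 := by
  classical
  have hd := FiniteField.X_pow_card_sub_X_natDegree_eq F hp.out.one_lt
  have h0 : (X ^ p - X : F[X]) ≠ 0 := FiniteField.X_pow_card_sub_X_ne_zero F hp.out.one_lt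
  have hm : ∀ z, z ∈ (X ^ p - X : F[X]).roots.toFinset ↔ z ^ p = z := fun z => by
    simp [h0, sub_eq_zero]
  refine ⟨_, hm, (Multiset.toFinset_card_le _).trans ((card_roots' _).trans hd.le), ?_⟩
  have hδ := pow_ne_zero 2 S.del_ne
  have h : ∑ z ∈ (X ^ p - X : F[X]).roots.toFinset, -Ph n z =
      ∑ z ∈ (X ^ p - X : F[X]).roots.toFinset, Ph n z := by
    refine sum_bij' (fun z _ => yy ω 1 ^ 2 * z) (fun z _ => (yy ω 1 ^ 2)⁻¹ * z) ?_ ?_ ?_ ?_ ?_
    · intro z hz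
      rw [hm] at hz ⊢
      rw [mul_pow, S.del_sq, hz]
    · intro z hz
      rw [hm] at hz ⊢
      rw [mul_pow, inv_pow, S.del_sq, hz]
    · intro z _; exact inv_mul_cancel_left₀ hδ z
    · intro z _; exact mul_inv_cancel_left₀ hδ z
    · intro z hz
      rw [S.Ph_mul S.del_sq ((hm z).mp hz), S.Ph_del, neg_one_mul]
  rw [sum_neg_distrib] at h
  linarith only [h]

theorem CC_pos {d : ℕ} (h0 : 0 < d) (hd : d < M) :
    CC n M ω d = if p = 4 * M + 1 then -2 else 0 := by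
  classical
  obtain ⟨K, hK, hc, hs⟩ := S.prime_field
  have hm : 2 * M ∈ range (4 * M) := mem_range.mpr (by omega)
  set α := ω ^ (4 * d) with hα
  have hα0 : α ≠ 0 := pow_ne_zero _ S.ne_zero
  have hα2 : α ^ 2 - 1 ≠ 0 := by
    rw [sub_ne_zero, hα, ← pow_mul]
    exact S.prim.pow_ne_one_of_pos_of_lt (by omega) (by omega)
  set μ : ℕ → F := fun m => yy ω (m + 4 * d) / yy ω m with hμ
  set T := (range (4 * M)).erase (2 * M) with hT
  have key : ∀ m ∈ T, μ m * (α * ((ω ^ m) ^ 2 + 1)) = α ^ 2 * (ω ^ m) ^ 2 + 1 := by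
    intro m hm
    obtain ⟨h1, h2⟩ := mem_erase.mp hm
    have h3 := (S.yy_eq_zero (mem_range.mp h2)).not.mpr h1
    have h4 := pow_ne_zero m S.ne_zero
    simp only [hμ]
    rw [div_mul_eq_mul_div, div_eq_iff h3]
    simp only [yy, pow_add, inv_pow, ← hα]
    field_simp
  have hinj : Set.InjOn μ T := by
    intro a ha b hb hab
    have h1 := key a ha
    have h2 := key b hb
    rw [hab] at h1
    have h3 : (α ^ 2 - 1) * ((ω ^ a) ^ 2 - (ω ^ b) ^ 2) = 0 := by
      linear_combination (-((ω ^ b) ^ 2 + 1)) * h1 + ((ω ^ a) ^ 2 + 1) * h2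
    have h4 := sub_eq_zero.mp ((mul_eq_zero.mp h3).resolve_left hα2)
    rw [← pow_mul, ← pow_mul] at h4
    have := mem_range.mp (mem_erase.mp ha).2
    have := mem_range.mp (mem_erase.mp hb).2
    have := S.prim.pow_inj (by omega) (by omega) h4
    omega
  have hsum : CC n M ω d = ∑ z ∈ T.image μ, Ph n z := by
    rw [sum_image hinj, CC, ← add_sum_erase _ _ hm, (S.yy_eq_zero (mem_range.mp hm)).mpr rfl,
      div_zero, Ph_zero, zero_add]
  have hcard : #(T.image μ) = 4 * M - 1 := by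
    rw [card_image_of_injOn hinj, card_erase_of_mem hm, card_range]
  have hsub : T.image μ ⊆ K := by
    intro z hz
    obtain ⟨m, _, rfl⟩ := mem_image.mp hz
    exact (hK _).mpr (S.rat_frob m d)
  split_ifs with h
  · have hn : n = 2 * M := by have := S.pn; omega
    have h1 : α ^ n = 1 := by
      rw [hα, ← pow_mul, hn, show 4 * d * (2 * M) = 8 * M * d by ring, pow_mul, S.prim.pow_eq_one,
        one_pow]
    have h2 : α ^ p = α := by rw [S.pn, pow_succ, mul_comm 2, pow_mul, h1, one_pow, one_mul]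
    have n1 : α⁻¹ ∉ T.image μ := by
      intro hz
      obtain ⟨m, hm, hz⟩ := mem_image.mp hz
      have h3 := key m hm
      rw [hz, inv_mul_cancel_left₀ hα0] at h3
      exact mul_ne_zero hα2 (pow_ne_zero 2 (pow_ne_zero m S.ne_zero)) (by linear_combination -h3)
    have n2 : α ∉ insert α⁻¹ (T.image μ) := by
      intro hz
      rcases mem_insert.mp hz with hz | hz
      · apply hα2
        field_simp at hz
        linear_combination hz
      · obtain ⟨m, hm, hz⟩ := mem_image.mp hz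
        have h3 := key m hm
        rw [hz] at h3
        exact hα2 (by linear_combination h3)
    have he : insert α (insert α⁻¹ (T.image μ)) = K := by
      refine eq_of_subset_of_card_le (insert_subset ((hK _).mpr h2)
        (insert_subset ((hK _).mpr (by rw [inv_pow, h2])) hsub)) ?_
      rw [card_insert_of_notMem n2, card_insert_of_notMem n1, hcard]
      omega
    rw [← he, sum_insert n2, sum_insert n1, ← hsum] at hs
    have e1 : Ph n α = 1 := by simp [Ph, hα0, h1]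
    have e2 : Ph n α⁻¹ = 1 := by simp [Ph, hα0, h1]
    linarith only [hs, e1, e2]
  · have := S.pM
    rw [hsum, eq_of_subset_of_card_le hsub (by omega), hs]

theorem norm_eq : (∑ j ∈ range M, tm n ω 0 j) ^ 2 + 2 * (∑ j ∈ range M, tm n ω 1 j) ^ 2 = p := by
  obtain ⟨L, hL⟩ : ∃ L, M = L + 1 := ⟨M - 1, by have := S.pos; omega⟩
  rw [S.parseval]
  have h1 : ∑ d ∈ range M, (-1) ^ d * CC n M ω d =
      ∑ d ∈ range L, (-1) ^ (d + 1) * CC n M ω (d + 1) + (-1) ^ 0 * CC n M ω 0 := by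
    rw [← sum_range_succ' (fun d => (-1) ^ d * CC n M ω d), ← hL]
  rw [h1, S.CC_zero, sum_congr rfl fun d hd =>
    congrArg _ (S.CC_pos (d := d + 1) (by omega) (by have := mem_range.mp hd; omega)), ← sum_mul]
  split_ifs with h
  · have hL2 : ¬ Even L := by
      have := S.pn
      obtain ⟨t, ht⟩ := S.ev
      rintro ⟨u, hu⟩
      omega
    simp only [pow_succ, ← sum_mul, neg_one_geom_sum, if_neg hL2, h]
    push_cast
    ring
  · have h2 : (p : ℤ) + 1 = 4 * M := by exact_mod_cast S.pM.resolve_left h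
    linarith only [h2]

theorem tm_zero : tm n ω 0 0 = (-1) ^ M := by simp only [tm, Int.reduceNeg, pow_zero, mul_zero, add_zero, one_mul, S.Ph_two]

theorem tm_sym {i j : ℕ} (h : i + j = M) : tm n ω 0 i = tm n ω 0 j := by
  have h2 : (-1 : ℤ) ^ i * (-1) ^ i = 1 := by rw [← mul_pow]; simp
  have h3 := S.tw_frob (k := 0) (m := 4 * j) ⟨2 * j, by ring⟩
  simp only [pow_zero, one_mul] at h3
  simp only [tm, pow_zero, one_mul, add_zero]
  rw [S.yy_refl (b := 4 * j) (by omega), S.Ph_neg h3, ← h, pow_add]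
  linear_combination (-1) ^ j * Ph n (yy ω (4 * j)) * h2

theorem tm_cases {j : ℕ} (h : 2 * j < M) : tm n ω 0 j = 1 ∨ tm n ω 0 j = -1 := by
  have h1 : yy ω (4 * j) ≠ 0 := by rw [Ne, S.yy_eq_zero (by omega)]; omega
  simp only [tm, pow_zero, one_mul, add_zero]
  rcases Ph_cases (n := n) h1 with h | h <;> rcases neg_one_pow_eq_or ℤ j with h' | h' <;>
    simp [h, h']

theorem mod_even {s : ℕ} (h : M = 2 * s + 2) : (∑ j ∈ range M, tm n ω 0 j) % 4 = (2 * s + 1) % 4 := by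
  have h1 := sum_pair (f := tm n ω 0) s fun j _ _ => S.tm_cases (by omega)
  have h2 : ∑ j ∈ range s, tm n ω 0 (s + 1 + 1 + j) = ∑ j ∈ range s, tm n ω 0 (j + 1) := by
    rw [← sum_range_reflect]
    exact sum_congr rfl fun j hj => S.tm_sym (by have := mem_range.mp hj; omega)
  have h3 : tm n ω 0 (s + 1) = 0 := by
    simp only [tm, Int.reduceNeg, pow_zero, add_zero, (S.yy_eq_zero (m := 4 * (s + 1)) (by omega)).mpr (by omega), mul_zero, Ph_zero]
  have h4 : tm n ω 0 0 = 1 := by rw [S.tm_zero, h, pow_add, pow_mul]; simp only [Int.reduceNeg, even_two, Even.neg_pow, one_pow, mul_one]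
  rw [show range M = range (s + 1 + 1 + s) by congr 1; omega, sum_range_add, h2, sum_range_succ, h3,
    sum_range_succ', h4]
  omega

theorem mod_odd {s : ℕ} (h : M = 2 * s + 1) : (∑ j ∈ range M, tm n ω 0 j) % 4 = (2 * s - 1) % 4 := by
  have h1 := sum_pair (f := tm n ω 0) s fun j _ _ => S.tm_cases (by omega)
  have h2 : ∑ j ∈ range s, tm n ω 0 (s + 1 + j) = ∑ j ∈ range s, tm n ω 0 (j + 1) := by
    rw [← sum_range_reflect]
    exact sum_congr rfl fun j hj => S.tm_sym (by have := mem_range.mp hj; omega)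
  have h4 : tm n ω 0 0 = -1 := by rw [S.tm_zero, h, pow_add, pow_mul]; simp only [Int.reduceNeg, even_two, Even.neg_pow, one_pow, pow_one, mul_neg, mul_one]
  rw [show range M = range (s + 1 + s) by congr 1; omega, sum_range_add, h2, sum_range_succ', h4]
  omega

theorem newton {R : Type} [CommRing R] (π : R →+* F) (hπ : ∀ x, π x = 0 → (p : R) ∣ x)
    (hn : 2 ≤ n) {z : R} (hz : π z ^ p = π z) :
    (p : R) ^ 2 ∣ 2 * (Ph n (π z) : R) - (3 * z ^ n - z ^ (3 * n)) := by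
  obtain ⟨c, hc⟩ := hπ (z ^ n - Ph n (π z)) (by rw [map_sub, map_pow, map_intCast, S.Ph_cast hz, sub_self])
  have h1 : z ^ n = Ph n (π z) + p * c := by linear_combination hc
  by_cases h0 : π z = 0
  · obtain ⟨y, hy⟩ := hπ z h0
    obtain ⟨k, rfl⟩ := Nat.exists_eq_add_of_le hn
    refine ⟨-(y ^ 2 * z ^ k * (3 - z ^ (2 * (2 + k)))), ?_⟩
    rw [h0, Ph_zero]
    have h2 : z ^ 2 = (p : R) ^ 2 * y ^ 2 := by rw [hy]; ring
    push_cast
    linear_combination (-(z ^ k * (3 - z ^ (2 * (2 + k))))) * h2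
  · rw [mul_comm 3 n, pow_mul, h1]
    rcases Ph_cases (n := n) h0 with h | h <;> rw [h]
    · exact ⟨3 * c ^ 2 + p * c ^ 3, by push_cast; ring⟩
    · exact ⟨-3 * c ^ 2 + p * c ^ 3, by push_cast; ring⟩

theorem binom {R : Type} [CommRing R] [IsDomain R] (π : R →+* F) {t s : R} (ht : π t = ω)
    (hts : t * s = 1) (h8 : t ^ (8 * M) = 1) (m : ℕ) :
    ∑ j ∈ range (2 * M), (-1) ^ j * (t ^ (4 * j) + s ^ (4 * j)) ^ m = 2 * M * (EE M m : ℕ) := by
  have hω := S.ne_zero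
  have hs : π s = ω⁻¹ := eq_inv_of_mul_eq_one_right (by rw [← ht, ← map_mul, hts, map_one])
  have h4 : t ^ (4 * M) = -1 := by
    refine (sq_eq_one_iff.mp (by rw [← pow_mul, ← h8]; congr 1; ring)).resolve_left fun h => ?_
    apply S.neg_ne
    rw [← S.half, ← ht, ← map_pow, h, map_one]
  have h8' : s ^ (8 * M) = 1 := by
    have := congrArg (· ^ (8 * M)) hts
    simpa only [mul_pow, h8, one_mul, one_pow] using this
  simp only [add_pow, mul_sum]
  rw [sum_comm, EE, Nat.cast_sum, mul_sum]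
  refine sum_congr rfl fun i hi => ?_
  obtain ⟨l, rfl⟩ := Nat.exists_eq_add_of_le (Nat.lt_succ_iff.mp (mem_range.mp hi))
  set q := t ^ (4 * M + 4 * i) * s ^ (4 * l) with hq
  have h1 : ∀ j, (-1) ^ j * ((t ^ (4 * j)) ^ i * (s ^ (4 * j)) ^ (i + l - i) * ((i + l).choose i : R)) =
      q ^ j * ((i + l).choose i : R) := fun j => by
    rw [Nat.add_sub_cancel_left, hq, pow_add, h4]; ring
  have h2 : q ^ (2 * M) = 1 := by
    rw [hq, mul_pow, ← pow_mul, ← pow_mul, show (4 * M + 4 * i) * (2 * M) = 8 * M * (M + i) by ring,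
      show 4 * l * (2 * M) = 8 * M * l by ring, pow_mul t (8 * M), pow_mul s (8 * M), h8, h8']
    simp
  have h3 : π q = ω ^ ((4 * M + 4 * i : ℤ) - 4 * l) := by
    rw [hq, map_mul, map_pow, map_pow, ht, hs, zpow_sub₀ hω, inv_pow, div_eq_mul_inv]
    norm_cast
  simp only [h1, ← sum_mul]
  split_ifs with h
  · obtain ⟨c, hc⟩ := h
    have h5 : q = 1 := by
      have h6 : ((8 * M : ℕ) : ℤ) ∣ ((4 * l : ℕ) : ℤ) - (4 * M + 4 * i : ℕ) :=
        ⟨c - 1, by push_cast at hc ⊢; linear_combination 4 * hc⟩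
      rw [hq, pow_eq_pow_of_modEq ((Nat.modEq_iff_dvd).mpr h6) h8, ← mul_pow, hts, one_pow]
    simp only [h5, one_pow, sum_const, card_range, nsmul_eq_mul, Nat.cast_mul, Nat.cast_ofNat, mul_one]
  · have h5 : q ≠ 1 := by
      intro h5
      rw [h5, map_one, eq_comm, S.prim.zpow_eq_one_iff_dvd] at h3
      obtain ⟨c, hc⟩ := h3
      exact h ⟨1 - c, by push_cast at hc ⊢; linarith only [hc]⟩
    have h6 := mul_geom_sum q (2 * M)
    rw [h2, sub_self, mul_eq_zero] at h6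
    rw [h6.resolve_left (sub_ne_zero.mpr h5)]
    simp only [zero_mul, Nat.cast_zero, mul_zero]

theorem cong [PerfectRing F p] (hn : 2 ≤ n) : (p : ℤ) ^ 2 ∣ 4 * ∑ j ∈ range M, tm n ω 0 j -
    2 * M * (3 * (EE M n : ℕ) - (EE M (3 * n) : ℕ)) := by
  have hπ : ∀ x : WittVector p F, WittVector.constantCoeff x = 0 → (p : WittVector p F) ∣ x :=
    fun x hx => Ideal.mem_span_singleton.mp
      ((WittVector.mem_span_p_iff_coeff_zero_eq_zero x).mpr hx)
  have ht : ∀ a : F, WittVector.constantCoeff (WittVector.teichmuller p a) = a := fun a =>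
    WittVector.teichmuller_coeff_zero p a
  set t := WittVector.teichmuller p ω
  set s := WittVector.teichmuller p ω⁻¹
  have hts : t * s = 1 := by rw [← map_mul, mul_inv_cancel₀ S.ne_zero, map_one]
  have h8 : t ^ (8 * M) = 1 := by rw [← map_pow, S.prim.pow_eq_one, map_one]
  have h2 : ∑ j ∈ range (2 * M), tm n ω 0 j = 2 * ∑ j ∈ range M, tm n ω 0 j := by
    rw [two_mul, sum_range_add, sum_shift (S.tm_per 0), two_mul]
  have h3 : (p : WittVector p F) ^ 2 ∣ ((4 * ∑ j ∈ range M, tm n ω 0 j -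
      2 * M * (3 * (EE M n : ℕ) - (EE M (3 * n) : ℕ)) : ℤ) : WittVector p F) := by
    have h4 : ((4 * ∑ j ∈ range M, tm n ω 0 j -
        2 * M * (3 * (EE M n : ℕ) - (EE M (3 * n) : ℕ)) : ℤ) : WittVector p F) =
        ∑ j ∈ range (2 * M), (2 * (tm n ω 0 j : WittVector p F) - (3 * ((-1) ^ j *
          (t ^ (4 * j) + s ^ (4 * j)) ^ n) - (-1) ^ j * (t ^ (4 * j) + s ^ (4 * j)) ^ (3 * n))) := by
      have hb := S.binom (t := t) (s := s) _ (ht ω) hts h8
      simp only [sum_sub_distrib, ← mul_sum]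
      rw [hb, hb, ← Int.cast_sum, h2]
      push_cast
      ring
    rw [h4]
    refine dvd_sum fun j _ => ?_
    have h5 : WittVector.constantCoeff (t ^ (4 * j) + s ^ (4 * j)) = yy ω (4 * j) := by
      rw [map_add, map_pow, map_pow, ht, ht, yy]
    have h6 := S.tw_frob (k := 0) (m := 4 * j) ⟨2 * j, by ring⟩
    simp only [pow_zero, one_mul] at h6
    have h7 := S.newton _ hπ hn (z := t ^ (4 * j) + s ^ (4 * j)) (by rw [h5, h6])
    rw [h5] at h7
    convert h7.mul_left ((-1) ^ j) using 1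
    simp only [tm, pow_zero, one_mul, add_zero]
    push_cast
    ring
  have key : ∀ a : ℤ, (p : WittVector p F) ∣ (a : WittVector p F) → (p : ℤ) ∣ a := by
    rintro a ⟨c, hc⟩
    have := congrArg WittVector.constantCoeff hc
    rw [map_mul, map_natCast, map_intCast, CharP.cast_eq_zero, zero_mul] at this
    exact (CharP.intCast_eq_zero_iff F p a).mp this
  obtain ⟨a, ha⟩ := key _ ((dvd_pow_self _ two_ne_zero).trans h3)
  rw [ha] at h3 ⊢
  rw [sq] at h3 ⊢
  rw [Int.cast_mul, Int.cast_natCast, mul_dvd_mul_iff_left (WittVector.p_nonzero p F)] at h3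
  exact mul_dvd_mul_left _ (key a h3)

end Set8

end field

theorem exists_A {p n M : ℕ} (hp : p.Prime) (hM : 0 < M) (pn : p = 2 * n + 1) (hn : 2 ≤ n)
    (pM : p = 4 * M + 1 ∨ p + 1 = 4 * M) (ev : Even (M + n)) :
    ∃ A B : ℤ, A ^ 2 + 2 * B ^ 2 = p ∧ (∀ s : ℕ, M = 2 * s + 2 → A % 4 = (2 * s + 1) % 4) ∧
      (∀ s : ℕ, M = 2 * s + 1 → A % 4 = (2 * s - 1) % 4) ∧
      4 * (A : ZMod (p ^ 2)) = 2 * M * (3 * (EE M n : ℕ) - (EE M (3 * n) : ℕ)) := by
  have := Fact.mk hp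
  have : NeZero ((8 * M : ℕ) : AlgebraicClosure (ZMod p)) := by
    refine ⟨fun h => ?_⟩
    rw [CharP.cast_eq_zero_iff _ p] at h
    rcases (Nat.Prime.dvd_mul hp).mp h with h | h
    · have := (Nat.prime_dvd_prime_iff_eq hp Nat.prime_two).mp (hp.dvd_of_dvd_pow (n := 3) h)
      omega
    · have := Nat.le_of_dvd hM h
      omega
  obtain ⟨ω, hω⟩ := HasEnoughRootsOfUnity.exists_primitiveRoot (AlgebraicClosure (ZMod p)) (8 * M)
  have S : Set8 p n M ω := ⟨hω, hM, pn, pM, ev⟩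
  refine ⟨_, _, S.norm_eq, fun s => S.mod_even, fun s => S.mod_odd, ?_⟩
  have h := (ZMod.intCast_zmod_eq_zero_iff_dvd _ (p ^ 2)).mpr (by exact_mod_cast S.cong hn)
  push_cast at h ⊢
  linear_combination h

theorem blockA1 (p r : ℕ) (hp : p.Prime) (h : p = 8 * r + 1) :
    ∃ A B : ℤ, A ^ 2 + 2 * B ^ 2 = p ∧ A % 4 = (2 * r - 1 : ℤ) % 4 ∧
      4 * (A : ZMod (p ^ 2)) = ((p : ZMod (p ^ 2)) - 1) *
        (3 * ((4 * r).choose r : ℕ) - ((12 * r).choose r : ℕ) - ((12 * r).choose (3 * r) : ℕ)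
          - ((12 * r).choose (5 * r) : ℕ)) := by
  have hr : 0 < r := by have := hp.two_le; omega
  obtain ⟨A, B, h1, h2, _, h4⟩ := exists_A (n := 4 * r) (M := 2 * r) hp (by omega) (by omega)
    (by omega) (by omega) ⟨3 * r, by ring⟩
  refine ⟨A, B, h1, by have := h2 (r - 1) (by omega); omega, ?_⟩
  have e1 := EE_eq (M := 2 * r) (m := 4 * r) (a := r) (k := 2) (by omega) ⟨1, by push_cast; ring⟩
    (by omega) (by omega)
  have e2 := EE_eq (M := 2 * r) (m := 12 * r) (a := r) (k := 6) (by omega) ⟨3, by push_cast; ring⟩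
    (by omega) (by omega)
  have s1 : (4 * r).choose (r + 1 * (2 * r)) = (4 * r).choose r := Nat.choose_symm_of_eq_add (by ring)
  have s2 : (12 * r).choose (r + 5 * (2 * r)) = (12 * r).choose r :=
    Nat.choose_symm_of_eq_add (by ring)
  have s3 : (12 * r).choose (r + 4 * (2 * r)) = (12 * r).choose (3 * r) :=
    Nat.choose_symm_of_eq_add (by ring)
  have s4 : (12 * r).choose (r + 3 * (2 * r)) = (12 * r).choose (5 * r) :=
    Nat.choose_symm_of_eq_add (by ring)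
  simp only [sum_range_succ, sum_range_zero, s1, s2, s3, s4, zero_mul, add_zero, zero_add] at e1 e2
  rw [show r + 1 * (2 * r) = 3 * r by ring, show r + 2 * (2 * r) = 5 * r by ring] at e2
  rw [h4, show 3 * (4 * r) = 12 * r by ring, e1, e2]
  have hp' : (p : ZMod (p ^ 2)) = 8 * r + 1 := by exact_mod_cast congrArg (Nat.cast (R := ZMod (p ^ 2))) h
  rw [hp']
  push_cast
  ring

theorem blockA3 (p r : ℕ) (hp : p.Prime) (h : p = 8 * (r + 1) + 3) :
    ∃ A B : ℤ, A ^ 2 + 2 * B ^ 2 = p ∧ A % 4 = (2 * r + 1 : ℤ) % 4 ∧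
      4 * (A : ZMod (p ^ 2)) = ((p : ZMod (p ^ 2)) + 1) *
        (3 * ((4 * r + 5).choose (r + 1) : ℕ) - ((12 * r + 15).choose r : ℕ)
          - ((12 * r + 15).choose (3 * r + 3) : ℕ) - ((12 * r + 15).choose (5 * r + 6) : ℕ)) := by
  obtain ⟨A, B, h1, _, h3, h4⟩ := exists_A (n := 4 * r + 5) (M := 2 * r + 3) hp (by omega) (by omega)
    (by omega) (by omega) ⟨3 * r + 4, by ring⟩
  refine ⟨A, B, h1, by have := h3 (r + 1) (by omega); omega, ?_⟩
  have e1 := EE_eq (M := 2 * r + 3) (m := 4 * r + 5) (a := r + 1) (k := 2) (by omega)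
    ⟨1, by push_cast; ring⟩ (by omega) (by omega)
  have e2 := EE_eq (M := 2 * r + 3) (m := 12 * r + 15) (a := r) (k := 6) (by omega)
    ⟨3, by push_cast; ring⟩ (by omega) (by omega)
  have s1 : (4 * r + 5).choose (r + 1 + 1 * (2 * r + 3)) = (4 * r + 5).choose (r + 1) :=
    Nat.choose_symm_of_eq_add (by ring)
  have s2 : (12 * r + 15).choose (r + 5 * (2 * r + 3)) = (12 * r + 15).choose r :=
    Nat.choose_symm_of_eq_add (by ring)
  have s3 : (12 * r + 15).choose (r + 4 * (2 * r + 3)) = (12 * r + 15).choose (3 * r + 3) :=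
    Nat.choose_symm_of_eq_add (by ring)
  have s4 : (12 * r + 15).choose (r + 3 * (2 * r + 3)) = (12 * r + 15).choose (5 * r + 6) :=
    Nat.choose_symm_of_eq_add (by ring)
  simp only [sum_range_succ, sum_range_zero, s1, s2, s3, s4, zero_mul, add_zero, zero_add] at e1 e2
  rw [show r + 1 * (2 * r + 3) = 3 * r + 3 by ring, show r + 2 * (2 * r + 3) = 5 * r + 6 by ring] at e2
  rw [h4, show 3 * (4 * r + 5) = 12 * r + 15 by ring, e1, e2]
  have hp' : (p : ZMod (p ^ 2)) = 8 * (r + 1) + 3 := by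
    exact_mod_cast congrArg (Nat.cast (R := ZMod (p ^ 2))) h
  rw [hp']
  push_cast
  ring

end Pool.Agent.MP_025f5d_nt.Q44

end
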