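import Pool.Agent.MP_025f5d_nt.Mg.Q44_BlockA

/-! From the ring statements core1, core3 and the character sums to the rational congruences. -/

namespace Pool.Agent.MP_025f5d_nt.Q44

open Finset

theorem sq_unique {p : ℕ} (hp : p.Prime) {x y A B : ℤ} (h1 : (p : ℤ) = x ^ 2 + 2 * y ^ 2)
    (h2 : A ^ 2 + 2 * B ^ 2 = p) : A = x ∨ A = -x := by
  have hp0 : (0 : ℤ) < p := by exact_mod_cast hp.pos
  have key : ∀ y : ℤ, (p : ℤ) = x ^ 2 + 2 * y ^ 2 → (p : ℤ) ∣ x * B - y * A → A = x ∨ A = -x := by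
    rintro y h1 ⟨c, hc⟩
    have h3 : (p : ℤ) ^ 2 = (x * A + 2 * y * B) ^ 2 + 2 * (p * c) ^ 2 := by
      rw [← hc]; linear_combination (p : ℤ) * h1 - (x ^ 2 + 2 * y ^ 2) * h2
    have h4 : c = 0 := by
      by_contra h
      have h5 : 1 ≤ c ^ 2 := by have := sq_pos_of_ne_zero h; omega
      nlinarith only [mul_le_mul_of_nonneg_left h5 (sq_nonneg (p : ℤ)), hp0, h3]
    rw [h4, mul_zero] at hc
    have h5 : (p : ℤ) * (A ^ 2 - x ^ 2) = 0 := by
      linear_combination A ^ 2 * h1 + x ^ 2 * h2 - 2 * (x * B + y * A) * hc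
    exact sq_eq_sq_iff_eq_or_eq_neg.mp (sub_eq_zero.mp ((mul_eq_zero.mp h5).resolve_left hp0.ne'))
  have h3 : (p : ℤ) ∣ (x * B - y * A) * (x * B - -y * A) :=
    ⟨B ^ 2 - y ^ 2, by linear_combination (-B ^ 2) * h1 - y ^ 2 * h2⟩
  rcases (Nat.prime_iff_prime_int.mp hp).dvd_or_dvd h3 with h | h
  · exact key y h1 h
  · exact key (-y) (by rw [h1]; ring) h

theorem cop_two {p : ℕ} (hp : p.Prime) (h3 : 3 < p) : IsCoprime (p : ℤ) 2 := by
  exact_mod_cast Nat.isCoprime_iff_coprime.mpr ((Nat.coprime_primes hp Nat.prime_two).mpr (by omega))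

theorem cop_x {p : ℕ} (hp : p.Prime) {x y : ℤ} (h : (p : ℤ) = x ^ 2 + 2 * y ^ 2) (hx : x % 2 = 1) :
    IsCoprime (p : ℤ) x := by
  refine ((Nat.prime_iff_prime_int.mp hp).irreducible.coprime_iff_not_dvd).mpr ?_
  rintro ⟨c, rfl⟩
  have hp1 : (1 : ℤ) < p := by exact_mod_cast hp.one_lt
  have h0 : c ≠ 0 := by rintro rfl; simp at hx
  have h5 : 1 ≤ c ^ 2 := by have := sq_pos_of_ne_zero h0; omega
  nlinarith only [mul_le_mul_of_nonneg_left h5 (sq_nonneg (p : ℤ)), h, hp1]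

theorem cong_of {p : ℕ} (hp : p.Prime) (h3 : 3 < p) (g : ℕ → ℤ) {t : ℚ} {u v : ℤ}
    (hu : IsCoprime (p : ℤ) u) (ht : t * u = v)
    (h : (u : ZMod (p ^ 2)) * ∑ k ∈ range p, (g k : ZMod (p ^ 2)) * (-2) ^ k * Lc _ (p / 2) k = v) :
    CongSq p (∑ k ∈ range p, (g k : ℚ) / (-8) ^ k * (((2 * k).choose k : ℕ) : ℚ) ^ 2) t := by
  have := Fact.mk hp
  have hn : p = 2 * (p / 2) + 1 := by have := hp.eq_two_or_odd; omega
  have h8 : ∀ k ∈ range p, p - 1 = k + (p - 1 - k) := fun k hk => by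
    have := mem_range.mp hk; omega
  refine dvd_num_of_mul (d := 8 ^ (p - 1) * u) (N := (∑ k ∈ range p, g k * (-1) ^ k * 8 ^ (p - 1 - k) *
    (((2 * k).choose k : ℕ) : ℤ) ^ 2) * u - 8 ^ (p - 1) * v) ?_ ?_ ?_
  · refine IsCoprime.pow_left (IsCoprime.mul_right (IsCoprime.pow_right ?_) hu)
    exact (cop_two hp h3).pow_right (n := 3)
  · push_cast
    rw [sub_mul, ← ht, ← mul_assoc, sum_mul]
    congr 1
    · congr 1
      refine sum_congr rfl fun k hk => ?_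
      have e1 : (8 : ℚ) ^ (p - 1) = 8 ^ k * 8 ^ (p - 1 - k) := by rw [← pow_add, ← h8 k hk]
      have e2 : (-1 : ℚ) ^ k * (-1) ^ k = 1 := by rw [← mul_pow]; simp
      rw [e1, neg_pow (8 : ℚ)]
      field_simp
      linear_combination (-(g k : ℚ)) * (((2 * k).choose k : ℕ) : ℚ) ^ 2 * e2
    · ring
  · have h1 : ((∑ k ∈ range p, g k * (-1) ^ k * 8 ^ (p - 1 - k) * (((2 * k).choose k : ℕ) : ℤ) ^ 2 : ℤ) :
        ZMod (p ^ 2)) = 8 ^ (p - 1) *
        ∑ k ∈ range p, (g k : ZMod (p ^ 2)) * (-2) ^ k * Lc _ (p / 2) k := by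
      push_cast
      rw [mul_sum]
      refine sum_congr rfl fun k hk => ?_
      have e1 : (8 : ZMod (p ^ 2)) ^ (p - 1) = 8 ^ k * 8 ^ (p - 1 - k) := by rw [← pow_add, ← h8 k hk]
      have e2 : (-1 : ZMod (p ^ 2)) ^ k * 16 ^ k = 8 ^ k * (-2) ^ k := by
        rw [← mul_pow, ← mul_pow]; norm_num only []
      rw [central_sq (red p) red_ker red_unit hn (mem_range.mp hk), e1]
      linear_combination (g k : ZMod (p ^ 2)) * 8 ^ (p - 1 - k) * Lc _ (p / 2) k * e2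
    rw [← Nat.cast_pow, ← ZMod.intCast_zmod_eq_zero_iff_dvd, Int.cast_sub, Int.cast_mul, h1]
    push_cast
    linear_combination 8 ^ (p - 1) * h

theorem cong_one {p : ℕ} (hp : p.Prime) (h3 : 3 < p) {t : ℚ} {u v : ℤ} (hu : IsCoprime (p : ℤ) u)
    (ht : t * u = v) (h : (u : ZMod (p ^ 2)) * sg1 p = v) : CongSq p (S1 p) t :=
  cong_of hp h3 pell hu ht h

theorem cong_two {p : ℕ} (hp : p.Prime) (h3 : 3 < p) {t : ℚ} {u v : ℤ} (hu : IsCoprime (p : ℤ) u)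
    (ht : t * u = v) (h : (u : ZMod (p ^ 2)) * sg2 p = v) : CongSq p (S2 p) t := by
  have := cong_of hp h3 (fun k => k * pell k) hu ht (by simpa only [Int.cast_mul, Int.cast_natCast, sg2] using h)
  simpa only [S2, Int.cast_mul, Int.cast_natCast] using this

theorem q1_main (p : ℕ) (x y : ℤ) (hp : p.Prime) (h3 : 3 < p)
    (hxy : (p : ℤ) = x ^ 2 + 2 * y ^ 2) (hx : x % 8 = 1 ∨ x % 8 = 3) :
    (p % 8 = 1 → CongSq p (S1 p) 0 ∧
      CongSq p (S2 p) ((-1 : ℚ) ^ ((x + 1) / 2) / 2 * (x - p / (2 * x)))) ∧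
    (p % 8 = 3 → CongSq p (S1 p) ((-1 : ℚ) ^ ((p - 3) / 8) * (p / (2 * x) - 2 * x)) ∧
      CongSq p (S2 p) ((-1 : ℚ) ^ ((x + 1) / 2) / 2 * (x + 3 * p / (2 * x)))) := by
  have hx0 : (x : ℚ) ≠ 0 := by
    have : x ≠ 0 := by omega
    exact_mod_cast this
  have c2 := (cop_two hp h3).mul_right (cop_x hp hxy (by omega))
  have c4 := (cop_two hp h3).mul_right c2
  obtain ⟨e, he, he'⟩ : ∃ e : ℤ, (-1 : ℚ) ^ ((x + 1) / 2) = e ∧
      (x % 8 = 1 ∧ e = -1 ∨ x % 8 = 3 ∧ e = 1) := by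
    rcases hx with h | h
    · exact ⟨-1, by rw [Odd.neg_one_zpow (Int.odd_iff.mpr (by omega))]; simp, Or.inl ⟨h, rfl⟩⟩
    · exact ⟨1, by rw [Even.neg_one_zpow (Int.even_iff.mpr (by omega))]; simp, Or.inr ⟨h, rfl⟩⟩
  rw [he]
  refine ⟨fun h => ?_, fun h => ?_⟩
  · obtain ⟨r, hr⟩ : ∃ r, p = 8 * r + 1 := ⟨p / 8, by omega⟩
    obtain ⟨A, B, h1, h2, h4⟩ := blockA1 p r hp hr
    obtain ⟨k1, k2⟩ := core1 p r hp hr A h4
    refine ⟨cong_one hp h3 (u := 1) (v := 0) isCoprime_one_right (by simp) (by simp [k1]),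
      cong_two hp h3 (v := e * (2 * x ^ 2 - p)) c4 (by push_cast; field_simp) ?_⟩
    push_cast
    rcases sq_unique hp hxy h1 with rfl | rfl <;> rcases Nat.even_or_odd r with h5 | h5 <;>
      rw [h5.neg_one_pow] at k2 <;> obtain ⟨m, rfl⟩ := h5 <;>
      rcases he' with ⟨h6, rfl⟩ | ⟨h6, rfl⟩ <;> push_cast at k2 h2 ⊢ <;>
      first | omega | linear_combination k2 | linear_combination -k2
  · obtain ⟨r, hr⟩ : ∃ r, p = 8 * (r + 1) + 3 := ⟨p / 8 - 1, by omega⟩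
    obtain ⟨A, B, h1, h2, h4⟩ := blockA3 p r hp hr
    obtain ⟨k1, k2⟩ := core3 p r hp hr A h4
    have hr' : x ^ 2 + 2 * y ^ 2 = 8 * (r + 1) + 3 := by rw [← hxy, hr]; push_cast; ring
    have hy : y ^ 2 % 8 = 1 := by
      have : y % 4 = 0 ∨ y % 4 = 1 ∨ y % 4 = 2 ∨ y % 4 = 3 := by omega
      have h8 : x ^ 2 % 8 = 1 := by rcases hx with h | h <;> simp [pow_two, Int.mul_emod, h]
      obtain ⟨z, hz⟩ : ∃ z, y = 4 * z + y % 4 := ⟨y / 4, by omega⟩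
      rcases this with h | h | h | h <;> rw [h] at hz <;> subst hz <;> ring_nf at hr' ⊢ <;> omega
    have hs : (e : ZMod (p ^ 2)) = -(-1) ^ (r + 1) ∧ A = -x := by
      obtain ⟨z, hz⟩ : ∃ z, x = 8 * z + x % 8 := ⟨x / 8, by omega⟩
      have hA := sq_unique hp hxy h1
      rcases he' with ⟨h6, rfl⟩ | ⟨h6, rfl⟩ <;> rw [h6] at hz
      · have : x ^ 2 = 16 * (4 * z ^ 2 + z) + 1 := by rw [hz]; ring
        exact ⟨by rw [Even.neg_one_pow (Nat.even_iff.mpr (by omega))]; simp, by omega⟩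
      · have : x ^ 2 = 16 * (4 * z ^ 2 + 3 * z) + 9 := by rw [hz]; ring
        exact ⟨by rw [Odd.neg_one_pow (Nat.odd_iff.mpr (by omega))]; simp, by omega⟩
    obtain ⟨hs, rfl⟩ := hs
    rw [show (p - 3) / 8 = r + 1 by omega]
    refine ⟨cong_one hp h3 (v := (-1) ^ (r + 1) * (p - 4 * x ^ 2)) c2 (by push_cast; field_simp; ring) ?_,
      cong_two hp h3 (v := e * (2 * x ^ 2 + 3 * p)) c4 (by push_cast; field_simp) ?_⟩
    · push_cast at k1 ⊢
      linear_combination -k1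
    · push_cast at k2 ⊢
      rw [hs]
      linear_combination -k2

theorem cop_den {p : ℕ} {q : ℚ} (h : (p : ℤ) ^ 2 ∣ q.num) : IsCoprime ((p : ℤ) ^ 2) q.den :=
  q.isCoprime_num_den.of_isCoprime_of_dvd_left h

theorem congSq_trans {p : ℕ} {a b c : ℚ} (h1 : CongSq p a b) (h2 : CongSq p a c) : CongSq p b c := by
  refine dvd_num_of_mul (d := (a - b).den * (a - c).den)
    (N := (a - c).num * (a - b).den - (a - b).num * (a - c).den) ((cop_den h1).mul_right (cop_den h2))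
    ?_ ((Dvd.dvd.mul_right h2 _).sub (Dvd.dvd.mul_right h1 _))
  push_cast
  rw [← Rat.mul_den_eq_num, ← Rat.mul_den_eq_num]
  ring

theorem not_dvd_num {p : ℕ} (hp : p.Prime) {q : ℚ} {u e : ℤ} (he : e = 1 ∨ e = -1)
    (h : q * u = e * p) : ¬ (p : ℤ) ^ 2 ∣ q.num := by
  intro h1
  have h2 : q.num * u = e * p * q.den := by
    have : (q.num : ℚ) * u = e * p * q.den := by rw [← h, ← Rat.mul_den_eq_num q]; ring
    exact_mod_cast this
  have h3 : (p : ℤ) ^ 2 ∣ e * p := (cop_den h1).dvd_of_dvd_mul_right (h2 ▸ h1.mul_right u)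
  have hp1 : (1 : ℤ) < p := by exact_mod_cast hp.one_lt
  have h4 : (p : ℤ) ^ 2 ∣ p := by
    rcases he with rfl | rfl
    · simpa using h3
    · simpa only [Int.reduceNeg, neg_mul, one_mul, dvd_neg] using h3
  have := Int.le_of_dvd (by omega) h4
  nlinarith only [hp1, this]

/-- The printed form of (b) fails for every admissible prime. -/
theorem printed_fails (p : ℕ) (x y : ℤ) (hp : p.Prime) (h3 : 3 < p) (h8 : p % 8 = 1 ∨ p % 8 = 3)
    (hxy : (p : ℤ) = x ^ 2 + 2 * y ^ 2) (hx : x % 8 = 1 ∨ x % 8 = 3) :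
    ¬ CongSq p (S2 p) ((-1 : ℚ) ^ ((x + 1) / 2) / 2 * (x + p / (2 * x))) := by
  intro h
  have hx0 : (x : ℚ) ≠ 0 := by
    have : x ≠ 0 := by omega
    exact_mod_cast this
  obtain ⟨h1, h2⟩ := q1_main p x y hp h3 hxy hx
  obtain ⟨e, he, he'⟩ : ∃ e : ℤ, (-1 : ℚ) ^ ((x + 1) / 2) = e ∧ (e = 1 ∨ e = -1) := by
    rcases Int.even_or_odd ((x + 1) / 2) with h | h
    · exact ⟨1, by rw [h.neg_one_zpow]; simp, Or.inl rfl⟩
    · exact ⟨-1, by rw [h.neg_one_zpow]; simp, Or.inr rfl⟩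
  rw [he] at h h1 h2
  rcases h8 with h8 | h8
  · exact not_dvd_num hp (u := 2 * x) he' (by push_cast; field_simp; ring)
      (congSq_trans h (h1 h8).2)
  · exact not_dvd_num hp (u := 2 * x) he' (by push_cast; field_simp; ring)
      (congSq_trans (h2 h8).2 h)

end Pool.Agent.MP_025f5d_nt.Q44
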